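import Mathlib
import Pool.Agent.Run7.h407.G.Blob

/-!
Sequences of fields made of finitely many rescaled bumps.
-/

namespace Pool.Agent.Run7.h407.G.X

open Set Filter Topology MeasureTheory
open scoped ContDiff

variable {w : ℕ → ℝ} {M : ℕ}

theorem PB.sumF (hw : Wgt w) {ι : Type} (S : Finset ι) {s : ι → ℕ → ℝ} (h : ∀ m ∈ S, PB w (s m)) :
    PB w (fun j => ∑ m ∈ S, s m j) := by
  classical
  induction S using Finset.induction_on with
  | empty => simpa using PB.const 0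
  | insert m S hm ih =>
    simp_rw [Finset.sum_insert hm]
    exact (h m (Finset.mem_insert_self m S)).add hw
      (ih fun k hk => h k (Finset.mem_insert_of_mem hk))

theorem US.sumF (hw : Wgt w) {f : Fin M → ℕ → V → ℝ} (hf : ∀ m, US w (f m)) :
    US w (fun j x => ∑ m, f m j x) := by
  choose s ps ns ms using hf
  refine ⟨fun j => ∑ m, s m j, PB.sumF hw _ fun m _ => ps m,
    fun j => Finset.sum_nonneg fun m _ => ns m j, fun j x => ?_⟩
  exact (Finset.abs_sum_le_sum_abs _ _).trans (Finset.sum_le_sum fun m _ => ms m j x)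

/-- Sequences of functions made of rescaled bumps. -/
def BSn (M : ℕ) (w : ℕ → ℝ) (f : ℕ → V → ℝ) : Prop :=
  ∃ (a s : Fin M → ℕ → ℝ) (z : Fin M → ℕ → V) (φ : Fin M → V → ℝ),
    (∀ m, Sm (φ m)) ∧ (∀ m, HasCompactSupport (φ m)) ∧ (∀ m, PB w (a m)) ∧ (∀ m, PB w (s m)) ∧
    ∀ j x, f j x = ∑ m, a m j * φ m (s m j • x - z m j)

theorem BSn.pd (hw : Wgt w) {f : ℕ → V → ℝ} (hf : BSn M w f) (k : Fin 3) :
    BSn M w (fun j => pd k (f j)) := by
  obtain ⟨a, s, z, φ, h1, h2, h3, h4, h5⟩ := hf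
  refine ⟨fun m j => a m j * s m j, s, z, fun m => Run7.h407.pd k (φ m), fun m => (h1 m).pd k,
    fun m => pd_cs (h2 m) k, fun m => (h3 m).mul hw (h4 m), h4, fun j x => ?_⟩
  have e : f j = fun x => ∑ m, a m j * φ m (s m j • x - z m j) := funext fun x => h5 j x
  beta_reduce
  rw [e, pd_sum (fun m _ => ((contDiff_const.mul (sm_bump (h1 m) (s m j) (z m j))).differentiable
    (by simp) x : DifferentiableAt ℝ (fun y => a m j * φ m (s m j • y - z m j)) x))]
  apply Finset.sum_congr rfl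
  intro m _
  rw [pd_const_mul _ ((sm_bump (h1 m) (s m j) (z m j)).diff x), pd_bump (h1 m)]
  ring

theorem BSn.us (hw : Wgt w) {f : ℕ → V → ℝ} (hf : BSn M w f) : US w f := by
  obtain ⟨a, s, z, φ, h1, h2, h3, h4, h5⟩ := hf
  choose K hK0 hK using fun m => cs_bound (h1 m) (h2 m)
  have key : ∀ m, US w (fun j x => a m j * φ m (s m j • x - z m j)) := by
    intro m
    have hp : PB w (fun j => |a m j|) := (h3 m).mono fun j => by rw [abs_abs]
    refine ⟨_, hp.mul hw (PB.const (K m)), fun j => mul_nonneg (abs_nonneg _) (hK0 m),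
      fun j x => ?_⟩
    rw [abs_mul]
    apply mul_le_mul_of_nonneg_left _ (abs_nonneg _)
    rw [← Real.norm_eq_abs]
    exact hK m _
  have := US.sumF hw key
  refine (congrArg (US w) (funext fun j => funext fun x => ?_)).mp this
  rw [h5]

/-- Sequences of fields made of rescaled fields. -/
def BVn (M : ℕ) (w : ℕ → ℝ) (P : ℕ → V → V) : Prop :=
  ∃ (a s : Fin M → ℕ → ℝ) (z : Fin M → ℕ → V) (F : Fin M → V → V),
    (∀ m, CF (F m)) ∧ (∀ m, PB w (a m)) ∧ (∀ m, PB w (s m)) ∧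
    ∀ j x, P j x = ∑ m, a m j • F m (s m j • x - z m j)

theorem BVn.comp {P : ℕ → V → V} (h : BVn M w P) (i : Fin 3) : BSn M w (fun j x => P j x i) := by
  obtain ⟨a, s, z, F, h1, h2, h3, h4⟩ := h
  refine ⟨a, s, z, fun m x => F m x i, fun m => (h1 m).smc i, fun m => (h1 m).csc i, h2, h3,
    fun j x => ?_⟩
  beta_reduce
  rw [h4, Finset.sum_apply]
  rfl

theorem BVn.bds (hw : Wgt w) {P : ℕ → V → V} (h : BVn M w P) : Bds P w := by
  have c0 : ∀ i, US w (fun j x => P j x i) := fun i => (h.comp i).us hw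
  have c1 : ∀ i k, US w (fun j => pd k (fun y => P j y i)) := fun i k =>
    ((h.comp i).pd hw k).us hw
  have c2 : ∀ i k, US w (fun j => pd k (pd k (fun y => P j y i))) := fun i k =>
    (((h.comp i).pd hw k).pd hw k).us hw
  have d0 : ∀ i, US w (fun j x => P (j + 1) x i) := fun i => (c0 i).shift hw
  have d1 : ∀ i k, US w (fun j => pd k (fun y => P (j + 1) y i)) := fun i k =>
    (c1 i k).shift hw
  refine ⟨UB.of_comp hw c0, UB.of_comp hw fun i => adv_us hw c0 c1 i,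
    UB.of_comp hw fun i => ?_, UB.of_comp hw fun i => ?_⟩
  · exact (adv_us hw c0 d1 i).add hw (adv_us hw d0 c1 i)
  · exact US.sum3 hw fun k => c2 i k

theorem ts_summn (hw : Wgt w) {P : ℕ → V → V} (h : BVn M w P) {b : ℝ} {B : ℕ → ℝ → ℝ}
    (hB : RD w b B) {t : ℝ} (ht : t ∈ Ioo (-1) b) (x : V) :
    Summable (fun j => B j t • P j x) := by
  obtain ⟨a, s, z, F, h1, h2, h3, h4⟩ := h
  have key : ∀ m, Summable (fun j => (a m j * B j t) • F m (s m j • x - z m j)) := fun m =>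
    ser_summable hw (hB.wmul hw (h2 m)) (h1 m).sm (h1 m).cs (y := (t, x)) ht
  have h5 : Summable (fun j => ∑ m, (a m j * B j t) • F m (s m j • x - z m j)) :=
    summable_sum fun m _ => key m
  refine h5.congr fun j => ?_
  rw [h4, Finset.smul_sum]
  apply Finset.sum_congr rfl
  intro m _
  rw [smul_smul, mul_comm]

theorem ts_smoothn (hw : Wgt w) {P : ℕ → V → V} (h : BVn M w P) {b : ℝ} {B : ℕ → ℝ → ℝ} {k : ℕ}
    (hB : RC w k b B) : ContDiffOn ℝ k (fun z : ℝ × V => ∑' j, B j z.1 • P j z.2)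
      (Ioo (-1) b ×ˢ univ) := by
  obtain ⟨a, s, z, F, h1, h2, h3, h4⟩ := h
  have key : ∀ m, ContDiffOn ℝ k (Ser (s m) (z m) (fun j t => a m j * B j t) (F m))
      (Ioo (-1) b ×ˢ univ) := fun m =>
    ser_smooth hw (h3 m) k V _ (hB.wmul hw (h2 m)) (F m) (h1 m).sm (h1 m).cs
  have h5 : ContDiffOn ℝ k (fun y => ∑ m, Ser (s m) (z m) (fun j t => a m j * B j t) (F m) y)
      (Ioo (-1) b ×ˢ univ) := ContDiffOn.sum fun m _ => key m
  apply h5.congr
  intro y hy
  unfold Ser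
  rw [← Summable.tsum_finsetSum fun m _ =>
    ser_summable hw (hB.rd.wmul hw (h2 m)) (h1 m).sm (h1 m).cs (y := y) hy.1]
  congr 1
  funext j
  rw [h4, Finset.smul_sum]
  apply Finset.sum_congr rfl
  intro m _
  rw [smul_smul, mul_comm]

theorem vel_memn (hw : Wgt w) {P : ℕ → V → V} (h : BVn M w P) {T : ℝ} {c : ℕ → ℝ → ℝ}
    (hc : TS w T c) {t : ℝ} (ht : t ∈ Ico 0 T) : Mem P (fun n => c n t) (vel P c t) := by
  intro x
  obtain ⟨b, hb1, hb2⟩ := exists_between ht.2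
  have hb0 : 0 < b := ht.1.trans_lt hb1
  obtain ⟨B, hB, hB2⟩ := hc b hb0 hb2 0
  have h2 := ts_summn hw h hB.rd (t := t) ⟨by linarith [ht.1], hb1⟩ x
  have h3 : (fun j => B j t • P j x) = fun j => c j t • P j x := by
    funext j
    rw [hB2 j t ht]
  rw [h3] at h2
  exact h2.hasSum

theorem vel_smoothn (hw : Wgt w) {P : ℕ → V → V} (h : BVn M w P) {T : ℝ} {c : ℕ → ℝ → ℝ}
    (hc : TS w T c) :
    ContDiffOn ℝ ∞ (fun z : ℝ × V => vel P c z.1 z.2) (Ico 0 T ×ˢ univ) := by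
  rw [contDiffOn_infty]
  intro k z hz
  obtain ⟨b, hb1, hb2⟩ := exists_between hz.1.2
  have hb0 : 0 < b := hz.1.1.trans_lt hb1
  obtain ⟨B, hB, hB2⟩ := hc b hb0 hb2 k
  have h1 := ts_smoothn hw h hB
  have hs : IsOpen (Ioo (-1) b ×ˢ (univ : Set V)) := isOpen_Ioo.prod isOpen_univ
  have hzm : z ∈ Ioo (-1) b ×ˢ (univ : Set V) := ⟨⟨by linarith [hz.1.1], hb1⟩, mem_univ _⟩
  have h2 : ContDiffAt ℝ k (fun z : ℝ × V => ∑' j, B j z.1 • P j z.2) z :=
    h1.contDiffAt (hs.mem_nhds hzm)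
  have he : ∀ y ∈ Ico 0 T ×ˢ (univ : Set V), vel P c y.1 y.2 = ∑' j, B j y.1 • P j y.2 := by
    intro y hy
    unfold vel
    congr 1
    funext j
    rw [hB2 j y.1 hy.1]
  exact (h2.contDiffWithinAt (s := Ico 0 T ×ˢ (univ : Set V))).congr he (he z hz)

end Pool.Agent.Run7.h407.G.X
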