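import Mathlib
import Pool.Agent.Run7.h407.X.Scal
import Pool.Agent.Run7.h407.G.Chain
import Pool.Agent.Run7.h407.X.Axi

/-!
Chains of fields of which only neighbours interact, separated by the distance to the origin.
-/

namespace Pool.Agent.Run7.h407.G.X

open Set Filter Topology MeasureTheory
open scoped ContDiff

theorem nhds_ltn {x : V} {c : ℝ} (hx : ‖x‖ < c) : ∀ᶠ y : V in 𝓝 x, ‖y‖ < c :=
  (continuous_norm.tendsto x).eventually (gt_mem_nhds hx)

theorem nhds_gtn {x : V} {c : ℝ} (hx : c < ‖x‖) : ∀ᶠ y : V in 𝓝 x, c < ‖y‖ :=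
  (continuous_norm.tendsto x).eventually (lt_mem_nhds hx)

/-- Chains of fields. -/
structure ChN (P : ℕ → V → V) (lo hi : ℕ → ℝ) (R : ℝ) : Prop where
  zero : ∀ x, P 0 x = 0
  cf : ∀ j, CF (P j)
  dv : ∀ j x, dvg (P j) x = 0
  supp : ∀ j x, P j x ≠ 0 → lo j ≤ ‖x‖ ∧ ‖x‖ ≤ hi j
  lo0 : ∀ j, 0 < lo j
  sep : ∀ j k, j + 2 ≤ k → hi k < lo j
  lim : Tendsto hi atTop (𝓝 0)
  N0 : ∀ j, 0 < ip (P (j + 1)) (P (j + 1))
  ip1 : ∀ j, ip (P j) (P (j + 1)) = 0
  Dir1 : ∀ j, Dir (P j) (P (j + 1)) = 0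
  ball : ∀ j x, P j x ≠ 0 → ‖x‖ ≤ R

variable {P : ℕ → V → V} {lo hi : ℕ → ℝ} {R : ℝ}

namespace ChN

theorem GA_CF (h : ChN P lo hi R) (j : ℕ) : CF (GA P j) :=
  (adv_CF (h.cf _) (h.cf _)).add (CF.subf ((h.cf _).smul _) ((h.cf _).smul _))

theorem GB_CF (h : ChN P lo hi R) (j : ℕ) : CF (GB P j) :=
  ((adv_CF (h.cf _) (h.cf _)).add (adv_CF (h.cf _) (h.cf _))).add
    (CF.subf ((h.cf _).smul _) ((h.cf _).smul _))

theorem GC_CF (h : ChN P lo hi R) (j : ℕ) : CF (GC P j) :=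
  (lap_CF (h.cf _)).add ((h.cf _).smul _)

theorem ip_GA (h : ChN P lo hi R) (j : ℕ) {v : V → V} (hv : L2F v) :
    ip (GA P j) v = ip (adv (P (j + 1)) (P (j + 1))) v
      + (Cc P (j + 1) / Nn P (j + 2) * ip (P (j + 2)) v - Bb P j / Nn P j * ip (P j) v) :=
  ip_lin (adv_CF (h.cf _) (h.cf _)).l2 (h.cf _).l2 (h.cf _).l2 hv _ _

theorem ip_GB (h : ChN P lo hi R) (j : ℕ) {v : V → V} (hv : L2F v) :
    ip (GB P j) v = (ip (adv (P (j + 1)) (P (j + 2))) v + ip (adv (P (j + 2)) (P (j + 1))) v)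
      + (Bb P (j + 1) / Nn P (j + 2) * ip (P (j + 2)) v
        - Cc P (j + 1) / Nn P (j + 1) * ip (P (j + 1)) v) := by
  have h1 := adv_CF (h.cf (j + 1)) (h.cf (j + 2))
  have h2 := adv_CF (h.cf (j + 2)) (h.cf (j + 1))
  have := ip_lin (h1.add h2).l2 (h.cf (j + 2)).l2 (h.cf (j + 1)).l2 hv
    (Bb P (j + 1) / Nn P (j + 2)) (Cc P (j + 1) / Nn P (j + 1))
  rw [ipL_add h1.l2 h2.l2 hv] at this
  exact this

theorem ip_GC (h : ChN P lo hi R) (j : ℕ) {v : V → V} (hv : L2F v) :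
    ip (GC P j) v = ip (lap (P (j + 1))) v
      + Dd P (j + 1) / Nn P (j + 1) * ip (P (j + 1)) v :=
  ip_lin2 (lap_CF (h.cf _)).l2 (h.cf _).l2 hv _

/-- The supports of distant fields are disjoint. -/
theorem far (h : ChN P lo hi R) {j k : ℕ} (hjk : j + 2 ≤ k) (x : V) :
    (∀ᶠ y in 𝓝 x, P j y = 0) ∨ (∀ᶠ y in 𝓝 x, P k y = 0) := by
  have h1 := h.sep j k hjk
  rcases lt_or_ge (‖x‖) (lo j) with hx | hx
  · left
    filter_upwards [nhds_ltn hx] with y hy
    by_contra hcon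
    linarith [(h.supp j y hcon).1]
  · right
    filter_upwards [nhds_gtn (h1.trans_le hx)] with y hy
    by_contra hcon
    linarith [(h.supp k y hcon).2]

theorem far' (h : ChN P lo hi R) {j k : ℕ} (hjk : j + 2 ≤ k ∨ k + 2 ≤ j) (x : V) :
    (∀ᶠ y in 𝓝 x, P j y = 0) ∨ (∀ᶠ y in 𝓝 x, P k y = 0) := by
  rcases hjk with h1 | h1
  · exact h.far h1 x
  · exact (h.far h1 x).symm

theorem orth (h : ChN P lo hi R) {j k : ℕ} (hjk : j ≠ k) :
    ip (P j) (P k) = 0 ∧ Dir (P j) (P k) = 0 := by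
  rcases lt_or_gt_of_ne hjk with h1 | h1
  · rcases Nat.eq_or_lt_of_le (Nat.succ_le_of_lt h1) with h2 | h2
    · subst h2
      exact ⟨h.ip1 j, h.Dir1 j⟩
    · have h3 := h.far (j := j) (k := k) (by omega)
      exact ⟨ip_zero_of' fun x => (h3 x).imp (fun h => h.self_of_nhds) (fun h => h.self_of_nhds),
        Dir_zero_of h3⟩
  · rcases Nat.eq_or_lt_of_le (Nat.succ_le_of_lt h1) with h2 | h2
    · subst h2
      rw [ip_comm, Dir_comm]
      exact ⟨h.ip1 k, h.Dir1 k⟩
    · have h3 := h.far (j := k) (k := j) (by omega)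
      rw [ip_comm, Dir_comm]
      exact ⟨ip_zero_of' fun x => (h3 x).imp (fun h => h.self_of_nhds) (fun h => h.self_of_nhds),
        Dir_zero_of h3⟩

theorem P0 (h : ChN P lo hi R) : P 0 = fun _ => 0 := funext h.zero

theorem B0 (h : ChN P lo hi R) : Bb P 0 = 0 := by
  unfold Bb tri
  rw [h.P0]
  have : ∀ (x : V) (i j : Fin 3), pd j (fun _ : V => (0 : V) i) x = 0 := by
    intro x i j
    exact pd_const _ _ _
  simp_rw [this]
  simp

theorem C0 (h : ChN P lo hi R) : Cc P 0 = 0 := by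
  unfold Cc tri
  rw [h.P0]
  simp

theorem tri_far (h : ChN P lo hi R) {a b k : ℕ}
    (hk : (a + 2 ≤ k ∨ k + 2 ≤ a) ∨ (b + 2 ≤ k ∨ k + 2 ≤ b)) :
    ip (adv (P a) (P b)) (P k) = 0 := by
  apply ip_zero_of'
  intro x
  have key : ∀ c : ℕ, (c + 2 ≤ k ∨ k + 2 ≤ c) →
      (∀ᶠ y in 𝓝 x, P c y = 0) ∨ P k x = 0 := by
    intro c hc
    exact (h.far' hc x).imp id (fun h => h.self_of_nhds)
  rcases hk with hk | hk
  · rcases key a hk with h | h
    · exact Or.inl (adv_zero (Or.inl h))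
    · exact Or.inr h
  · rcases key b hk with h | h
    · exact Or.inl (adv_zero (Or.inr h))
    · exact Or.inr h

theorem BN (h : ChN P lo hi R) (j : ℕ) : Bb P j / Nn P j * Nn P j = Bb P j := by
  cases j with
  | zero => rw [h.B0]; ring
  | succ j =>
    have : Nn P (j + 1) ≠ 0 := (h.N0 j).ne'
    field_simp

/-- The fields themselves satisfy the constraints. -/
theorem con (h : ChN P lo hi R) (ν : ℝ) (k : ℕ) : Con ν P (P k) := by
  have hk := h.cf k
  refine ⟨hk.l2, fun j => ?_, fun j => ?_, fun _ j => ?_⟩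
  · rw [h.ip_GA j hk.l2]
    have hn := h.cf (j + 1)
    have hN2 : Nn P (j + 2) ≠ 0 := (h.N0 (j + 1)).ne'
    by_cases h1 : k = j + 2
    · subst h1
      have ez : ip (P (j + 2)) (P (j + 2)) = Nn P (j + 2) := rfl
      have e2 : ip (adv (P (j + 1)) (P (j + 1))) (P (j + 2)) = -Cc P (j + 1) := by
        rw [ip_adv]
        unfold Cc
        rw [neg_neg]
      rw [ez, e2, (h.orth (j := j) (k := j + 2) (by omega)).1]
      field_simp
      ring
    · by_cases h2 : k = j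
      · subst h2
        have ez : ip (P k) (P k) = Nn P k := rfl
        have e2 : ip (adv (P (k + 1)) (P (k + 1))) (P k) = Bb P k := by
          rw [ip_adv, tri_anti hn (h.dv _) hn hk]
          rfl
        rw [ez, e2, (h.orth (j := k + 2) (k := k) (by omega)).1, h.BN]
        ring
      · rw [(h.orth (j := j + 2) (k := k) (Ne.symm h1)).1,
          (h.orth (j := j) (k := k) (Ne.symm h2)).1]
        have h3 : ip (adv (P (j + 1)) (P (j + 1))) (P k) = 0 := by
          by_cases h4 : k = j + 1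
          · subst h4
            rw [ip_adv]
            exact tri_self hn (h.dv _) hn
          · exact h.tri_far (Or.inl (by omega))
        rw [h3]
        ring
  · rw [h.ip_GB j hk.l2]
    have hn := h.cf (j + 1)
    have hn1 := h.cf (j + 2)
    have hN1 : Nn P (j + 1) ≠ 0 := (h.N0 j).ne'
    have hN2 : Nn P (j + 2) ≠ 0 := (h.N0 (j + 1)).ne'
    by_cases h1 : k = j + 2
    · subst h1
      have ez : ip (P (j + 2)) (P (j + 2)) = Nn P (j + 2) := rfl
      have e2 : ip (adv (P (j + 1)) (P (j + 2))) (P (j + 2)) = 0 := by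
        rw [ip_adv]
        exact tri_self hn (h.dv _) hn1
      have e3 : ip (adv (P (j + 2)) (P (j + 1))) (P (j + 2)) = -Bb P (j + 1) := by
        rw [ip_adv]
        unfold Bb
        rw [neg_neg]
      rw [ez, e2, e3, (h.orth (j := j + 1) (k := j + 2) (by omega)).1]
      field_simp
      ring
    · by_cases h2 : k = j + 1
      · subst h2
        have ez : ip (P (j + 1)) (P (j + 1)) = Nn P (j + 1) := rfl
        have e2 : ip (adv (P (j + 1)) (P (j + 2))) (P (j + 1)) = Cc P (j + 1) := by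
          rw [ip_adv, tri_anti hn (h.dv _) hn1 hn]
          rfl
        have e3 : ip (adv (P (j + 2)) (P (j + 1))) (P (j + 1)) = 0 := by
          rw [ip_adv]
          exact tri_self hn1 (h.dv _) hn
        rw [ez, e2, e3, (h.orth (j := j + 2) (k := j + 1) (by omega)).1]
        field_simp
        ring
      · rw [(h.orth (j := j + 2) (k := k) (Ne.symm h1)).1,
          (h.orth (j := j + 1) (k := k) (Ne.symm h2)).1, h.tri_far (by omega),
          h.tri_far (by omega)]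
        ring
  · have hn := h.cf (j + 1)
    have hN1 : Nn P (j + 1) ≠ 0 := (h.N0 j).ne'
    rw [h.ip_GC j hk.l2, ip_lap hn hk]
    by_cases h2 : k = j + 1
    · subst h2
      have ez : ip (P (j + 1)) (P (j + 1)) = Nn P (j + 1) := rfl
      have e2 : Dir (P (j + 1)) (P (j + 1)) = Dd P (j + 1) := rfl
      rw [ez, e2]
      field_simp
      ring
    · rw [(h.orth (j := j + 1) (k := k) (Ne.symm h2)).1,
        (h.orth (j := j + 1) (k := k) (Ne.symm h2)).2]
      ring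

/-- Near a point off the origin only finitely many fields do not vanish. -/
theorem fin_near (h : ChN P lo hi R) {x : V} (hx : x ≠ 0) :
    ∃ K : ℕ, ∀ᶠ y in 𝓝 x, ∀ n ≥ K, P n y = 0 := by
  have hpos : 0 < ‖x‖ := norm_pos_iff.2 hx
  obtain ⟨K, hK⟩ := (h.lim.eventually (gt_mem_nhds (show 0 < ‖x‖ / 2 by linarith))).exists_forall_of_atTop
  refine ⟨K, ?_⟩
  filter_upwards [nhds_gtn (show ‖x‖ / 2 < ‖x‖ by linarith)] with y hy n hn
  by_contra hcon
  linarith [(h.supp n y hcon).2, hK n hn]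

/-- Beyond a plane only finitely many fields do not vanish. -/
theorem fin_far (h : ChN P lo hi R) {a : ℝ} (ha : 0 < a) :
    ∃ K : ℕ, ∀ x : V, a ≤ ‖x‖ → ∀ n ≥ K, P n x = 0 := by
  obtain ⟨K, hK⟩ := (h.lim.eventually (gt_mem_nhds ha)).exists_forall_of_atTop
  refine ⟨K, fun x hx n hn => ?_⟩
  by_contra hcon
  linarith [(h.supp n x hcon).2, hK n hn]

end ChN

end Pool.Agent.Run7.h407.G.X
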