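import Mathlib
import Pool.Agent.Run7.h407.D.ChainN
import Pool.Agent.Run7.h407.W.Space
import Pool.Agent.Run7.h407.W.Test

/-!
Fields which vanish near the origin.
-/

namespace Pool.Agent.Run7.h407.G.X

open Set Filter Topology MeasureTheory
open scoped ContDiff

/-- Vanishing near the origin. -/
def Aw0 (g : V → V) : Prop := ∃ a > 0, ∀ x, ‖x‖ < a → g x = 0

theorem Aw0.add {g h : V → V} (hg : Aw0 g) (hh : Aw0 h) : Aw0 (fun x => g x + h x) := by
  obtain ⟨a, ha, h1⟩ := hg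
  obtain ⟨b, hb, h2⟩ := hh
  refine ⟨min a b, lt_min ha hb, fun x hx => ?_⟩
  show g x + h x = 0
  rw [h1 x (hx.trans_le (min_le_left _ _)), h2 x (hx.trans_le (min_le_right _ _)), add_zero]

theorem Aw0.sub {g h : V → V} (hg : Aw0 g) (hh : Aw0 h) : Aw0 (fun x => g x - h x) := by
  obtain ⟨a, ha, h1⟩ := hg
  obtain ⟨b, hb, h2⟩ := hh
  refine ⟨min a b, lt_min ha hb, fun x hx => ?_⟩
  show g x - h x = 0
  rw [h1 x (hx.trans_le (min_le_left _ _)), h2 x (hx.trans_le (min_le_right _ _)), sub_zero]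

theorem Aw0.smul {g : V → V} (hg : Aw0 g) (c : ℝ) : Aw0 (fun x => c • g x) := by
  obtain ⟨a, ha, h1⟩ := hg
  refine ⟨a, ha, fun x hx => ?_⟩
  show c • g x = 0
  rw [h1 x hx, smul_zero]

theorem Aw0.adv {g : V → V} (hg : Aw0 g) (h : V → V) : Aw0 (adv g h) := by
  obtain ⟨a, ha, h1⟩ := hg
  refine ⟨a, ha, fun x hx => adv_zero (Or.inl ?_)⟩
  filter_upwards [nhds_ltn hx] with y hy
  exact h1 y hy

theorem Aw0.lap {g : V → V} (hg : Aw0 g) : Aw0 (lap g) := by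
  obtain ⟨a, ha, h1⟩ := hg
  refine ⟨a, ha, fun x hx => lap_zero ?_⟩
  filter_upwards [nhds_ltn hx] with y hy
  exact h1 y hy

end Pool.Agent.Run7.h407.G.X
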