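import Mathlib
import Pool.Agent.Run7.h407.D.ChainN
import Pool.Agent.Run7.h407.G.Test

/-!
Testing the residual.
-/

namespace Pool.Agent.Run7.h407.G.X.ChN

open Set Filter Topology MeasureTheory
open scoped ContDiff

variable {P : ℕ → V → V} {lo hi : ℕ → ℝ} {R : ℝ} {w : ℕ → ℝ}

theorem res_fin (h : ChN P lo hi R) {u : ℝ → V → V} {T' : ℝ} {c : ℕ → ℝ → ℝ}
    (hm : ∀ s ∈ Ico 0 T', Mem P (fun n => c n s) (u s)) {t : ℝ} (ht : t ∈ Ioo 0 T')
    {c' : ℕ → ℝ} (hc : ∀ n, HasDerivAt (c n) (c' n) t) (ν : ℝ) {x : V} (hx : x ≠ 0)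
    (i : Fin 3) :
    HasSum (fun n => Qf P ν (fun k => c k t) c' n x i) (residual ν u t x i) := by
  obtain ⟨K, hK⟩ := h.fin_near hx
  have hph := h.cf
  have hKx : ∀ n ≥ K, ∀ᶠ y in 𝓝 x, P n y = 0 := by
    intro n hn
    filter_upwards [hK] with y hy
    exact hy n hn
  have hQ : ∀ n, n ∉ Finset.range K → Qf P ν (fun k => c k t) c' n x i = 0 := by
    intro n hn
    rw [Finset.mem_range, not_lt] at hn
    have h1 := hKx n hn
    rw [Qf_apply, adv_zero (Or.inl h1), adv_zero (Or.inl h1), adv_zero (Or.inr h1), lap_zero h1,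
      h1.self_of_nhds]
    simp
  have key : residual ν u t x i = ∑ n ∈ Finset.range K, Qf P ν (fun k => c k t) c' n x i := by
    -- representation near `x`
    have hrep : ∀ s ∈ Ico 0 T', ∀ y : V, (∀ n ≥ K, P n y = 0) → ∀ j,
        u s y j = ∑ n ∈ Finset.range K, c n s * P n y j := by
      intro s hs y hy j
      have h1 : HasSum (fun n => c n s • P n y)
          (∑ n ∈ Finset.range K, c n s • P n y) := by
        apply hasSum_sum_of_ne_finset_zero
        intro n hn
        rw [Finset.mem_range, not_lt] at hn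
        rw [hy n hn, smul_zero]
      have h2 := (hm s hs y).unique h1
      rw [h2, Finset.sum_apply]
      rfl
    have htm : t ∈ Ico 0 T' := ⟨ht.1.le, ht.2⟩
    have ez : ∀ j k, ∀ᶠ y in 𝓝 x, pd j (fun z => u t z k) y
        = ∑ n ∈ Finset.range K, c n t * pd j (fun z => P n z k) y := by
      intro j k
      filter_upwards [hK.eventually_nhds] with y hy
      have h1 : (fun z => u t z k) =ᶠ[𝓝 y] fun z => ∑ n ∈ Finset.range K, c n t * P n z k := by
        filter_upwards [hy] with z hz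
        exact hrep t htm z hz k
      rw [pd_congr h1, pd_sum (fun n _ => ((contDiff_const.mul ((hph n).smc k)).differentiable
        (by simp) y : DifferentiableAt ℝ (fun z => c n t * P n z k) y))]
      apply Finset.sum_congr rfl
      intro n _
      exact pd_const_mul _ (((hph n).smc k).diff y) j
    have e2 : ∀ j, pd j (pd j (fun z => u t z i)) x
        = ∑ n ∈ Finset.range K, c n t * pd j (pd j (fun z => P n z i)) x := by
      intro j
      rw [pd_congr (ez j i), pd_sum (fun n _ => ((contDiff_const.mul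
        (((hph n).smc i).pd j)).differentiable (by simp) x :
        DifferentiableAt ℝ (fun z => c n t * pd j (fun z => P n z i) z) x))]
      apply Finset.sum_congr rfl
      intro n _
      exact pd_const_mul _ ((((hph n).smc i).pd j).diff x) j
    have e3 : deriv (fun s => u s x i) t = ∑ n ∈ Finset.range K, c' n * P n x i := by
      have h1 : (fun s => u s x i) =ᶠ[𝓝 t] fun s => ∑ n ∈ Finset.range K, c n s * P n x i := by
        filter_upwards [Ioo_mem_nhds ht.1 ht.2] with s hs
        exact hrep s ⟨hs.1.le, hs.2⟩ x hK.self_of_nhds i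
      rw [h1.deriv_eq]
      exact (HasDerivAt.fun_sum fun n _ => (hc n).mul_const _).deriv
    have e4 : ∑ j, u t x j * pd j (fun y => u t y i) x
        = ∑ a ∈ Finset.range K, ∑ b ∈ Finset.range K,
          c a t * c b t * adv (P a) (P b) x i := by
      have h1 : ∀ j, u t x j * pd j (fun y => u t y i) x
          = ∑ a ∈ Finset.range K, ∑ b ∈ Finset.range K,
            c a t * c b t * (P a x j * pd j (fun z => P b z i) x) := by
        intro j
        rw [hrep t htm x hK.self_of_nhds j, (ez j i).self_of_nhds, Finset.sum_mul_sum]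
        apply Finset.sum_congr rfl
        intro a _
        apply Finset.sum_congr rfl
        intro b _
        ring
      simp_rw [h1]
      rw [Finset.sum_comm]
      apply Finset.sum_congr rfl
      intro a _
      rw [Finset.sum_comm]
      apply Finset.sum_congr rfl
      intro b _
      unfold adv
      rw [Finset.mul_sum]
    have e5 := dbl_sum' (fun a b => c a t * c b t * adv (P a) (P b) x i)
      (by
        intro a b hab
        have h1 : adv (P a) (P b) x = 0 := adv_zero (h.far' hab x)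
        simp only [h1]
        simp) K
      (by
        intro a b hab
        have h1 : adv (P a) (P b) x = 0 := by
          apply adv_zero
          rcases hab with hab | hab
          · exact Or.inl (hKx a hab)
          · exact Or.inr (hKx b hab)
        simp only [h1]
        simp)
    unfold residual
    rw [e3, e4, e5]
    simp_rw [e2, Qf_apply]
    rw [Finset.sum_comm, Finset.mul_sum, ← Finset.sum_add_distrib, ← Finset.sum_sub_distrib]
    apply Finset.sum_congr rfl
    intro n _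
    have e6 : lap (P n) x i = ∑ j, pd j (pd j (fun z => P n z i)) x := rfl
    rw [e6, ← Finset.mul_sum]
    ring
  rw [key]
  exact hasSum_sum_of_ne_finset_zero hQ

theorem adv_ball (h : ChN P lo hi R) {a b : ℕ} {x : V} (hx : adv (P a) (P b) x ≠ 0) :
    ‖x‖ ≤ R := h.ball a x (adv_ne hx)

theorem lap_ball (h : ChN P lo hi R) {a : ℕ} {x : V} (hx : lap (P a) x ≠ 0) :
    ‖x‖ ≤ R := by
  by_contra hcon
  exact hx (lap_zero (closure_ball (h.ball a) (not_le.1 hcon)))

theorem Qf_summ (h : ChN P lo hi R) (hw : Wgt w) (hB : Bds P w) (ν : ℝ) {a a' : ℕ → ℝ}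
    (ha : Rap w a) (ha' : Rap w a') {v : V → V} (hv : L2F v) :
    (∀ n, Integrable (fun x => ∑ i, Qf P ν a a' n x i * v x i) volume) ∧
    Summable (fun n => ∫ x, ‖∑ i, Qf P ν a a' n x i * v x i‖) := by
  obtain ⟨C, hC0, hC⟩ := test_bd hv R
  obtain ⟨s0, p0, n0, m0⟩ := hB.b0
  obtain ⟨s1, p1, n1, m1⟩ := hB.b1
  obtain ⟨s2, p2, n2, m2⟩ := hB.b2
  obtain ⟨s3, p3, n3, m3⟩ := hB.b3
  have r1 : Rap w (fun n => a n ^ 2) := by
    simp_rw [pow_two]
    exact ha.mul hw ha
  have r2 : Rap w (fun n => a n * a (n + 1)) := ha.mul hw (ha.shift hw)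
  have r3 : Rap w (fun n => -(ν * a n)) := by
    have := ha.wmul hw (PB.const (-ν))
    refine (congrArg (Rap w) (funext fun n => ?_)).mp this
    ring
  have hnn : ∀ f : V → ℝ, 0 ≤ ∫ x, ‖f x‖ := fun f => integral_nonneg fun x => norm_nonneg _
  have ssum : ∀ {b s : ℕ → ℝ}, Rap w b → PB w s → (∀ j, 0 ≤ s j) →
      Summable (fun n => |b n| * s n * C) := by
    intro b s hb hs h0
    have := (hb.summ hw hs).mul_right C
    refine (congrArg Summable (funext fun n => ?_)).mp this
    rw [abs_of_nonneg (h0 n)]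
  have cadv : ∀ n, CF (fun x => adv (P n) (P (n + 1)) x + adv (P (n + 1)) (P n) x) := fun n =>
    (adv_CF (h.cf _) (h.cf _)).add (adv_CF (h.cf _) (h.cf _))
  refine sum_four (f0 := fun n x => ∑ i, (a' n • P n x) i * v x i)
    (f1 := fun n x => ∑ i, ((a n ^ 2) • adv (P n) (P n) x) i * v x i)
    (f2 := fun n x => ∑ i, ((a n * a (n + 1)) • (adv (P n) (P (n + 1)) x
      + adv (P (n + 1)) (P n) x)) i * v x i)
    (f3 := fun n x => ∑ i, ((-(ν * a n)) • lap (P n) x) i * v x i)
    (fun n => ipL_int ((h.cf n).smul _).l2 hv)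
    (fun n => ipL_int ((adv_CF (h.cf n) (h.cf n)).smul _).l2 hv)
    (fun n => ipL_int ((cadv n).smul _).l2 hv)
    (fun n => ipL_int ((lap_CF (h.cf n)).smul _).l2 hv) ?_
    (Summable.of_nonneg_of_le (fun n => hnn _)
      (fun n => hC (a' n) (s0 n) (P n) (n0 n) (m0 n) (h.ball n)) (ssum ha' p0 n0))
    (Summable.of_nonneg_of_le (fun n => hnn _)
      (fun n => hC (a n ^ 2) (s1 n) (adv (P n) (P n)) (n1 n) (m1 n) (fun x hx => h.adv_ball hx))
      (ssum r1 p1 n1))
    (Summable.of_nonneg_of_le (fun n => hnn _)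
      (fun n => hC (a n * a (n + 1)) (s2 n)
        (fun x => adv (P n) (P (n + 1)) x + adv (P (n + 1)) (P n) x) (n2 n) (m2 n)
        (fun x hx => by
          by_contra hcon
          apply hx
          have h1 : adv (P n) (P (n + 1)) x = 0 := by
            by_contra h2
            exact hcon (h.adv_ball h2)
          have h3 : adv (P (n + 1)) (P n) x = 0 := by
            by_contra h2
            exact hcon (h.adv_ball h2)
          rw [h1, h3, add_zero]))
      (ssum r2 p2 n2))
    (Summable.of_nonneg_of_le (fun n => hnn _)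
      (fun n => hC (-(ν * a n)) (s3 n) (lap (P n)) (n3 n) (m3 n) (fun x hx => h.lap_ball hx))
      (ssum r3 p3 n3))
  intro n x
  rw [← Finset.sum_add_distrib, ← Finset.sum_add_distrib, ← Finset.sum_add_distrib]
  apply Finset.sum_congr rfl
  intro i _
  rw [Qf_apply]
  simp only [Pi.smul_apply, Pi.add_apply, smul_eq_mul]
  ring

theorem ip_Qf (h : ChN P lo hi R) (ν : ℝ) (a a' : ℕ → ℝ) (n : ℕ) {v : V → V}
    (hv : L2F v) : ∫ x, ∑ i, Qf P ν a a' n x i * v x i
      = a' n * ip (P n) v + a n ^ 2 * ip (adv (P n) (P n)) v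
        + a n * a (n + 1) * (ip (adv (P n) (P (n + 1))) v
          + ip (adv (P (n + 1)) (P n)) v)
        - ν * a n * ip (lap (P n)) v := by
  have h0 := h.cf n
  have h1 := h.cf (n + 1)
  have c1 := adv_CF h0 h0
  have c2 := (adv_CF h0 h1).add (adv_CF h1 h0)
  have c3 := lap_CF h0
  have e : ∫ x, ∑ i, Qf P ν a a' n x i * v x i = ip (fun x => (fun x => (fun x => a' n • P n x
      + (a n ^ 2) • adv (P n) (P n) x) x
      + (a n * a (n + 1)) • (fun x => adv (P n) (P (n + 1)) x
        + adv (P (n + 1)) (P n) x) x) x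
      - (ν * a n) • lap (P n) x) v := rfl
  rw [e, ipL_sub (((h0.smul _).add (c1.smul _)).add (c2.smul _)).l2 (c3.smul _).l2 hv,
    ipL_add ((h0.smul _).add (c1.smul _)).l2 (c2.smul _).l2 hv,
    ipL_add (h0.smul _).l2 (c1.smul _).l2 hv, ip_smul_left, ip_smul_left, ip_smul_left,
    ip_smul_left, ipL_add (adv_CF h0 h1).l2 (adv_CF h1 h0).l2 hv]

theorem ip_growth (h : ChN P lo hi R) {s : ℕ → ℝ} (n0 : ∀ j, 0 ≤ s j) (m0 : ∀ j x, ‖P j x‖ ≤ s j)
    {v : V → V} (hv : L2F v) : ∃ C, 0 ≤ C ∧ ∀ n, |ip (P n) v| ≤ s n * C := by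
  obtain ⟨C, hC0, hC⟩ := test_bd hv R
  refine ⟨C, hC0, fun n => ?_⟩
  have h1 := hC 1 (s n) (P n) (n0 n) (m0 n) (h.ball n)
  rw [abs_one, one_mul] at h1
  refine le_trans ?_ h1
  have e : ip (P n) v = ∫ x, ∑ i, ((1 : ℝ) • P n x) i * v x i := by
    unfold ip
    congr 1
    funext x
    rw [one_smul]
  rw [e, ← Real.norm_eq_abs]
  exact norm_integral_le_integral_norm _

theorem test_zero (h : ChN P lo hi R) (hw : Wgt w) (hB : Bds P w) (hcb : Cb P w)
    {u : ℝ → V → V} {T' : ℝ} {c : ℕ → ℝ → ℝ}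
    (hm : ∀ s ∈ Ico 0 T', Mem P (fun n => c n s) (u s)) {t : ℝ} (ht : t ∈ Ioo 0 T')
    {c' : ℕ → ℝ} (hc : ∀ n, HasDerivAt (c n) (c' n) t) (h0 : c' 0 = 0) (ν : ℝ)
    (hode : Ode P ν (fun n => c n t) c')
    (ha : Rap w (fun n => c n t)) {v : V → V} (hv : Con ν P v) :
    ∫ x, ∑ i, residual ν u t x i * v x i = 0 := by
  have hN : ∀ j, Nn P (j + 1) ≠ 0 := fun j => (h.N0 j).ne'
  have ha' : Rap w c' := rap_prime hw hN hcb ν ha hode h0
  obtain ⟨hi', hs⟩ := Qf_summ h hw hB ν ha ha' hv.l2
  have key := hasSum_integral_of_summable_integral_norm hi' hs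
  have ez : ∫ x, ∑' n, ∑ i, Qf P ν (fun n => c n t) c' n x i * v x i
      = ∫ x, ∑ i, residual ν u t x i * v x i := by
    apply integral_congr_ae
    filter_upwards [compl_mem_ae_iff.2 (measure_singleton (0 : V))] with x hx
    have h1 : HasSum (fun n => ∑ i, Qf P ν (fun n => c n t) c' n x i * v x i)
        (∑ i, residual ν u t x i * v x i) :=
      hasSum_sum fun i _ => (res_fin h hm ht hc ν hx i).mul_right _
    exact h1.tsum_eq
  rw [ez] at key
  set S := ∫ x, ∑ i, residual ν u t x i * v x i with hS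
  set p : ℕ → ℝ := fun n => ip (P n) v with hp
  set a : ℕ → ℝ := fun n => c n t with haa
  set b : ℕ → ℝ := fun j => (Nn P (j + 1))⁻¹ * p (j + 1) * (Cc P j * a j ^ 2
    + Bb P j * (a j * a (j + 1))) + Bb P j / Nn P j * a (j + 1) ^ 2 * p j with hb
  have hterm : ∀ j, ∫ x, ∑ i, Qf P ν a c' (j + 1) x i * v x i = b j - b (j + 1) := by
    intro j
    rw [ip_Qf h ν a c' (j + 1) hv.l2]
    have f1 := hv.ca j
    rw [h.ip_GA j hv.l2] at f1
    have f2 := hv.cb j
    rw [h.ip_GB j hv.l2] at f2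
    have f3 : ν * a (j + 1) * (ip (lap (P (j + 1))) v
        + Dd P (j + 1) / Nn P (j + 1) * ip (P (j + 1)) v) = 0 := by
      by_cases hν : ν = 0
      · rw [hν]
        ring
      · have := hv.cc hν j
        rw [h.ip_GC j hv.l2] at this
        rw [this, mul_zero]
    have f4 := hode j
    have h1 := hN j
    have h2 := hN (j + 1)
    have f5 : c' (j + 1) = (-(ν * Dd P (j + 1) * a (j + 1)) + Cc P j * a j ^ 2
        + Bb P j * (a j * a (j + 1)) - Cc P (j + 1) * (a (j + 1) * a (j + 2))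
        - Bb P (j + 1) * a (j + 2) ^ 2) * (Nn P (j + 1))⁻¹ := by
      rw [← f4]
      field_simp
    have e8 : ∀ k, ip (P k) v = p k := fun k => rfl
    simp only [e8] at f1 f2 f3 ⊢
    have e9 : a (j + 1 + 1) = a (j + 2) := rfl
    have e10 : P (j + 1 + 1) = P (j + 2) := rfl
    rw [e9, e10, f5]
    rw [hb]
    simp only
    have e11 : Nn P (j + 1 + 1) = Nn P (j + 2) := rfl
    have e12 : p (j + 1 + 1) = p (j + 2) := rfl
    rw [e9, e11, e12]
    simp only [div_eq_mul_inv] at f1 f2 f3 ⊢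
    linear_combination a (j + 1) ^ 2 * f1 + a (j + 1) * a (j + 2) * f2 - f3
  have hz : ∫ x, ∑ i, Qf P ν a c' 0 x i * v x i = 0 := by
    have : (fun x => ∑ i, Qf P ν a c' 0 x i * v x i) = fun _ => 0 := by
      funext x
      have hz0 : ∀ᶠ y in 𝓝 x, P 0 y = 0 := Eventually.of_forall h.zero
      simp_rw [Qf_apply]
      rw [adv_zero (Or.inl hz0), adv_zero (Or.inl hz0), adv_zero (Or.inr hz0), lap_zero hz0,
        h.zero]
      simp
    rw [this]
    simp
  have hb00 : b 0 = 0 := by
    rw [hb]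
    simp only
    rw [h.B0, h.C0]
    ring
  have hpart : ∀ M : ℕ, ∑ n ∈ Finset.range (M + 1),
      ∫ x, ∑ i, Qf P ν a c' n x i * v x i = -b M := by
    intro M
    induction M with
    | zero =>
      rw [Finset.sum_range_one, hz, hb00]
      simp
    | succ M ih =>
      rw [Finset.sum_range_succ, ih, hterm]
      ring
  have hb0 : Tendsto b atTop (𝓝 0) := by
    obtain ⟨s, ps, ns, ms⟩ := hB.b0
    obtain ⟨C, hC0, hC⟩ := ip_growth h ns ms hv.l2
    have t1 : PB w (fun j => (Nn P (j + 1))⁻¹ * Cc P j) := (hcb.n.shift hw).mul hw hcb.c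
    have t2 : PB w (fun j => (Nn P (j + 1))⁻¹ * Bb P j) := (hcb.n.shift hw).mul hw hcb.b
    have t3 : PB w (fun j => Bb P j * (Nn P j)⁻¹) := hcb.b.mul hw hcb.n
    have r1 := ((ha.mul hw ha).wmul hw t1).add hw ((ha.mul hw (ha.shift hw)).wmul hw t2)
    have r2 := ((ha.shift hw).mul hw (ha.shift hw)).wmul hw t3
    have s1 := ((r1.summ hw (ps.shift hw)).tendsto_atTop_zero).mul_const C
    have s2 := ((r2.summ hw ps).tendsto_atTop_zero).mul_const C
    have s3 := s1.add s2
    simp only [zero_mul, add_zero] at s3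
    apply squeeze_zero_norm _ s3
    intro n
    have h1 := hC n
    have h2 := hC (n + 1)
    rw [Real.norm_eq_abs]
    have e : b n = ((Nn P (n + 1))⁻¹ * Cc P n * (a n * a n)
        + (Nn P (n + 1))⁻¹ * Bb P n * (a n * a (n + 1))) * p (n + 1)
        + (Bb P n * (Nn P n)⁻¹ * (a (n + 1) * a (n + 1))) * p n := by
      rw [hb]
      simp only [div_eq_mul_inv]
      ring
    rw [e]
    refine (abs_add_le _ _).trans (add_le_add ?_ ?_)
    · rw [abs_mul]
      refine (mul_le_mul_of_nonneg_left h2 (abs_nonneg _)).trans (le_of_eq ?_)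
      rw [abs_of_nonneg (ns (n + 1))]
      ring
    · rw [abs_mul]
      refine (mul_le_mul_of_nonneg_left h1 (abs_nonneg _)).trans (le_of_eq ?_)
      rw [abs_of_nonneg (ns n)]
      ring
  have key3 := (key.tendsto_sum_nat).comp (tendsto_add_atTop_nat 1)
  have key4 : Tendsto (fun M : ℕ => -b M) atTop (𝓝 (-0)) := hb0.neg
  have e2 : ((fun n => ∑ i ∈ Finset.range n,
      ∫ x, ∑ i_1, Qf P ν a c' i x i_1 * v x i_1) ∘ fun a => a + 1)
      = fun M => -b M := funext hpart
  rw [e2] at key3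
  have h5 := tendsto_nhds_unique key3 key4
  rw [neg_zero] at h5
  exact h5

end Pool.Agent.Run7.h407.G.X.ChN
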