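import Mathlib
import Pool.Agent.Run7.h407.D.TestN
import Pool.Agent.Run7.h407.D.AwN
import Pool.Agent.Run7.h407.G.Spc

/-!
The spaces between the span of the modes and the space given by the constraints.
-/

namespace Pool.Agent.Run7.h407.G.X.ChN

open Set Filter Topology MeasureTheory
open scoped ContDiff

variable {P : ℕ → V → V} {lo hi : ℕ → ℝ} {R : ℝ}

theorem mem_rep (h : ChN P lo hi R) {c : ℕ → ℝ} {v : V → V} (hm : Mem P c v)
    {x : V} (hx : x ≠ 0) : ∃ K : ℕ, ∀ᶠ y in 𝓝 x, v y = ∑ n ∈ Finset.range K, c n • P n y := by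
  obtain ⟨K, hK⟩ := h.fin_near hx
  refine ⟨K, ?_⟩
  filter_upwards [hK] with y hy
  have h1 : HasSum (fun n => c n • P n y) (∑ n ∈ Finset.range K, c n • P n y) := by
    apply hasSum_sum_of_ne_finset_zero
    intro n hn
    rw [Finset.mem_range, not_lt] at hn
    rw [hy n hn, smul_zero]
  exact (hm y).unique h1

theorem mem_local (h : ChN P lo hi R) {c : ℕ → ℝ} {v : V → V} (hm : Mem P c v)
    {x : V} (hx : x ≠ 0) : dvg v x = 0 := by
  obtain ⟨K, hK⟩ := mem_rep h hm hx
  rw [dvg_congr hK, dvg_sum h.cf]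
  apply Finset.sum_eq_zero
  intro n _
  rw [h.dv, mul_zero]

theorem mem_dvg (h : ChN P lo hi R) {c : ℕ → ℝ} {v : V → V} (hm : Mem P c v)
    (hv : ContDiff ℝ ∞ v) (x : V) : dvg v x = 0 := by
  by_cases hx : x = 0
  · have hc : Continuous (dvg v) := by
      unfold dvg
      apply continuous_finsetSum
      intro i _
      exact ((sm_comp hv i).pd i).continuous
    have hl : Continuous (fun t : ℝ => x + t • (Pi.single 2 1 : V)) := by fun_prop
    have h1 : Tendsto (fun t : ℝ => dvg v (x + t • (Pi.single 2 1 : V))) (𝓝[≠] 0)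
        (𝓝 (dvg v (x + (0 : ℝ) • (Pi.single 2 1 : V)))) :=
      ((hc.comp hl).tendsto 0).mono_left nhdsWithin_le_nhds
    have h2 : Tendsto (fun t : ℝ => dvg v (x + t • (Pi.single 2 1 : V))) (𝓝[≠] 0) (𝓝 0) := by
      apply tendsto_const_nhds.congr'
      filter_upwards [self_mem_nhdsWithin] with t ht
      symm
      apply mem_local h hm
      intro hcon
      have h5 := congrFun hcon 2
      rw [hx] at h5
      simp only [Pi.add_apply, Pi.smul_apply, Pi.single_eq_same, smul_eq_mul, mul_one,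
        Pi.zero_apply, zero_add] at h5
      exact ht h5
    have h3 := tendsto_nhds_unique h1 h2
    simpa using h3
  · exact mem_local h hm hx

/-- Superpositions of the fields are orthogonal to `g` if the fields are. -/
theorem mem_orth (h : ChN P lo hi R) {c : ℕ → ℝ} {v : V → V} (hm : Mem P c v)
    {g : V → V} (hg : CF g) (ha : Aw0 g) (hk : ∀ k, ip (P k) g = 0) : ip v g = 0 := by
  obtain ⟨a, ha0, ha⟩ := ha
  obtain ⟨K, hK⟩ := h.fin_far ha0
  have e : ∀ x, ∑ i, v x i * g x i
      = ∑ k ∈ Finset.range K, c k * ∑ i, P k x i * g x i := by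
    intro x
    rcases lt_or_ge (‖x‖) a with hx | hx
    · rw [ha x hx]
      simp
    · have h1 : HasSum (fun n => c n • P n x)
          (∑ n ∈ Finset.range K, c n • P n x) := by
        apply hasSum_sum_of_ne_finset_zero
        intro n hn
        rw [Finset.mem_range, not_lt] at hn
        rw [hK x hx n hn, smul_zero]
      have h2 := (hm x).unique h1
      rw [h2]
      simp_rw [Finset.mul_sum]
      rw [Finset.sum_comm]
      apply Finset.sum_congr rfl
      intro i _
      rw [Finset.sum_apply, Finset.sum_mul]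
      apply Finset.sum_congr rfl
      intro k _
      simp only [Pi.smul_apply, smul_eq_mul]
      ring
  unfold ip
  simp_rw [e]
  rw [integral_finsetSum _ fun k _ => (ip_int (h.cf k).sm.continuous hg).const_mul _]
  apply Finset.sum_eq_zero
  intro k _
  rw [integral_const_mul]
  have := hk k
  unfold ip at this
  rw [this, mul_zero]

/-- The fields of the chain vanish near the origin. -/
theorem aw (h : ChN P lo hi R) (j : ℕ) : Aw0 (P j) := by
  refine ⟨lo j, h.lo0 j, fun x hx => ?_⟩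
  by_contra hcon
  linarith [(h.supp j x hcon).1]

theorem aw_A (h : ChN P lo hi R) (j : ℕ) : Aw0 (GA P j) :=
  ((h.aw (j + 1)).adv _).add (((h.aw (j + 2)).smul _).sub ((h.aw j).smul _))

theorem aw_B (h : ChN P lo hi R) (j : ℕ) : Aw0 (GB P j) :=
  (((h.aw (j + 1)).adv _).add ((h.aw (j + 2)).adv _)).add
    (((h.aw (j + 2)).smul _).sub ((h.aw (j + 1)).smul _))

theorem aw_C (h : ChN P lo hi R) (j : ℕ) : Aw0 (GC P j) :=
  (h.aw (j + 1)).lap.add ((h.aw (j + 1)).smul _)

theorem G3_CF (h : ChN P lo hi R) (n : ℕ) (i : Fin 3) : CF (G3 P n i) := by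
  fin_cases i
  · exact h.GA_CF n
  · exact h.GB_CF n
  · exact h.GC_CF n

theorem G3_aw (h : ChN P lo hi R) (n : ℕ) (i : Fin 3) : Aw0 (G3 P n i) := by
  fin_cases i
  · exact h.aw_A n
  · exact h.aw_B n
  · exact h.aw_C n

theorem WmaxG_isSp (h : ChN P lo hi R) (hG : ∀ n i, L2F (G3 P n i)) :
    IsSpG (fun n => P (n + 1)) (G3 P) (WmaxG (G3 P) hG) := by
  refine ⟨fun w hw => hw.1, fun w hw => hw.2.1, fun w hw => hw.2.2, ?_⟩
  rintro v hv hvc ⟨c, hm⟩
  have hm' := mem_of_shift h.zero hm
  have hC : CF v := ⟨hv, hvc⟩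
  refine ⟨hC.l2, wdf_of_dvg hv (mem_dvg h hm' hv), fun n i => ?_⟩
  apply mem_orth h hm' (G3_CF h n i) (G3_aw h n i)
  intro k
  have hk := h.con (1 : ℝ) k
  rw [ip_comm]
  fin_cases i
  · exact hk.ca n
  · exact hk.cb n
  · exact hk.cc one_ne_zero n

end Pool.Agent.Run7.h407.G.X.ChN
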