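import Mathlib
import Pool.Agent.Run7.h407.D.SpcN

/-!
A chain whose first field is a given datum `U`; the second field consists of a perturbation `T`
which is amplified by `U` and of the first field of the chain on the axis.
-/

namespace Pool.Agent.Run7.h407.G.X

open Set Filter Topology MeasureTheory
open scoped ContDiff

/-- Near every point `c` vanishes or `f` and `g` coincide. -/
def Loc (c f g : V → V) : Prop := ∀ x, (∀ᶠ y in 𝓝 x, c y = 0) ∨ ∀ᶠ y in 𝓝 x, f y = g y

theorem pd_ev_zero {f : V → V} {x : V} (hf : ∀ᶠ y in 𝓝 x, f y = 0) (i j : Fin 3) :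
    pd j (fun y => f y i) x = 0 := by
  have : (fun y => f y i) =ᶠ[𝓝 x] fun _ => (0 : ℝ) := by
    filter_upwards [hf] with y hy
    rw [hy]
    rfl
  rw [pd_congr this, pd_const]

theorem pd_ev_eq {f g : V → V} {x : V} (hf : ∀ᶠ y in 𝓝 x, f y = g y) (i j : Fin 3) :
    pd j (fun y => f y i) x = pd j (fun y => g y i) x := by
  apply pd_congr
  filter_upwards [hf] with y hy
  rw [hy]

theorem ip_loc {c f g : V → V} (h : Loc c f g) : ip f c = ip g c := by
  unfold ip
  congr 1
  funext x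
  rcases h x with h | h
  · rw [h.self_of_nhds]
    simp
  · rw [h.self_of_nhds]

theorem Dir_loc {c f g : V → V} (h : Loc c f g) : Dir f c = Dir g c := by
  unfold Dir
  congr 1
  funext x
  rcases h x with h | h
  · simp_rw [pd_ev_zero h]
    simp
  · simp_rw [pd_ev_eq h]

theorem tri_loc2 (a : V → V) {c f g : V → V} (h : Loc c f g) : tri a f c = tri a g c := by
  unfold tri
  congr 1
  funext x
  rcases h x with h | h
  · rw [h.self_of_nhds]
    simp
  · simp_rw [pd_ev_eq h]

theorem tri_loc1 (a : V → V) {c f g : V → V} (h : Loc c f g) : tri f a c = tri g a c := by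
  unfold tri
  congr 1
  funext x
  rcases h x with h | h
  · rw [h.self_of_nhds]
    simp
  · rw [h.self_of_nhds]

theorem tri_loc13 {b f g : V → V} (h : Loc b f g) : tri f b f = tri g b g := by
  unfold tri
  congr 1
  funext x
  rcases h x with h | h
  · simp_rw [pd_ev_zero h]
    simp
  · rw [h.self_of_nhds]

theorem tri_loc3 (a : V → V) {b f g : V → V} (h : Loc b f g) : tri a b f = tri a b g := by
  unfold tri
  congr 1
  funext x
  rcases h x with h | h
  · simp_rw [pd_ev_zero h]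
    simp
  · rw [h.self_of_nhds]

/-- A datum `U` together with a perturbation `T` which it amplifies. -/
structure Dat (U T : V → V) (l R1 : ℝ) : Prop where
  l0 : 0 < l
  cu : CF U
  du : ∀ x, dvg U x = 0
  ct : CF T
  dt : ∀ x, dvg T x = 0
  su : ∀ x, U x ≠ 0 → l ≤ ‖x‖ ∧ ‖x‖ ≤ R1
  st : ∀ x, T x ≠ 0 → l ≤ ‖x‖ ∧ ‖x‖ ≤ R1
  n0 : 0 < ip U U
  iut : ip U T = 0
  dut : Dir U T = 0

variable {U T : V → V} {l R1 : ℝ}

theorem Dat.R0 (h : Dat U T l R1) : 0 < R1 := by
  by_contra hcon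
  push Not at hcon
  have h1 := h.n0
  have h2 : ip U U = 0 := by
    apply ip_zero_of'
    intro x
    left
    by_contra hx
    have h3 := h.su x hx
    linarith [h.l0, h3.1, h3.2]
  linarith

namespace Sc

variable (c : Sc)

/-- The chain with first field `U`. -/
noncomputable def Q (U T : V → V) : ℕ → V → V
  | 0 => fun _ => 0
  | 1 => U
  | 2 => fun x => T x + c.P 1 x
  | n + 3 => c.P (n + 2)

variable {c}

theorem P1_supp {x : V} (hx : c.P 1 x ≠ 0) : c.σ 0 ^ 2 * x 2 ≤ 17 / 4 ∧ c.σ 0 ^ 2 * ‖x‖ ≤ 17 / 4 := by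
  have h := c.blk_supp (n := 0) hx
  have e : c.rr 0 = 2 := rfl
  rw [e] at h
  constructor
  · linarith [h.2.1]
  · linarith [h.2.2]

theorem P2_supp {x : V} (hx : c.P 2 x ≠ 0) : c.σ 0 ^ 2 * ‖x‖ ≤ 17 / 16 := by
  have h := (c.supp_ball hx).trans (c.hi_le 0)
  have h1 := c.σ_pos 0
  rw [le_div_iff₀ (by positivity)] at h
  linarith

theorem locU (hd : Dat U T l R1) (hl : 17 / 4 < c.σ 0 ^ 2 * l) : Loc U (c.Q U T 2) T := by
  have h1 := c.σ_pos 0
  intro x
  rcases lt_or_ge (‖x‖) l with hx | hx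
  · left
    filter_upwards [nhds_ltn hx] with y hy
    by_contra hcon
    linarith [(hd.su y hcon).1]
  · right
    have h2 : 17 / 4 / c.σ 0 ^ 2 < ‖x‖ := by
      rw [div_lt_iff₀ (by positivity)]
      nlinarith [pow_pos h1 2]
    filter_upwards [nhds_gtn h2] with y hy
    have h3 : c.P 1 y = 0 := by
      by_contra hcon
      rw [div_lt_iff₀ (by positivity)] at hy
      linarith [(P1_supp hcon).2]
    show T y + c.P 1 y = T y
    rw [h3, add_zero]

theorem loc2 (hd : Dat U T l R1) (hl : 17 / 4 < c.σ 0 ^ 2 * l) :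
    Loc (c.P 2) (c.Q U T 2) (c.P 1) := by
  have h1 := c.σ_pos 0
  intro x
  rcases lt_or_ge (‖x‖) l with hx | hx
  · right
    filter_upwards [nhds_ltn hx] with y hy
    have h3 : T y = 0 := by
      by_contra hcon
      linarith [(hd.st y hcon).1]
    show T y + c.P 1 y = c.P 1 y
    rw [h3, zero_add]
  · left
    have h2 : 17 / 16 / c.σ 0 ^ 2 < ‖x‖ := by
      rw [div_lt_iff₀ (by positivity)]
      nlinarith [pow_pos h1 2]
    filter_upwards [nhds_gtn h2] with y hy
    by_contra hcon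
    rw [div_lt_iff₀ (by positivity)] at hy
    linarith [P2_supp hcon]

theorem disjT (hd : Dat U T l R1) (hl : 17 / 4 < c.σ 0 ^ 2 * l) (x : V) :
    (∀ᶠ y in 𝓝 x, T y = 0) ∨ ∀ᶠ y in 𝓝 x, c.P 1 y = 0 := by
  have h1 := c.σ_pos 0
  rcases lt_or_ge (‖x‖) l with hx | hx
  · left
    filter_upwards [nhds_ltn hx] with y hy
    by_contra hcon
    linarith [(hd.st y hcon).1]
  · right
    have h2 : 17 / 4 / c.σ 0 ^ 2 < ‖x‖ := by
      rw [div_lt_iff₀ (by positivity)]
      nlinarith [pow_pos h1 2]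
    filter_upwards [nhds_gtn h2] with y hy
    by_contra hcon
    rw [div_lt_iff₀ (by positivity)] at hy
    linarith [(P1_supp hcon).2]

theorem Q2_CF (hd : Dat U T l R1) : CF (c.Q U T 2) := hd.ct.add (c.chn.cf 1)

/-- The left ends of the supports. -/
noncomputable def lo' (c : Sc) (l R1 : ℝ) : ℕ → ℝ
  | 0 => R1 + 20
  | 1 => l
  | n + 2 => c.lo (n + 1)

/-- The right ends of the supports. -/
noncomputable def hi' (c : Sc) (R1 : ℝ) : ℕ → ℝ
  | 0 => 0
  | 1 => R1
  | 2 => max R1 (c.hi 1)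
  | n + 3 => c.hi (n + 2)

theorem chnQ (hd : Dat U T l R1) (hl : 17 / 4 < c.σ 0 ^ 2 * l) :
    ChN (c.Q U T) (c.lo' l R1) (c.hi' R1) (max R1 (17 / 4)) where
  zero := fun _ => rfl
  cf := by
    intro j
    match j with
    | 0 => exact c.chn.cf 0
    | 1 => exact hd.cu
    | 2 => exact Q2_CF hd
    | n + 3 => exact c.chn.cf (n + 2)
  dv := by
    intro j x
    match j with
    | 0 => exact c.chn.dv 0 x
    | 1 => exact hd.du x
    | 2 =>
      have h1 := dvg_add hd.ct (c.chn.cf 1) x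
      have h2 : dvg (c.Q U T 2) x = _ := h1
      rw [h2, hd.dt, c.chn.dv, add_zero]
    | n + 3 => exact c.chn.dv (n + 2) x
  supp := by
    intro j x hx
    have key : ∀ n, c.P n x ≠ 0 → c.lo n ≤ ‖x‖ ∧ ‖x‖ ≤ c.hi n := by
      intro n hn
      have h4 : x 2 ≤ ‖x‖ := (le_abs_self _).trans (by
        rw [← Real.norm_eq_abs]
        exact norm_le_pi_norm x 2)
      exact ⟨(c.chn.supp n x hn).1.trans h4, c.supp_ball hn⟩
    match j with
    | 0 => exact absurd rfl hx
    | 1 => exact hd.su x hx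
    | 2 =>
      by_cases hT : T x = 0
      · have hP : c.P 1 x ≠ 0 := by
          intro h
          apply hx
          show T x + c.P 1 x = 0
          rw [hT, h, add_zero]
        have h := key 1 hP
        exact ⟨h.1, h.2.trans (le_max_right _ _)⟩
      · have h := hd.st x hT
        refine ⟨?_, h.2.trans (le_max_left _ _)⟩
        have h1 := c.σ_pos 0
        have h5 : c.lo 1 ≤ l := by
          show 3 / 4 / c.σ 0 ^ 2 ≤ l
          rw [div_le_iff₀ (by positivity)]
          linarith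
        exact h5.trans h.1
    | n + 3 => exact key (n + 2) hx
  lo0 := by
    intro j
    match j with
    | 0 =>
      have := hd.R0
      show 0 < R1 + 20
      linarith
    | 1 => exact hd.l0
    | n + 2 => exact c.chn.lo0 (n + 1)
  sep := by
    intro j k hjk
    have hR := hd.R0
    match j, k, hjk with
    | 0, 2, _ =>
      show max R1 (c.hi 1) < R1 + 20
      apply max_lt
      · linarith
      · linarith [c.hi_bd 1]
    | 0, k + 3, _ =>
      show c.hi (k + 2) < R1 + 20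
      linarith [c.hi_bd (k + 2)]
    | 1, k + 3, _ =>
      show c.hi (k + 2) < l
      refine (c.hi_le k).trans_lt ?_
      have h1 := c.σ_pos k
      have h2 := c.σ_pos 0
      have h3 : c.σ 0 ^ 2 ≤ c.σ k ^ 2 := pow_le_pow_left₀ h2.le (c.σ_mono (Nat.zero_le k)) 2
      rw [div_lt_iff₀ (by positivity)]
      nlinarith [hd.l0]
    | j + 2, k + 3, h => exact c.chn.sep (j + 1) (k + 2) (by omega)
  lim := by
    rw [← tendsto_add_atTop_iff_nat 3]
    exact (tendsto_add_atTop_iff_nat 2).2 c.chn.lim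
  N0 := by
    intro j
    match j with
    | 0 => exact hd.n0
    | 1 =>
      have h1 : ip (c.Q U T 2) (c.Q U T 2) = ip T T + 2 * ip T (c.P 1) + ip (c.P 1) (c.P 1) :=
        ip_add_self hd.ct (c.chn.cf 1)
      have h2 : ip T (c.P 1) = 0 := ip_zero_of' fun x => (disjT hd hl x).imp
        (fun h => h.self_of_nhds) (fun h => h.self_of_nhds)
      have h3 := ip_nonneg T
      have h4 := c.chn.N0 0
      show 0 < ip (c.Q U T 2) (c.Q U T 2)
      rw [h1, h2]
      simp only [zero_add] at h4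
      linarith
    | n + 2 => exact c.chn.N0 (n + 1)
  ip1 := by
    intro j
    match j with
    | 0 => exact ip_zero_of' fun x => Or.inl rfl
    | 1 =>
      show ip U (c.Q U T 2) = 0
      rw [ip_comm, ip_loc (locU hd hl), ip_comm]
      exact hd.iut
    | 2 =>
      show ip (c.Q U T 2) (c.P 2) = 0
      rw [ip_loc (loc2 hd hl)]
      exact c.chn.ip1 1
    | n + 3 => exact c.chn.ip1 (n + 2)
  Dir1 := by
    intro j
    match j with
    | 0 => exact Dir_zero_of fun x => Or.inl (Eventually.of_forall fun y => rfl)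
    | 1 =>
      show Dir U (c.Q U T 2) = 0
      rw [Dir_comm, Dir_loc (locU hd hl), Dir_comm]
      exact hd.dut
    | 2 =>
      show Dir (c.Q U T 2) (c.P 2) = 0
      rw [Dir_loc (loc2 hd hl)]
      exact c.chn.Dir1 1
    | n + 3 => exact c.chn.Dir1 (n + 2)
  ball := by
    intro j x hx
    match j with
    | 0 => exact absurd rfl hx
    | 1 => exact (hd.su x hx).2.trans (le_max_left _ _)
    | 2 =>
      by_cases hT : T x = 0
      · have hP : c.P 1 x ≠ 0 := by
          intro h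
          apply hx
          show T x + c.P 1 x = 0
          rw [hT, h, add_zero]
        exact (c.chn.ball 1 x hP).trans (le_max_right _ _)
      · exact (hd.st x hT).2.trans (le_max_left _ _)
    | n + 3 => exact (c.chn.ball (n + 2) x hx).trans (le_max_right _ _)

section

variable (hd : Dat U T l R1) (hl : 17 / 4 < c.σ 0 ^ 2 * l)

theorem nQ1 : Nn (c.Q U T) 1 = ip U U := rfl

theorem dQ1 : Dd (c.Q U T) 1 = Dir U U := rfl

include hd hl in
theorem nQ2 : Nn (c.Q U T) 2 = ip T T + Nn c.P 1 := by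
  have h1 : ip (c.Q U T 2) (c.Q U T 2) = ip T T + 2 * ip T (c.P 1) + ip (c.P 1) (c.P 1) :=
    ip_add_self hd.ct (c.chn.cf 1)
  have h2 : ip T (c.P 1) = 0 := ip_zero_of' fun x => (disjT hd hl x).imp
    (fun h => h.self_of_nhds) (fun h => h.self_of_nhds)
  rw [h2] at h1
  show ip (c.Q U T 2) (c.Q U T 2) = ip T T + ip (c.P 1) (c.P 1)
  linarith

include hd hl in
theorem dQ2 : Dd (c.Q U T) 2 = Dir T T + Dd c.P 1 := by
  have h1 : Dir (c.Q U T 2) (c.Q U T 2) = Dir T T + 2 * Dir T (c.P 1) + Dir (c.P 1) (c.P 1) :=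
    Dir_add_self hd.ct (c.chn.cf 1)
  rw [Dir_zero_of (disjT hd hl)] at h1
  show Dir (c.Q U T 2) (c.Q U T 2) = Dir T T + Dir (c.P 1) (c.P 1)
  linarith

theorem nQ3 (n : ℕ) : Nn (c.Q U T) (n + 3) = Nn c.P (n + 2) := rfl

theorem dQ3 (n : ℕ) : Dd (c.Q U T) (n + 3) = Dd c.P (n + 2) := rfl

include hd hl in
theorem bQ1 : Bb (c.Q U T) 1 = -tri T U T := by
  show -tri (c.Q U T 2) U (c.Q U T 2) = _
  rw [tri_loc13 (locU hd hl)]

include hd hl in
theorem cQ1 : Cc (c.Q U T) 1 = -tri U U T := by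
  show -tri U U (c.Q U T 2) = _
  rw [tri_loc3 U (locU hd hl)]

include hd hl in
theorem bQ2 : Bb (c.Q U T) 2 = c.σ 0 ^ 5 * β0 := by
  have h := c.bb_eq 0
  show -tri (c.P 2) (c.Q U T 2) (c.P 2) = _
  rw [tri_loc2 _ (loc2 hd hl)]
  exact h

include hd hl in
theorem cQ2 : Cc (c.Q U T) 2 = c.σ 0 ^ 5 * (c.ε 0 * β0) := by
  have h := c.cc_eq 0
  show -tri (c.Q U T 2) (c.Q U T 2) (c.P 2) = _
  rw [tri_loc2 _ (loc2 hd hl), tri_loc1 _ (loc2 hd hl)]
  exact h

theorem bQ3 (n : ℕ) : Bb (c.Q U T) (n + 3) = c.σ (n + 1) ^ 5 * β0 := c.bb_eq (n + 1)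

theorem cQ3 (n : ℕ) : Cc (c.Q U T) (n + 3) = c.σ (n + 1) ^ 5 * (c.ε (n + 1) * β0) :=
  c.cc_eq (n + 1)

end

end Sc

end Pool.Agent.Run7.h407.G.X
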