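import Mathlib
import Pool.Agent.Run7.h407.D.Chn
import Pool.Agent.Run7.h407.D.Blob

/-!
Coefficients for general chains, and the bounds for the chain with first field `U`.
-/

namespace Pool.Agent.Run7.h407.G.X

open Set Filter Topology MeasureTheory
open scoped ContDiff

variable {P : ℕ → V → V} {lo hi : ℕ → ℝ} {R : ℝ}

/-- The normalisations. -/
noncomputable def kapG (P : ℕ → V → V) : ℕ → ℝ
  | 0 => 0
  | n + 1 => Nn P (n + 2) / Bb P (n + 1)

/-- The parameters fit the chain. -/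
structure FitG (P : ℕ → V → V) (ν : ℝ) (p : Par) : Prop where
  bp : ∀ n, 0 < Bb P (n + 1)
  e : ∀ n, p.e (n + 1) = Cc P (n + 1) * Nn P (n + 2) * Bb P (n + 2)
    / (Bb P (n + 1) ^ 2 * Nn P (n + 3))
  g : ∀ n, p.g n = Bb P (n + 1) ^ 2 * Nn P (n + 3) ^ 2
    / (Nn P (n + 1) * Nn P (n + 2) * Bb P (n + 2) ^ 2)
  d : ∀ n, p.d n = ν * Dd P (n + 1) / Nn P (n + 1)

/-- The coefficients. -/
noncomputable def cofG (P : ℕ → V → V) (A : ℕ → ℝ → ℝ) (j : ℕ) (t : ℝ) : ℝ := kapG P j * A j t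

/-- The time derivatives of the coefficients. -/
noncomputable def cofdG (P : ℕ → V → V) (p : Par) (A : ℕ → ℝ → ℝ) (t : ℝ) : ℕ → ℝ
  | 0 => 0
  | n + 1 => kapG P (n + 1) * rhs p A n t

theorem FitG.ode (hc : ChN P lo hi R) {ν : ℝ} {p : Par} (h : FitG P ν p) {A : ℕ → ℝ → ℝ} {t : ℝ}
    (h0 : A 0 t = 0) : Ode P ν (fun j => cofG P A j t) (cofdG P p A t) := by
  intro j
  cases j with
  | zero =>
    rw [hc.B0, hc.C0, show (0 : ℕ) + 1 = 1 from rfl, show (0 : ℕ) + 2 = 1 + 1 from rfl]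
    show Nn P 1 * (kapG P 1 * rhs p A 0 t) = _
    have b1 := h.bp 0
    have b2 := h.bp 1
    have e1 := h.e 0
    have e2 := h.g 0
    have e3 := h.d 0
    have n1 : 0 < Nn P (0 + 1) := hc.N0 0
    have n2 : 0 < Nn P (1 + 1) := hc.N0 1
    have n3 : 0 < Nn P (2 + 1) := hc.N0 2
    simp only [zero_add] at b1 e1 e2 e3 n1
    rw [show (1 : ℕ) + 1 = 2 from rfl] at *
    rw [show (2 : ℕ) + 1 = 3 from rfl] at n3
    unfold cofG rhs Par.f
    have k1 : kapG P 1 = Nn P 2 / Bb P 1 := rfl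
    have k2 : kapG P 2 = Nn P 3 / Bb P 2 := rfl
    simp only [zero_add]
    rw [e1, e2, e3, h0, k1, k2]
    field_simp
    ring
  | succ n =>
    show Nn P (n + 2) * (kapG P (n + 2) * rhs p A (n + 1) t)
      = -(ν * Dd P (n + 2) * cofG P A (n + 2) t) + Cc P (n + 1) * cofG P A (n + 1) t ^ 2
        + Bb P (n + 1) * (cofG P A (n + 1) t * cofG P A (n + 2) t)
        - Cc P (n + 2) * (cofG P A (n + 2) t * cofG P A (n + 3) t)
        - Bb P (n + 2) * cofG P A (n + 3) t ^ 2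
    have b1 := h.bp n
    have b2 := h.bp (n + 1)
    have b3 := h.bp (n + 2)
    have e0 := h.e n
    have e1 := h.e (n + 1)
    have e2 := h.g (n + 1)
    have e3 := h.d (n + 1)
    have n1 : 0 < Nn P (n + 1 + 1) := hc.N0 (n + 1)
    have n2 : 0 < Nn P (n + 2 + 1) := hc.N0 (n + 2)
    have n3 : 0 < Nn P (n + 3 + 1) := hc.N0 (n + 3)
    rw [show n + 1 + 1 = n + 2 from rfl] at *
    rw [show n + 1 + 2 = n + 3 from rfl] at *
    rw [show n + 1 + 3 = n + 4 from rfl] at *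
    rw [show n + 2 + 1 = n + 3 from rfl] at *
    rw [show n + 3 + 1 = n + 4 from rfl] at *
    unfold cofG rhs Par.f
    rw [show n + 1 + 1 = n + 2 from rfl, show n + 1 + 2 = n + 3 from rfl]
    have k1 : kapG P (n + 1) = Nn P (n + 2) / Bb P (n + 1) := rfl
    have k2 : kapG P (n + 2) = Nn P (n + 3) / Bb P (n + 2) := rfl
    have k3 : kapG P (n + 3) = Nn P (n + 4) / Bb P (n + 3) := rfl
    rw [e0, e1, e2, e3, k1, k2, k3]
    field_simp
    ring

theorem cofG_deriv {p : Par} {Tb : ℝ} {A : ℕ → ℝ → ℝ} (S : Sol p Tb A) {t : ℝ}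
    (ht : t ∈ Ioo 0 Tb) (j : ℕ) : HasDerivAt (cofG P A j) (cofdG P p A t j) t := by
  cases j with
  | zero =>
    have : cofG P A 0 = fun _ => 0 := by
      funext s
      show 0 * A 0 s = 0
      ring
    rw [this]
    exact hasDerivAt_const t 0
  | succ n => exact (S.deriv n ht).const_mul _

variable {w : ℕ → ℝ} {M : ℕ}

theorem cofG_ts {p : Par} (hw : PW p w) (hk : PB w (kapG P)) {Tb : ℝ} {A : ℕ → ℝ → ℝ}
    (S : Sol p Tb A) : TS w Tb (cofG P A) := (S.ts hw).smul hw.wg hk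

/-- Everything needed of a chain. -/
structure Good (P : ℕ → V → V) (lo hi : ℕ → ℝ) (R : ℝ) (w : ℕ → ℝ) (M : ℕ) : Prop where
  ch : ChN P lo hi R
  bv : BVn M w P
  cb : Cb P w
  kb : PB w (kapG P)

variable (hg : Good P lo hi R w M)

include hg

/-- The velocity field. -/
theorem Good.mem {p : Par} (hw : PW p w) {Tb : ℝ} {A : ℕ → ℝ → ℝ} (S : Sol p Tb A) {t : ℝ}
    (ht : t ∈ Ico 0 Tb) : Mem P (fun n => cofG P A n t) (vel P (cofG P A) t) :=
  vel_memn hw.wg hg.bv (cofG_ts hw hg.kb S) ht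

theorem Good.TF {p : Par} (hw : PW p w) {Tb : ℝ} {A : ℕ → ℝ → ℝ} (S : Sol p Tb A) :
    TF Tb R (vel P (cofG P A)) := by
  refine ⟨vel_smoothn hw.wg hg.bv (cofG_ts hw hg.kb S), fun t ht x hx => ?_⟩
  exact mem_ball hg.ch.ball (hg.mem hw S ht) hx

/-- The velocity field satisfies the equations tested with constrained fields. -/
theorem Good.test {ν : ℝ} {p : Par} (hf : FitG P ν p) (hw : PW p w) {Tb : ℝ} {A : ℕ → ℝ → ℝ}
    (S : Sol p Tb A) {t : ℝ} (ht : t ∈ Ioo 0 Tb) {v : V → V} (hv : Con ν P v) :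
    ∫ x, ∑ i, residual ν (vel P (cofG P A)) t x i * v x i = 0 :=
  ChN.test_zero hg.ch hw.wg (hg.bv.bds hw.wg) hg.cb
    (fun _ hs => hg.mem hw S hs) ht (cofG_deriv S ht) rfl ν
    (hf.ode hg.ch (S.zero t)) ((cofG_ts hw hg.kb S).rap ⟨ht.1.le, ht.2⟩) hv

/-- The velocity field solves the equations projected on each of the spaces. -/
theorem Good.isProj {ν : ℝ} {p : Par} (hf : FitG P ν p) (hw : PW p w) {Tb : ℝ} {A : ℕ → ℝ → ℝ}
    (S : Sol p Tb A) {W : Submodule ℝ (V → V)} (hW : IsSpG (fun n => P (n + 1)) (G3 P) W) :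
    IsProj W ν Tb (vel P (cofG P A)) := by
  have hT := hg.TF hw S
  refine ⟨hT.cls, fun t ht => ?_, fun t ht w hw' => hg.test hf hw S ht (hW.con hw' ν)⟩
  exact hW.mem _ (hT.slice_CF ht).sm (hT.slice_CF ht).cs
    ⟨_, shift_of_mem hg.ch.zero (hg.mem hw S ht)⟩

/-- Maximality of the velocity field. -/
theorem Good.max {ν : ℝ} {p : Par} (hf : FitG P ν p) (hw : PW p w) {Tb : ℝ} {A : ℕ → ℝ → ℝ}
    (S : Sol p Tb A) (hν : 0 ≤ ν) {W : Submodule ℝ (V → V)}
    (hW : IsSpG (fun n => P (n + 1)) (G3 P) W)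
    (hb : ∀ M, ∀ᶠ t in 𝓝[<] Tb, ∃ x, M < ‖vel P (cofG P A) t x‖)
    {T' : ℝ} {u : ℝ → V → V} (hu : IsProj W ν T' u)
    (h0 : ∀ x, u 0 x = vel P (cofG P A) 0 x) :
    T' ≤ Tb ∧ ∀ t ∈ Ico 0 T', u t = vel P (cofG P A) t := by
  have hT := hg.TF hw S
  have hv := hg.isProj hf hw S hW
  have hle : T' ≤ Tb := by
    by_contra hcon
    push Not at hcon
    have h1 := proj_uniqueG hW hν (hu.restrict hcon.le) hv (fun _ hs => hT.grad_bdd hs) h0
    obtain ⟨C, hC⟩ := hu.cls.bd Tb ⟨S.Tpos.le, hcon⟩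
    obtain ⟨t, ⟨x, hx⟩, ht⟩ := ((hb C).and (Ioo_mem_nhdsLT S.Tpos)).exists
    have h2 := (hC t ⟨ht.1.le, ht.2.le⟩).1 x
    rw [h1 t ⟨ht.1.le, ht.2⟩] at h2
    linarith
  exact ⟨hle, proj_uniqueG hW hν hu (hv.restrict hle)
    (fun s hs => hT.grad_bdd ⟨hs.1, hs.2.trans_le hle⟩) h0⟩

omit hg in
/-- The initial value. -/
theorem velG_init {p : Par} {Tb : ℝ} {A : ℕ → ℝ → ℝ} (S : Sol p Tb A) (x : V) :
    vel P (cofG P A) 0 x = (kapG P 1 * p.a0) • P 1 x := by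
  unfold vel
  rw [tsum_eq_single 1]
  · unfold cofG
    rw [S.init0]
  · intro j hj
    cases j with
    | zero =>
      show (0 * A 0 0) • P 0 x = 0
      rw [zero_mul, zero_smul]
    | succ j =>
      cases j with
      | zero => exact absurd rfl hj
      | succ j =>
        unfold cofG
        rw [show j + 1 + 1 = j + 2 from rfl, S.init1 j, mul_zero, zero_smul]

end Pool.Agent.Run7.h407.G.X
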