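import Mathlib
import Pool.Agent.Run7.h407.D.Fit

/-!
The chain with first field `U` has all the bounds.
-/

namespace Pool.Agent.Run7.h407.G.X

open Set Filter Topology MeasureTheory
open scoped ContDiff

theorem PB_tail {w s : ℕ → ℝ} (hw : Wgt w) (k : ℕ) {C : ℝ} {m : ℕ} (hC : 0 ≤ C)
    (h : ∀ n, |s (n + k)| ≤ C * w (n + k) ^ m) : PB w s := by
  refine ⟨C + ∑ i ∈ Finset.range k, |s i|, m,
    add_nonneg hC (Finset.sum_nonneg fun i _ => abs_nonneg _), fun j => ?_⟩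
  have h1 : 1 ≤ w j ^ m := one_le_pow₀ (hw.one_le j)
  have h0 : 0 ≤ ∑ i ∈ Finset.range k, |s i| := Finset.sum_nonneg fun i _ => abs_nonneg _
  rcases lt_or_ge j k with hj | hj
  · have h2 : |s j| ≤ ∑ i ∈ Finset.range k, |s i| :=
      Finset.single_le_sum (f := fun i => |s i|) (fun i _ => abs_nonneg _)
        (Finset.mem_range.2 hj)
    nlinarith
  · obtain ⟨n, rfl⟩ : ∃ n, j = n + k := ⟨j - k, by omega⟩
    have h2 := h n
    nlinarith

namespace Sc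

variable {c : Sc} {U T : V → V} {l R1 : ℝ}

/-- Sequences shifted twice. -/
def sh2 (f : ℕ → ℝ) : ℕ → ℝ
  | 0 => 0
  | 1 => 0
  | n + 2 => f n

theorem sh2_PB (hw : Wgt c.σ) {f : ℕ → ℝ} {C : ℝ} {m : ℕ} (hC : 0 ≤ C)
    (h : ∀ n, |f n| ≤ C * c.σ (n + 1) ^ m) : PB c.σ (sh2 f) := by
  apply PB_tail hw 2 (C := C) (m := m) hC
  intro n
  show |f n| ≤ C * c.σ (n + 2) ^ m
  refine (h n).trans (mul_le_mul_of_nonneg_left ?_ hC)
  exact pow_le_pow_left₀ (c.σ_pos _).le (c.σ_le _) m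

theorem P_pieces (n : ℕ) (x : V) : c.P (n + 1) x = c.σ n ^ 3 • str Gp (c.σ n ^ 2 • x - ez)
    + (c.σ n ^ 3 * (c.dl n * c.ρ n ^ 5)) • sw (pd 2 chi) ((c.ρ n ^ 2 * c.σ n ^ 2) • x
      - c.ρ n ^ 2 • ez)
    + c.σ n ^ 3 • sw chi (c.σ n ^ 2 • x - c.rr n ^ 2 • ez) := by
  rw [c.P_succ]
  show c.σ n ^ 3 • psi3 (c.rr n) (c.ρ n) (c.dl n) (c.σ n ^ 2 • x) = _
  rw [psi3_pieces, smul_add, smul_add, smul_smul, smul_smul]

theorem bvQ (hw : Wgt c.σ) (hd : Dat U T l R1) : BVn 5 c.σ (c.Q U T) := by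
  have hβ := β0_pos
  have hS := S0_pos
  have k1 : PB c.σ (sh2 (fun n => c.σ n ^ 3)) := sh2_PB hw (C := 1) (m := 3) zero_le_one
    fun n => by
      rw [abs_of_pos (pow_pos (c.σ_pos n) 3), one_mul]
      exact pow_le_pow_left₀ (c.σ_pos n).le (c.σ_le n) 3
  have k2 : PB c.σ (sh2 (fun n => c.σ n ^ 3 * (c.dl n * c.ρ n ^ 5))) := by
    apply sh2_PB hw (C := β0 / S0) (m := 4) (by positivity)
    intro n
    rw [abs_mul, abs_of_pos (pow_pos (c.σ_pos n) 3)]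
    have h2 := c.dl_ρ n
    have h3 := c.ρ_le n
    have h4 := c.σ_le n
    have h5 := c.σ_pos n
    have h6 := c.σ_pos (n + 1)
    calc c.σ n ^ 3 * |c.dl n * c.ρ n ^ 5| ≤ c.σ (n + 1) ^ 3 * (β0 / S0 * c.σ (n + 1)) := by
          apply mul_le_mul
          · exact pow_le_pow_left₀ h5.le h4 3
          · exact h2.trans (mul_le_mul_of_nonneg_left h3 (by positivity))
          · exact abs_nonneg _
          · positivity
      _ = _ := by ring
  have k3 : PB c.σ (sh2 (fun n => c.σ n ^ 2)) := sh2_PB hw (C := 1) (m := 2) zero_le_one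
    fun n => by
      rw [abs_of_pos (pow_pos (c.σ_pos n) 2), one_mul]
      exact pow_le_pow_left₀ (c.σ_pos n).le (c.σ_le n) 2
  have k4 : PB c.σ (sh2 (fun n => c.ρ n ^ 2 * c.σ n ^ 2)) := by
    apply sh2_PB hw (C := 1) (m := 2) zero_le_one
    intro n
    have h5 := c.σ_pos n
    have h6 := c.ρ_pos n
    rw [abs_of_pos (by positivity), c.σ_succ, one_mul]
    apply le_of_eq
    ring
  have k5 : ∀ k : ℕ, PB c.σ (fun j => if j = k then (1 : ℝ) else 0) := fun k =>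
    PB.of_le (C := 1) fun j => by split_ifs <;> simp
  refine ⟨![sh2 (fun n => c.σ n ^ 3), sh2 (fun n => c.σ n ^ 3 * (c.dl n * c.ρ n ^ 5)),
      sh2 (fun n => c.σ n ^ 3), fun j => if j = 1 then 1 else 0, fun j => if j = 2 then 1 else 0],
    ![sh2 (fun n => c.σ n ^ 2), sh2 (fun n => c.ρ n ^ 2 * c.σ n ^ 2), sh2 (fun n => c.σ n ^ 2),
      fun _ => 1, fun _ => 1],
    ![fun _ => ez, fun j => (sh2 (fun n => c.ρ n ^ 2) j) • ez,
      fun j => (sh2 (fun n => c.rr n ^ 2) j) • ez, fun _ => 0, fun _ => 0],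
    ![str Gp, sw (pd 2 chi), sw chi, U, T], ?_, ?_, ?_, ?_⟩
  · intro m
    fin_cases m
    · exact str_CF
    · exact swd_CF
    · exact swc_CF
    · exact hd.cu
    · exact hd.ct
  · intro m
    fin_cases m
    · exact k1
    · exact k2
    · exact k1
    · exact k5 1
    · exact k5 2
  · intro m
    fin_cases m
    · exact k3
    · exact k4
    · exact k3
    · exact PB.const 1
    · exact PB.const 1
  · intro j x
    rw [Fin.sum_univ_five]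
    match j with
    | 0 =>
      show (0 : V) = (0 : ℝ) • _ + (0 : ℝ) • _ + (0 : ℝ) • _ + (0 : ℝ) • _ + (0 : ℝ) • _
      simp
    | 1 =>
      show U x = (0 : ℝ) • _ + (0 : ℝ) • _ + (0 : ℝ) • _ + (1 : ℝ) • U ((1 : ℝ) • x - 0)
        + (0 : ℝ) • _
      simp
    | 2 =>
      show T x + c.P 1 x = c.σ 0 ^ 3 • str Gp (c.σ 0 ^ 2 • x - ez)
        + (c.σ 0 ^ 3 * (c.dl 0 * c.ρ 0 ^ 5)) • sw (pd 2 chi) ((c.ρ 0 ^ 2 * c.σ 0 ^ 2) • x
          - c.ρ 0 ^ 2 • ez)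
        + c.σ 0 ^ 3 • sw chi (c.σ 0 ^ 2 • x - c.rr 0 ^ 2 • ez)
        + (0 : ℝ) • U ((1 : ℝ) • x - 0) + (1 : ℝ) • T ((1 : ℝ) • x - 0)
      rw [P_pieces 0 x]
      simp only [zero_smul, one_smul, sub_zero, add_zero]
      rw [add_comm (T x)]
    | n + 3 =>
      show c.P (n + 2) x = c.σ (n + 1) ^ 3 • str Gp (c.σ (n + 1) ^ 2 • x - ez)
        + (c.σ (n + 1) ^ 3 * (c.dl (n + 1) * c.ρ (n + 1) ^ 5))
          • sw (pd 2 chi) ((c.ρ (n + 1) ^ 2 * c.σ (n + 1) ^ 2) • x - c.ρ (n + 1) ^ 2 • ez)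
        + c.σ (n + 1) ^ 3 • sw chi (c.σ (n + 1) ^ 2 • x - c.rr (n + 1) ^ 2 • ez)
        + (if n + 3 = 1 then (1 : ℝ) else 0) • U ((1 : ℝ) • x - 0)
        + (if n + 3 = 2 then (1 : ℝ) else 0) • T ((1 : ℝ) • x - 0)
      rw [P_pieces (n + 1) x, if_neg (by omega), if_neg (by omega)]
      simp

theorem cbQ (hw : Wgt c.σ) : Cb (c.Q U T) c.σ := by
  have hβ := β0_pos
  have hS := S0_pos
  have h3 : ∀ n, c.σ (n + 1) ≤ c.σ (n + 3) := fun n => c.σ_mono (by omega)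
  refine ⟨?_, ?_, ?_, ?_⟩
  · apply PB_tail hw 3 (C := β0⁻¹) (m := 0) (by positivity)
    intro n
    rw [pow_zero, mul_one]
    exact c.nn_inv (n + 2)
  · apply PB_tail hw 3 (C := β0) (m := 5) hβ.le
    intro n
    rw [bQ3]
    have h1 := c.σ_pos (n + 1)
    rw [abs_of_pos (by positivity), mul_comm]
    exact mul_le_mul_of_nonneg_left (pow_le_pow_left₀ h1.le (h3 n) 5) hβ.le
  · apply PB_tail hw 3 (C := β0) (m := 5) hβ.le
    intro n
    rw [cQ3]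
    have h1 := c.σ_pos (n + 1)
    have h2 := c.hε (n + 1)
    rw [abs_of_pos (by positivity)]
    have h4 : c.ε (n + 1) * β0 ≤ 1 * β0 := mul_le_mul_of_nonneg_right (c.hε1 (n + 1)) hβ.le
    have h5 := pow_le_pow_left₀ h1.le (h3 n) 5
    have h6 : 0 < c.σ (n + 1) ^ 5 := by positivity
    nlinarith
  · have h0 : 0 ≤ Dup := by
      have h1 := c.dd_low 0
      have h2 := c.dd_up 0
      have h3 := c.σ_pos 0
      have h5 : 0 < c.σ 0 ^ 4 * S0 := by positivity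
      by_contra hcon
      push Not at hcon
      nlinarith [pow_pos h3 4]
    apply PB_tail hw 3 (C := Dup) (m := 4) h0
    intro n
    rw [dQ3]
    have h1 := c.σ_pos (n + 1)
    have h4 : 0 ≤ Dd c.P (n + 2) := le_trans (by positivity) (c.dd_low (n + 1))
    rw [abs_of_nonneg h4]
    have h5 := c.dd_up (n + 1)
    have h6 := pow_le_pow_left₀ h1.le (h3 n) 4
    have h7 := mul_le_mul_of_nonneg_right h6 h0
    calc Dd c.P (n + 2) ≤ c.σ (n + 1) ^ 4 * Dup := h5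
      _ ≤ _ := by linarith

theorem kQ3 (n : ℕ) : kapG (c.Q U T) (n + 3) = Nn c.P (n + 3) / (c.σ (n + 1) ^ 5 * β0) := by
  show Nn (c.Q U T) (n + 4) / Bb (c.Q U T) (n + 3) = _
  rw [bQ3]
  rfl

theorem kQ2 (hd : Dat U T l R1) (hl : 17 / 4 < c.σ 0 ^ 2 * l) :
    kapG (c.Q U T) 2 = Nn c.P 2 / (c.σ 0 ^ 5 * β0) := by
  show Nn (c.Q U T) 3 / Bb (c.Q U T) 2 = _
  rw [bQ2 hd hl]
  rfl

theorem kQ1 (hd : Dat U T l R1) (hl : 17 / 4 < c.σ 0 ^ 2 * l) :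
    kapG (c.Q U T) 1 = (ip T T + Nn c.P 1) / -tri T U T := by
  show Nn (c.Q U T) 2 / Bb (c.Q U T) 1 = _
  rw [bQ1 hd hl, nQ2 hd hl]

/-- The common formula for the normalisations. -/
theorem kQn (hd : Dat U T l R1) (hl : 17 / 4 < c.σ 0 ^ 2 * l) (n : ℕ) :
    kapG (c.Q U T) (n + 2) = Nn c.P (n + 2) / (c.σ n ^ 5 * β0) := by
  cases n with
  | zero => exact kQ2 hd hl
  | succ n => exact kQ3 n

theorem kapQ_PB (hw : Wgt c.σ) : PB c.σ (kapG (c.Q U T)) := by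
  have hβ := β0_pos
  have hN : 0 < Nup := (c.nn_pos 0).trans_le (c.nn_up 0)
  apply PB_tail hw 3 (C := Nup / β0) (m := 0) (by positivity)
  intro n
  rw [kQ3, pow_zero, mul_one]
  have h1 := c.nn_up (n + 2)
  have h2 := c.nn_pos (n + 2)
  have h3 := c.σ_one (n + 1)
  have h4 : 1 ≤ c.σ (n + 1) ^ 5 := one_le_pow₀ h3
  rw [abs_of_pos (by positivity)]
  apply div_le_div₀ hN.le h1 hβ
  nlinarith

theorem goodQ (hw : Wgt c.σ) (hd : Dat U T l R1) (hl : 17 / 4 < c.σ 0 ^ 2 * l) :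
    Good (c.Q U T) (c.lo' l R1) (c.hi' R1) (max R1 (17 / 4)) c.σ 5 :=
  ⟨chnQ hd hl, bvQ hw hd, cbQ hw, kapQ_PB hw⟩

end Sc

end Pool.Agent.Run7.h407.G.X
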