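import Mathlib
import Pool.Agent.Run7.h407.D.Good

/-!
The parameters of the reduced system of the chain with first field `U`.
-/

namespace Pool.Agent.Run7.h407.G.X

open Set Filter Topology MeasureTheory
open scoped ContDiff

variable {α γ s0 R : ℝ}

theorem Dup_nonneg (c : Sc) : 0 ≤ Dup := by
  have h1 := c.dd_low 0
  have h2 := c.dd_up 0
  have h3 := c.σ_pos 0
  have h4 := S0_pos
  have h5 : 0 < c.σ 0 ^ 4 * S0 := by positivity
  by_contra hcon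
  push Not at hcon
  nlinarith [pow_pos h3 4]

/-- Parameters without viscosity. -/
noncomputable def Pre.p0 (h : Pre α γ s0 R) : Par := h.par (ν := 0) (a0 := 1) le_rfl one_pos
  (by simp) (fun k => by
    have : 0 ≤ ∏ i ∈ Finset.range k, rh R γ (i + 1) ^ α :=
      Finset.prod_nonneg fun i _ => Real.rpow_nonneg (h.rh_pos _).le _
    simpa using this)

/-- The sequence `Λ`. -/
noncomputable def La (R γ α L0 : ℝ) : ℕ → ℝ
  | 0 => L0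
  | n + 1 => rh R γ n ^ α

/-- The sequence `e`. -/
noncomputable def Ee (P : ℕ → V → V) : ℕ → ℝ
  | 0 => 1 / 1000000
  | n + 1 => Cc P (n + 1) * Nn P (n + 2) * Bb P (n + 2) / (Bb P (n + 1) ^ 2 * Nn P (n + 3))

/-- The sequence `g`. -/
noncomputable def Gg (P : ℕ → V → V) (n : ℕ) : ℝ := Bb P (n + 1) ^ 2 * Nn P (n + 3) ^ 2
    / (Nn P (n + 1) * Nn P (n + 2) * Bb P (n + 2) ^ 2)

/-- All the conditions which link `U` and `T` with the chain. -/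
structure Lnk (U T : V → V) (l R1 : ℝ) (h : Pre α γ s0 R) (L0 DT ν a0 : ℝ) : Prop where
  hd : Dat U T l R1
  hl : 17 / 4 < h.sc.σ 0 ^ 2 * l
  hb : 0 < -tri T U T
  hc : 0 < -tri U U T
  hL : 1000 ≤ L0
  hL' : L0 ≤ R ^ α
  h1 : Gg (h.sc.Q U T) 0 * (R ^ α) ^ 2 ≤ 1 / 10000
  h2 : Dir U U / ip U U ≤ (Dir T T + Dd h.sc.P 1) / (ip T T + Nn h.sc.P 1)
  hDT : Dir T T ≤ h.sc.σ 0 ^ 4 * DT
  h3 : (DT + Dup) * Nup / (β0 * S0) ≤ R ^ 4
  hν : 0 ≤ ν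
  ha0 : 0 < a0
  h4 : 200 * (ν * Dir U U / ip U U) * L0 ≤ a0
  h5 : 200 * (ν * (h.sc.σ 0 ^ 4 * (DT + Dup)) / β0) ≤ a0
  h6 : ∀ k, 200 * (ν * (h.sc.σ (k + 1) ^ 4 * Dup) / β0)
    ≤ a0 * ∏ i ∈ Finset.range (k + 1), rh R γ i ^ α
  h7 : 2 * R ^ α + Ee (h.sc.Q U T) 1 ≤ Ee (h.sc.Q U T) 1 * Real.exp (4 * L0)
  h8 : 4 * Ee (h.sc.Q U T) 1 * Real.exp (2.3 * L0) ≤ 1 / 100
  h9 : Ee (h.sc.Q U T) 1 ≤ 1 / 1000000

variable {U T : V → V} {l R1 L0 DT ν a0 : ℝ} {h : Pre α γ s0 R}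

theorem Lnk.eq2 (k : Lnk U T l R1 h L0 DT ν a0) (n : ℕ) : Ee (h.sc.Q U T) (n + 2) = h.ee (n + 1) := by
  have hβ := β0_pos
  have hr := h.rh_pos n
  have hs := h.sc.σ_pos n
  have hs1 := h.sc.σ_succ n
  have n2 := h.sc.nn_pos (n + 2)
  have hρ : h.sc.ρ n = rh R γ n := rfl
  have e0 : h.ee (n + 1)
      = Real.exp (-(3 * rh R γ n ^ α)) * (Nn h.sc.P (n + 2) / Nn h.sc.P (n + 3)) := rfl
  have hε : h.sc.ε n = Real.exp (-(3 * rh R γ n ^ α)) / rh R γ n ^ 5 := rfl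
  have b3 : Bb (h.sc.Q U T) (n + 3) = h.sc.σ (n + 1) ^ 5 * β0 := Sc.bQ3 n
  have b2 : Bb (h.sc.Q U T) (n + 2) = h.sc.σ n ^ 5 * β0 := by
    cases n with
    | zero => exact Sc.bQ2 k.hd k.hl
    | succ n => exact Sc.bQ3 n
  have c2 : Cc (h.sc.Q U T) (n + 2) = h.sc.σ n ^ 5 * (h.sc.ε n * β0) := by
    cases n with
    | zero => exact Sc.cQ2 k.hd k.hl
    | succ n => exact Sc.cQ3 n
  show Cc (h.sc.Q U T) (n + 2) * Nn (h.sc.Q U T) (n + 3) * Bb (h.sc.Q U T) (n + 3)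
    / (Bb (h.sc.Q U T) (n + 2) ^ 2 * Nn (h.sc.Q U T) (n + 4)) = _
  have n3 : Nn (h.sc.Q U T) (n + 3) = Nn h.sc.P (n + 2) := rfl
  have n4 : Nn (h.sc.Q U T) (n + 4) = Nn h.sc.P (n + 3) := rfl
  rw [e0, c2, b3, b2, n3, n4, hs1, hε, hρ]
  field_simp

theorem Lnk.gq2 (_k : Lnk U T l R1 h L0 DT ν a0) (n : ℕ) : Gg (h.sc.Q U T) (n + 2)
    = Nn h.sc.P (n + 4) ^ 2 / (h.sc.ρ (n + 1) ^ 10 * Nn h.sc.P (n + 2) * Nn h.sc.P (n + 3)) := by
  have hβ := β0_pos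
  have hs := h.sc.σ_pos (n + 1)
  have hs1 := h.sc.σ_succ (n + 1)
  have hr := h.sc.ρ_pos (n + 1)
  have n2 := h.sc.nn_pos (n + 1)
  have n3' := h.sc.nn_pos (n + 2)
  have b3 : Bb (h.sc.Q U T) (n + 3) = h.sc.σ (n + 1) ^ 5 * β0 := Sc.bQ3 n
  have b4 : Bb (h.sc.Q U T) (n + 4) = h.sc.σ (n + 2) ^ 5 * β0 := Sc.bQ3 (n + 1)
  show Bb (h.sc.Q U T) (n + 3) ^ 2 * Nn (h.sc.Q U T) (n + 5) ^ 2
    / (Nn (h.sc.Q U T) (n + 3) * Nn (h.sc.Q U T) (n + 4) * Bb (h.sc.Q U T) (n + 4) ^ 2) = _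
  have n3 : Nn (h.sc.Q U T) (n + 3) = Nn h.sc.P (n + 2) := rfl
  have n4 : Nn (h.sc.Q U T) (n + 4) = Nn h.sc.P (n + 3) := rfl
  have n5 : Nn (h.sc.Q U T) (n + 5) = Nn h.sc.P (n + 4) := rfl
  rw [b3, b4, n3, n4, n5, show n + 2 = n + 1 + 1 from rfl, hs1]
  rw [show n + 1 + 1 = n + 2 from rfl] at *
  field_simp

theorem Lnk.gq1 (k : Lnk U T l R1 h L0 DT ν a0) : Gg (h.sc.Q U T) 1
    ≤ Nn h.sc.P 3 ^ 2 / (h.sc.ρ 0 ^ 10 * Nn h.sc.P 1 * Nn h.sc.P 2) := by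
  have hβ := β0_pos
  have hs := h.sc.σ_pos 0
  have hs1 := h.sc.σ_succ 0
  have hr := h.sc.ρ_pos 0
  have n1 := h.sc.nn_pos 0
  have n2 := h.sc.nn_pos 1
  have n3 := h.sc.nn_pos 2
  have b2 : Bb (h.sc.Q U T) 2 = h.sc.σ 0 ^ 5 * β0 := Sc.bQ2 k.hd k.hl
  have b3 : Bb (h.sc.Q U T) 3 = h.sc.σ 1 ^ 5 * β0 := Sc.bQ3 0
  have hT := ip_nonneg T
  show Bb (h.sc.Q U T) 2 ^ 2 * Nn (h.sc.Q U T) 4 ^ 2
    / (Nn (h.sc.Q U T) 2 * Nn (h.sc.Q U T) 3 * Bb (h.sc.Q U T) 3 ^ 2) ≤ _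
  have m2 : Nn (h.sc.Q U T) 2 = ip T T + Nn h.sc.P 1 := Sc.nQ2 k.hd k.hl
  have m3 : Nn (h.sc.Q U T) 3 = Nn h.sc.P 2 := rfl
  have m4 : Nn (h.sc.Q U T) 4 = Nn h.sc.P 3 := rfl
  simp only [zero_add] at hs1 n1 n2
  rw [show (1 : ℕ) + 1 = 2 from rfl] at n2
  rw [b2, b3, m2, m3, m4, hs1]
  have e : (h.sc.σ 0 ^ 5 * β0) ^ 2 * Nn h.sc.P 3 ^ 2 / ((ip T T + Nn h.sc.P 1) * Nn h.sc.P 2
      * ((h.sc.σ 0 * h.sc.ρ 0) ^ 5 * β0) ^ 2)
      = Nn h.sc.P 3 ^ 2 / (h.sc.ρ 0 ^ 10 * (ip T T + Nn h.sc.P 1) * Nn h.sc.P 2) := by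
    have : 0 < ip T T + Nn h.sc.P 1 := by linarith
    field_simp
  rw [e]
  apply div_le_div_of_nonneg_left (by positivity) (by positivity)
  apply mul_le_mul_of_nonneg_right _ n2.le
  apply mul_le_mul_of_nonneg_left _ (by positivity)
  linarith

theorem Lnk.bp (k : Lnk U T l R1 h L0 DT ν a0) (n : ℕ) : 0 < Bb (h.sc.Q U T) (n + 1) := by
  have hβ := β0_pos
  match n with
  | 0 =>
    have : Bb (h.sc.Q U T) 1 = -tri T U T := Sc.bQ1 k.hd k.hl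
    rw [show 0 + 1 = 1 from rfl, this]
    exact k.hb
  | 1 =>
    have : Bb (h.sc.Q U T) 2 = h.sc.σ 0 ^ 5 * β0 := Sc.bQ2 k.hd k.hl
    have hs := h.sc.σ_pos 0
    rw [show 1 + 1 = 2 from rfl, this]
    positivity
  | n + 2 =>
    have : Bb (h.sc.Q U T) (n + 3) = h.sc.σ (n + 1) ^ 5 * β0 := Sc.bQ3 n
    have hs := h.sc.σ_pos (n + 1)
    rw [show n + 2 + 1 = n + 3 from rfl, this]
    positivity

theorem Lnk.e1p (k : Lnk U T l R1 h L0 DT ν a0) : 0 < Ee (h.sc.Q U T) 1 := by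
  have b1 := k.bp 0
  have b2 := k.bp 1
  have c1 : Cc (h.sc.Q U T) 1 = -tri U U T := Sc.cQ1 k.hd k.hl
  have hc := k.hc
  have m2 : 0 < Nn (h.sc.Q U T) 2 := (Sc.chnQ k.hd k.hl).N0 1
  have m3 : 0 < Nn (h.sc.Q U T) 3 := (Sc.chnQ k.hd k.hl).N0 2
  show 0 < Cc (h.sc.Q U T) 1 * Nn (h.sc.Q U T) 2 * Bb (h.sc.Q U T) 2
    / (Bb (h.sc.Q U T) 1 ^ 2 * Nn (h.sc.Q U T) 3)
  rw [c1]
  simp only [zero_add] at b1
  rw [show (1 : ℕ) + 1 = 2 from rfl] at b2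
  positivity

theorem Lnk.dqn (_k : Lnk U T l R1 h L0 DT ν a0) (n : ℕ) :
    Dd h.sc.P (n + 2) / Nn h.sc.P (n + 2) ≤ Dd h.sc.P (n + 3) / Nn h.sc.P (n + 3) := by
  have a1 := h.sc.nn_pos (n + 1)
  have a2 := h.sc.nn_pos (n + 2)
  have a3 := h.sc.dd_up (n + 1)
  have a4 := h.sc.dd_low (n + 2)
  have a5 := h.sc.nn_low (n + 1)
  have a6 := h.sc.nn_up (n + 2)
  have a7 : Dup * Nup / (β0 * S0) ≤ h.sc.ρ (n + 1) ^ 4 := (h.cn (n + 1)).c5
  have a8 := S0_pos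
  have a9 := β0_pos
  have b1 := h.sc.σ_pos (n + 1)
  have b2 := h.sc.σ_succ (n + 1)
  have b3 := h.sc.ρ_pos (n + 1)
  have b4 := h.sc.dd_low (n + 1)
  have b5 : 0 < Dd h.sc.P (n + 1 + 1) := lt_of_lt_of_le (by positivity) b4
  have b6 : 0 < Nup := a2.trans_le a6
  rw [div_le_iff₀ (by positivity)] at a7
  have c1 : Dd h.sc.P (n + 2) / Nn h.sc.P (n + 2) ≤ h.sc.σ (n + 1) ^ 4 * Dup / β0 :=
    div_le_div₀ (b5.le.trans a3) a3 a9 a5
  have c2 : h.sc.σ (n + 2) ^ 4 * S0 / Nup ≤ Dd h.sc.P (n + 3) / Nn h.sc.P (n + 3) := by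
    apply div_le_div₀ _ a4 a2 a6
    exact le_trans (by have := h.sc.σ_pos (n + 2); positivity) a4
  refine c1.trans (le_trans ?_ c2)
  rw [div_le_div_iff₀ a9 b6, show n + 2 = n + 1 + 1 from rfl, b2, mul_pow]
  have c3 := mul_le_mul_of_nonneg_left a7 (by positivity : 0 ≤ h.sc.σ (n + 1) ^ 4)
  linarith

theorem Lnk.DT0 (k : Lnk U T l R1 h L0 DT ν a0) : 0 ≤ DT := by
  have h1 := Dir_nonneg' T
  have h2 := k.hDT
  have h3 := h.sc.σ_pos 0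
  by_contra hcon
  push Not at hcon
  nlinarith [pow_pos h3 4]

theorem Lnk.dq1 (k : Lnk U T l R1 h L0 DT ν a0) :
    (Dir T T + Dd h.sc.P 1) / (ip T T + Nn h.sc.P 1) ≤ h.sc.σ 0 ^ 4 * (DT + Dup) / β0 := by
  have a1 := h.sc.dd_up 0
  have a2 := h.sc.nn_low 0
  have a3 := ip_nonneg T
  have a4 := k.DT0
  have a5 := h.sc.σ_pos 0
  have a7 := Dup_nonneg h.sc
  have a8 := k.hDT
  have a9 := β0_pos
  simp only [zero_add] at a1 a2
  apply div_le_div₀ (by positivity) _ a9 (by linarith)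
  linarith

theorem Lnk.dq12 (k : Lnk U T l R1 h L0 DT ν a0) :
    (Dir T T + Dd h.sc.P 1) / (ip T T + Nn h.sc.P 1) ≤ Dd h.sc.P 2 / Nn h.sc.P 2 := by
  have a1 := h.sc.nn_pos 1
  have a4 := h.sc.dd_low 1
  have a6 := h.sc.nn_up 1
  have a7 := k.h3
  have a8 := S0_pos
  have a9 := β0_pos
  have b1 := h.sc.σ_pos 0
  have b2 := h.sc.σ_succ 0
  have b3 := h.sc.ρ_pos 0
  have b6 : 0 < Nup := a1.trans_le a6
  have hρ : h.sc.ρ 0 = R := by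
    rw [h.ρ_eq, rh_zero]
  rw [div_le_iff₀ (by positivity)] at a7
  have c2 : h.sc.σ 1 ^ 4 * S0 / Nup ≤ Dd h.sc.P 2 / Nn h.sc.P 2 := by
    apply div_le_div₀ _ a4 a1 a6
    exact le_trans (by have := h.sc.σ_pos 1; positivity) a4
  refine k.dq1.trans (le_trans ?_ c2)
  simp only [zero_add] at b2
  rw [div_le_div_iff₀ a9 b6, b2, mul_pow, hρ]
  have c3 := mul_le_mul_of_nonneg_left a7 (by positivity : 0 ≤ h.sc.σ 0 ^ 4)
  linarith

/-- The parameters. -/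
noncomputable def Lnk.par (k : Lnk U T l R1 h L0 DT ν a0) : Par where
  Λ := La R γ α L0
  e := Ee (h.sc.Q U T)
  g := Gg (h.sc.Q U T)
  d := fun n => ν * Dd (h.sc.Q U T) (n + 1) / Nn (h.sc.Q U T) (n + 1)
  a0 := a0
  hΛ := fun n => by
    match n with
    | 0 => exact k.hL
    | n + 1 => exact (h.cn n).c1
  hmono := fun n => by
    match n with
    | 0 =>
      show L0 ≤ rh R γ 0 ^ α
      rw [rh_zero]
      exact k.hL'
    | n + 1 => exact h.p0.hmono n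
  he := fun n => by
    match n with
    | 0 => exact (by norm_num : (0 : ℝ) < 1 / 1000000)
    | 1 => exact k.e1p
    | n + 2 =>
      rw [k.eq2]
      exact h.ee_pos _
  he' := fun n => by
    match n with
    | 0 => exact le_rfl
    | 1 => exact k.h9
    | n + 2 =>
      rw [k.eq2]
      exact h.p0.he' (n + 1)
  hg := fun n => by
    have b1 := k.bp n
    have b2 := k.bp (n + 1)
    have hc := Sc.chnQ k.hd k.hl
    have m1 : 0 < Nn (h.sc.Q U T) (n + 1) := hc.N0 n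
    have m2 : 0 < Nn (h.sc.Q U T) (n + 2) := hc.N0 (n + 1)
    have m3 : 0 < Nn (h.sc.Q U T) (n + 3) := hc.N0 (n + 2)
    rw [show n + 1 + 1 = n + 2 from rfl] at b2
    unfold Gg
    positivity
  hg' := fun n => by
    match n with
    | 0 =>
      show Gg (h.sc.Q U T) 0 * (rh R γ 0 ^ α) ^ 2 ≤ _
      rw [rh_zero]
      exact k.h1
    | 1 =>
      refine le_trans ?_ (h.p0.hg' 0)
      exact mul_le_mul_of_nonneg_right k.gq1 (sq_nonneg _)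
    | n + 2 =>
      rw [k.gq2]
      exact h.p0.hg' (n + 1)
  hd := fun n => by
    have hc := Sc.chnQ k.hd k.hl
    have m1 : 0 < Nn (h.sc.Q U T) (n + 1) := hc.N0 n
    have m2 : 0 ≤ Dd (h.sc.Q U T) (n + 1) := Dir_nonneg' _
    have := k.hν
    positivity
  hdm := fun n => by
    have hν := k.hν
    rw [mul_div_assoc, mul_div_assoc]
    apply mul_le_mul_of_nonneg_left _ hν
    match n with
    | 0 =>
      have m2 : Nn (h.sc.Q U T) 2 = ip T T + Nn h.sc.P 1 := Sc.nQ2 k.hd k.hl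
      have d2 : Dd (h.sc.Q U T) 2 = Dir T T + Dd h.sc.P 1 := Sc.dQ2 k.hd k.hl
      show Dd (h.sc.Q U T) 1 / Nn (h.sc.Q U T) 1 ≤ Dd (h.sc.Q U T) 2 / Nn (h.sc.Q U T) 2
      rw [m2, d2]
      exact k.h2
    | 1 =>
      have m2 : Nn (h.sc.Q U T) 2 = ip T T + Nn h.sc.P 1 := Sc.nQ2 k.hd k.hl
      have d2 : Dd (h.sc.Q U T) 2 = Dir T T + Dd h.sc.P 1 := Sc.dQ2 k.hd k.hl
      show Dd (h.sc.Q U T) 2 / Nn (h.sc.Q U T) 2 ≤ Dd h.sc.P 2 / Nn h.sc.P 2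
      rw [m2, d2]
      exact k.dq12
    | n + 2 => exact k.dqn n
  ha0 := k.ha0
  hda0 := k.h4
  hda := fun n => by
    match n with
    | 0 =>
      have m2 : Nn (h.sc.Q U T) 2 = ip T T + Nn h.sc.P 1 := Sc.nQ2 k.hd k.hl
      have d2 : Dd (h.sc.Q U T) 2 = Dir T T + Dd h.sc.P 1 := Sc.dQ2 k.hd k.hl
      show 200 * (ν * Dd (h.sc.Q U T) 2 / Nn (h.sc.Q U T) 2) ≤ a0 * 1
      rw [m2, d2, mul_one]
      refine le_trans ?_ k.h5
      apply mul_le_mul_of_nonneg_left _ (by norm_num)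
      rw [mul_div_assoc, mul_div_assoc]
      exact mul_le_mul_of_nonneg_left k.dq1 k.hν
    | n + 1 =>
      refine le_trans ?_ (k.h6 n)
      have a1 := h.sc.nn_pos (n + 1)
      have a3 := h.sc.dd_up (n + 1)
      have a5 := h.sc.nn_low (n + 1)
      have a8 := S0_pos
      have a9 := β0_pos
      have b1 := h.sc.σ_pos (n + 1)
      have b4 := h.sc.dd_low (n + 1)
      have b5 : 0 < Dd h.sc.P (n + 1 + 1) := lt_of_lt_of_le (by positivity) b4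
      have hν := k.hν
      show 200 * (ν * Dd h.sc.P (n + 2) / Nn h.sc.P (n + 2)) ≤ _
      apply mul_le_mul_of_nonneg_left _ (by norm_num)
      apply div_le_div₀ (by have := b5.le.trans a3; positivity) _ a9 a5
      exact mul_le_mul_of_nonneg_left a3 hν
  hexp1 := fun n => by
    match n with
    | 0 =>
      show 2 * rh R γ 0 ^ α + Ee (h.sc.Q U T) 1 ≤ Ee (h.sc.Q U T) 1 * Real.exp (4 * L0)
      rw [rh_zero]
      exact k.h7
    | n + 1 =>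
      rw [k.eq2]
      exact h.p0.hexp1 n
  hexp2 := fun n => by
    match n with
    | 0 => exact k.h8
    | n + 1 =>
      rw [k.eq2]
      exact h.p0.hexp2 n

theorem Lnk.fit (k : Lnk U T l R1 h L0 DT ν a0) : FitG (h.sc.Q U T) ν k.par :=
  ⟨k.bp, fun _ => rfl, fun _ => rfl, fun _ => rfl⟩

theorem Lnk.e0 (k : Lnk U T l R1 h L0 DT ν a0) : Tendsto k.par.e atTop (𝓝 0) := by
  rw [← tendsto_add_atTop_iff_nat 2]
  have h1 : Tendsto (fun n => h.ee (n + 1)) atTop (𝓝 0) := by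
    have t1 := (exp_tend0 h.hα Kq (b := 3) (by norm_num)).comp (rh_tend h.R1 h.hγ)
    exact squeeze_zero (fun n => (h.ee_pos (n + 1)).le) (fun n => h.ee_le' n) t1
  exact h1.congr fun n => (k.eq2 n).symm

theorem Lnk.pw (k : Lnk U T l R1 h L0 DT ν a0) : PW k.par h.sc.σ := by
  have hK := Kq_pos h.sc
  have ht := rh_tend h.R1 h.hγ
  have hβ := β0_pos
  have hS := S0_pos
  have hw := h.sc.wgt h.stp
  refine ⟨hw, ⟨h.sc.σ_pos, fun m => ?_⟩, ?_, k.e0⟩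
  · rw [← tendsto_add_atTop_iff_nat 1]
    have t1 := ((exp_tend h.hα (γ * (γ * m)) (b := 3) (by norm_num)).comp ht).const_mul Kq
    rw [mul_zero] at t1
    apply squeeze_zero _ _ t1
    · intro i
      have a1 := k.par.he (i + 2)
      have a2 := h.sc.σ_pos (i + 2)
      have a3 := h.sc.σ_pos (i + 3)
      show 0 ≤ k.par.e (i + 2) * (h.sc.σ (i + 3) / h.sc.σ (i + 2)) ^ m
      positivity
    · intro i
      have a2 := h.sc.σ_pos (i + 2)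
      have hR : 0 < R := by linarith [h.hR]
      have e : h.sc.σ (i + 3) / h.sc.σ (i + 2) = (rh R γ i ^ γ) ^ γ := by
        rw [h.sc.σ_succ (i + 2), h.ρ_eq, rh_succ hR, rh_succ hR]
        field_simp
      show Ee (h.sc.Q U T) (i + 2) * (h.sc.σ (i + 3) / h.sc.σ (i + 2)) ^ m
        ≤ Kq * (rh R γ i ^ (γ * (γ * m)) * Real.exp (-(3 * rh R γ i ^ α)))
      rw [k.eq2, e, ← Real.rpow_natCast ((rh R γ i ^ γ) ^ γ) m, ← Real.rpow_mul
        (Real.rpow_nonneg (h.rh_pos i).le _), ← Real.rpow_mul (h.rh_pos i).le]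
      have a3 : 0 < rh R γ i ^ (γ * (γ * m)) := Real.rpow_pos_of_pos (h.rh_pos i) _
      have := mul_le_mul_of_nonneg_right (h.ee_le' i) a3.le
      linarith
  · apply PB_tail hw 2 (C := ν * Dup / β0) (m := 4)
    · have := Dup_nonneg h.sc
      have := k.hν
      positivity
    intro n
    have a1 := h.sc.nn_pos (n + 1)
    have a3 := h.sc.dd_up (n + 1)
    have a5 := h.sc.nn_low (n + 1)
    have b1 := h.sc.σ_pos (n + 1)
    have b4 := h.sc.dd_low (n + 1)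
    have b5 : 0 < Dd h.sc.P (n + 2) := lt_of_lt_of_le (by positivity) b4
    have hν := k.hν
    have hD := Dup_nonneg h.sc
    show |ν * Dd h.sc.P (n + 2) / Nn h.sc.P (n + 2)| ≤ ν * Dup / β0 * h.sc.σ (n + 2) ^ 4
    rw [abs_of_nonneg (by positivity)]
    have h1 : h.sc.σ (n + 1) ^ 4 ≤ h.sc.σ (n + 2) ^ 4 :=
      pow_le_pow_left₀ b1.le (h.sc.σ_le (n + 1)) 4
    calc ν * Dd h.sc.P (n + 2) / Nn h.sc.P (n + 2) ≤ ν * (h.sc.σ (n + 1) ^ 4 * Dup) / β0 := by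
          apply div_le_div₀ (by positivity) _ hβ a5
          exact mul_le_mul_of_nonneg_left a3 hν
      _ = ν * Dup / β0 * h.sc.σ (n + 1) ^ 4 := by ring
      _ ≤ _ := mul_le_mul_of_nonneg_left h1 (by positivity)

end Pool.Agent.Run7.h407.G.X
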