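import Mathlib
import Pool.Agent.Run7.h407.D.Prm
import Pool.Agent.Run7.h407.X.Sup

/-!
Growth of the velocity field of the chain with first field `U`.
-/

namespace Pool.Agent.Run7.h407.G.X

open Set Filter Topology MeasureTheory
open scoped ContDiff

variable {U T : V → V} {l R1 : ℝ}

/-- The region in which only one field counts. -/
def slab3 : Set V := {z : V | 17 / 16 < z 2 ∧ ‖z‖ < 3}

theorem slab3_open : IsOpen slab3 :=
  (isOpen_lt continuous_const (continuous_apply 2)).inter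
    (isOpen_lt continuous_norm continuous_const)

theorem coord2_le (z : V) : z 2 ≤ ‖z‖ := (le_abs_self _).trans (by
  rw [← Real.norm_eq_abs]
  exact norm_le_pi_norm z 2)

/-- The cubic mass of the straining part in the region. -/
noncomputable def sm1 : ℝ := ∫ y, slab3.indicator (fun z => ‖str Gp (z - ez)‖ ^ 3) y

theorem sm1_pos : 0 < sm1 := by
  unfold sm1
  rw [integral_indicator slab3_open.measurableSet]
  have hc := cube_cont stre_CF.sm.continuous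
  rw [setIntegral_pos_iff_support_of_nonneg_ae]
  · have h1 := psi3_pt (r := 2) (μ := 2) le_rfl le_rfl 0
    have h0 : ((9 / 8 : ℝ) • ez) 2 = 9 / 8 := by
      simp [ez_two]
    have h9 : ‖((9 / 8 : ℝ) • ez)‖ < 3 := by
      rw [norm_smul, norm_ez]
      norm_num
    rw [psi3_slab le_rfl le_rfl (by rw [h0]; norm_num) (by rw [h0]; norm_num)] at h1
    have ho : IsOpen (Function.support (fun z => ‖str Gp (z - ez)‖ ^ 3) ∩ slab3) :=
      hc.isOpen_support.inter slab3_open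
    refine ho.measure_pos volume ⟨(9 / 8 : ℝ) • ez, ?_, ?_⟩
    · intro h
      have h2 : str Gp ((9 / 8 : ℝ) • ez - ez) = 0 := by simpa using h
      rw [h2] at h1
      norm_num at h1
    · refine ⟨?_, h9⟩
      rw [h0]
      norm_num
  · exact Eventually.of_forall fun x => by positivity
  · exact (hc.integrable_of_hasCompactSupport (cube_cs stre_CF)).integrableOn

namespace Sc

variable {c : Sc}

/-- Reading off a coefficient. -/
theorem rep_oneQ (hd : Dat U T l R1) (hl : 17 / 4 < c.σ 0 ^ 2 * l) {a : ℕ → ℝ} {v : V → V}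
    (hm : Mem (c.Q U T) a v) (n : ℕ) {x : V}
    (h1 : 17 / 16 < c.σ n ^ 2 * x 2) (h2' : c.σ n ^ 2 * ‖x‖ < 3) :
    v x = a (n + 2) • c.P (n + 1) x := by
  have h2 : c.σ n ^ 2 * x 2 < 3 :=
    (mul_le_mul_of_nonneg_left (coord2_le x) (sq_nonneg _)).trans_lt h2'
  have h0 := c.σ_pos 0
  have hn := c.σ_pos n
  have h01 : c.σ 0 ^ 2 ≤ c.σ n ^ 2 := pow_le_pow_left₀ h0.le (c.σ_mono (Nat.zero_le n)) 2
  have hx : 0 < x 2 := by
    by_contra hcon
    push Not at hcon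
    nlinarith [pow_pos hn 2]
  have hxl : ‖x‖ < l := by
    have h3 : c.σ 0 ^ 2 * ‖x‖ < c.σ 0 ^ 2 * l := by
      have := mul_le_mul_of_nonneg_right h01 (norm_nonneg x)
      linarith
    exact lt_of_mul_lt_mul_left h3 (by positivity)
  have hU : U x = 0 := by
    by_contra hcon
    linarith [(hd.su x hcon).1]
  have hT : T x = 0 := by
    by_contra hcon
    linarith [(hd.st x hcon).1]
  have h3 : HasSum (fun k => a k • c.Q U T k x) (a (n + 2) • c.P (n + 1) x) := by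
    have e : a (n + 2) • c.P (n + 1) x = a (n + 2) • c.Q U T (n + 2) x := by
      match n with
      | 0 =>
        show a 2 • c.P 1 x = a 2 • (T x + c.P 1 x)
        rw [hT, zero_add]
      | m + 1 => rfl
    rw [e]
    apply hasSum_single
    intro k hk
    have e2 : c.Q U T k x = 0 := by
      match k, hk with
      | 0, _ => rfl
      | 1, _ => exact hU
      | 2, hk =>
        show T x + c.P 1 x = 0
        rw [hT, zero_add]
        exact c.other_zero n h1 h2 (by omega)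
      | m + 3, hk =>
        show c.P (m + 2) x = 0
        exact c.other_zero n h1 h2 (show m + 2 ≠ n + 1 by omega)
    rw [e2, smul_zero]
  exact (hm x).unique h3

theorem cubic_lowerQ (hd : Dat U T l R1) (hl : 17 / 4 < c.σ 0 ^ 2 * l) {a : ℕ → ℝ} {v : V → V}
    (hm : Mem (c.Q U T) a v) (hv : CF v) (n : ℕ) :
    (|a (n + 2)| * c.σ n) ^ 3 * sm1 ≤ ∫ x, ‖v x‖ ^ 3 := by
  have hs := c.σ_pos n
  have h1 : (|a (n + 2)| * c.σ n) ^ 3 * sm1
      = ∫ x, (fun y => (|a (n + 2)| * c.σ n ^ 3) ^ 3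
        * slab3.indicator (fun z => ‖str Gp (z - ez)‖ ^ 3) y) (c.σ n ^ 2 • x) := by
    rw [integral_scale (fun y => (|a (n + 2)| * c.σ n ^ 3) ^ 3 * slab3.indicator
      (fun z => ‖str Gp (z - ez)‖ ^ 3) y) hs, integral_const_mul]
    unfold sm1
    field_simp
  rw [h1]
  apply integral_mono_of_nonneg
  · apply Eventually.of_forall
    intro x
    show 0 ≤ (|a (n + 2)| * c.σ n ^ 3) ^ 3
      * slab3.indicator (fun z => ‖str Gp (z - ez)‖ ^ 3) (c.σ n ^ 2 • x)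
    have h2 : 0 ≤ slab3.indicator (fun z => ‖str Gp (z - ez)‖ ^ 3) (c.σ n ^ 2 • x) :=
      indicator_nonneg (fun z _ => by positivity) _
    positivity
  · exact (cube_cont hv.sm.continuous).integrable_of_hasCompactSupport (cube_cs hv)
  · apply Eventually.of_forall
    intro x
    show (|a (n + 2)| * c.σ n ^ 3) ^ 3
      * slab3.indicator (fun z => ‖str Gp (z - ez)‖ ^ 3) (c.σ n ^ 2 • x) ≤ ‖v x‖ ^ 3
    by_cases hx : c.σ n ^ 2 • x ∈ slab3
    · rw [indicator_of_mem hx]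
      have h2 : 17 / 16 < c.σ n ^ 2 * x 2 ∧ ‖c.σ n ^ 2 • x‖ < 3 := hx
      have h2n : c.σ n ^ 2 * ‖x‖ < 3 := by
        have := h2.2
        rw [norm_smul, Real.norm_eq_abs, abs_of_pos (by positivity)] at this
        exact this
      have h2m : c.σ n ^ 2 * x 2 < 3 :=
        (mul_le_mul_of_nonneg_left (coord2_le x) (sq_nonneg _)).trans_lt h2n
      rw [rep_oneQ hd hl hm n h2.1 h2n, norm_smul, c.P_succ]
      unfold dil
      have h3 : c.blk n (c.σ n ^ 2 • x) = str Gp (c.σ n ^ 2 • x - ez) :=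
        psi3_slab (c.rr_two n) (c.hρ n) h2.1 h2m
      rw [norm_smul, Real.norm_eq_abs, Real.norm_eq_abs, abs_of_pos (by positivity : 0 < c.σ n ^ 3),
        h3]
      apply le_of_eq
      ring
    · rw [indicator_of_notMem hx, mul_zero]
      positivity

/-- All the modes are supported in the ball. -/
theorem Q_ball (hd : Dat U T l R1) (hl : 17 / 4 < c.σ 0 ^ 2 * l) (hlR : l ≤ R1) (j : ℕ) (x : V)
    (hx : c.Q U T j x ≠ 0) : ‖x‖ ≤ R1 := by
  have h0 := c.σ_pos 0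
  have key : ∀ n, ∀ y, c.P (n + 1) y ≠ 0 → ‖y‖ ≤ R1 := by
    intro n y hy
    have h1 : c.σ 0 ^ 2 * ‖y‖ ≤ 17 / 4 := by
      cases n with
      | zero => exact (P1_supp hy).2
      | succ n =>
        have h2 := (c.supp_ball hy).trans (c.hi_le n)
        have hn := c.σ_pos n
        have h01 : c.σ 0 ^ 2 ≤ c.σ n ^ 2 := pow_le_pow_left₀ h0.le (c.σ_mono (Nat.zero_le n)) 2
        rw [le_div_iff₀ (by positivity)] at h2
        have := mul_le_mul_of_nonneg_right h01 (norm_nonneg y)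
        linarith
    have h3 : c.σ 0 ^ 2 * ‖y‖ < c.σ 0 ^ 2 * l := by linarith
    exact (lt_of_mul_lt_mul_left h3 (by positivity)).le.trans hlR
  match j with
  | 0 => exact absurd rfl hx
  | 1 => exact (hd.su x hx).2
  | 2 =>
    by_cases hT : T x = 0
    · apply key 0 x
      intro h
      apply hx
      show T x + c.P 1 x = 0
      rw [hT, h, add_zero]
    · exact (hd.st x hT).2
  | n + 3 => exact key (n + 1) x hx

end Sc

variable {α γ s0 R : ℝ} {L0 DT ν a0 : ℝ} {h : Pre α γ s0 R}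

theorem Lnk.PL1 (k : Lnk U T l R1 h L0 DT ν a0) (n : ℕ) :
    k.par.PL (n + 1) = R ^ α * (h.sc.σ n / s0) ^ (α * γ) := by
  unfold Par.PL
  rw [Finset.prod_range_succ']
  have e : ∀ i, k.par.Λ (i + 1) = rh R γ i ^ α := fun i => rfl
  simp_rw [e]
  rw [h.PL_eq, rh_zero, mul_comm]

theorem Lnk.kap_eq (k : Lnk U T l R1 h L0 DT ν a0) (n : ℕ) :
    kapG (h.sc.Q U T) (n + 2) = h.sc.kap (n + 1) := by
  rw [Sc.kQn k.hd k.hl, h.sc.kap_succ]

theorem Lnk.kap1_pos (k : Lnk U T l R1 h L0 DT ν a0) : 0 < kapG (h.sc.Q U T) 1 := by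
  have h1 := k.bp 0
  have h2 : 0 < Nn (h.sc.Q U T) 2 := (Sc.chnQ k.hd k.hl).N0 1
  exact div_pos h2 h1

/-- Upper bound of the coefficients. -/
theorem Lnk.cof_up (k : Lnk U T l R1 h L0 DT ν a0) {Tb : ℝ}
    {A : ℕ → ℝ → ℝ} (S : Sol k.par Tb A) (n : ℕ) {t : ℝ} (ht : t ∈ Ico 0 Tb) :
    |cofG (h.sc.Q U T) A (n + 2) t| ≤ 8 * R ^ α * Kq * a0 * (8 ^ n * h.sc.σ n ^ (α * γ - 5)) := by
  have hσ := h.sc.σ_pos n
  have hs := h.s0_pos
  have hβ := β0_pos
  have ha0 := k.ha0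
  have h1 := S.upp (n + 1) t ht
  have h2 := S.nonneg (n + 2) t ht
  have h3 := h.sc.kap_pos n
  unfold cofG
  rw [k.kap_eq, abs_of_nonneg (mul_nonneg h3.le h2)]
  rw [k.PL1] at h1
  have hag : 0 < α * γ := mul_pos h.hα (by linarith [h.hγ])
  have hRα : 0 < R ^ α := Real.rpow_pos_of_pos h.R_pos _
  have h4 : (h.sc.σ n / s0) ^ (α * γ) ≤ h.sc.σ n ^ (α * γ) := by
    apply Real.rpow_le_rpow (by positivity) _ hag.le
    exact div_le_self hσ.le h.hs
  have h5 : h.sc.kap (n + 1) ≤ Kq * h.sc.σ n ^ (-5 : ℝ) := by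
    rw [h.sc.kap_succ, Real.rpow_neg hσ.le]
    have e : Kq * (h.sc.σ n ^ (5 : ℝ))⁻¹ = Nup / (h.sc.σ n ^ 5 * β0) := by
      unfold Kq
      have : h.sc.σ n ^ (5 : ℝ) = h.sc.σ n ^ (5 : ℕ) := by norm_cast
      rw [this]
      field_simp
    rw [e]
    exact div_le_div_of_nonneg_right (h.sc.nn_up (n + 1)) (by positivity)
  have hK := Kq_pos h.sc
  have e0 : k.par.a0 = a0 := rfl
  rw [e0] at h1
  calc h.sc.kap (n + 1) * A (n + 2) t
      ≤ (Kq * h.sc.σ n ^ (-5 : ℝ)) * (a0 * (8 ^ (n + 1) * (R ^ α * h.sc.σ n ^ (α * γ)))) := by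
        apply mul_le_mul h5 _ h2 (by positivity)
        refine h1.trans (mul_le_mul_of_nonneg_left ?_ ha0.le)
        apply mul_le_mul_of_nonneg_left _ (by positivity)
        exact mul_le_mul_of_nonneg_left h4 hRα.le
    _ = 8 * R ^ α * Kq * a0 * (8 ^ n * (h.sc.σ n ^ (α * γ) * h.sc.σ n ^ (-5 : ℝ))) := by ring
    _ = _ := by
        rw [← Real.rpow_add hσ]
        rfl

theorem Lnk.cof_one (k : Lnk U T l R1 h L0 DT ν a0) {Tb : ℝ}
    {A : ℕ → ℝ → ℝ} (S : Sol k.par Tb A) {t : ℝ} (ht : t ∈ Ico 0 Tb) :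
    |cofG (h.sc.Q U T) A 1 t| ≤ kapG (h.sc.Q U T) 1 * a0 := by
  have h1 := S.upp 0 t ht
  have h2 := S.nonneg 1 t ht
  have h3 := k.kap1_pos
  unfold cofG
  rw [abs_of_nonneg (mul_nonneg h3.le h2)]
  apply mul_le_mul_of_nonneg_left _ h3.le
  have e : k.par.PL 0 = 1 := by simp [Par.PL]
  rw [e] at h1
  have e0 : k.par.a0 = a0 := rfl
  rw [e0] at h1
  simpa using h1

/-- Lower bound of the coefficients. -/
theorem Lnk.cof_low (k : Lnk U T l R1 h L0 DT ν a0) {A : ℕ → ℝ → ℝ} {n : ℕ}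
    {t : ℝ} (hA : k.par.a0 / 2 * (1.5 ^ (n + 1) * k.par.PL (n + 1)) ≤ A (n + 2) t) :
    a0 / 2 * (1.5 ^ n * (h.sc.σ n / s0) ^ (α * γ)) / h.sc.σ n ^ 5
      ≤ cofG (h.sc.Q U T) A (n + 2) t := by
  have hσ := h.sc.σ_pos n
  have hs := h.s0_pos
  have hβ := β0_pos
  have ha0 := k.ha0
  rw [k.PL1] at hA
  have e0 : k.par.a0 = a0 := rfl
  rw [e0] at hA
  have hR1 : 1 ≤ R ^ α := Real.one_le_rpow h.R1.le h.hα.le
  have h0 : 0 < a0 / 2 * (1.5 ^ n * (h.sc.σ n / s0) ^ (α * γ)) := by positivity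
  have h01 : a0 / 2 * (1.5 ^ n * (h.sc.σ n / s0) ^ (α * γ)) ≤ A (n + 2) t := by
    refine le_trans ?_ hA
    apply mul_le_mul_of_nonneg_left _ (by positivity)
    apply mul_le_mul
    · rw [pow_succ]
      have : (0 : ℝ) < 1.5 ^ n := by positivity
      linarith
    · have : 0 < (h.sc.σ n / s0) ^ (α * γ) := by positivity
      nlinarith
    · positivity
    · positivity
  have h5 : 1 / h.sc.σ n ^ 5 ≤ h.sc.kap (n + 1) := by
    rw [h.sc.kap_succ, div_le_div_iff₀ (by positivity) (by positivity)]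
    have := h.sc.nn_low (n + 1)
    have h6 : 0 < h.sc.σ n ^ 5 := by positivity
    nlinarith
  unfold cofG
  rw [k.kap_eq, div_eq_inv_mul, ← one_div]
  exact mul_le_mul h5 h01 h0.le (h.sc.kap_pos n).le

/-- Pointwise bound of the velocity. -/
theorem Lnk.vel_bd (k : Lnk U T l R1 h L0 DT ν a0)
    {Tb : ℝ} {A : ℕ → ℝ → ℝ} (S : Sol k.par Tb A) {s : ℝ} (hs : 0 ≤ s)
    (h16 : 16 ≤ R ^ (2 * s - γ * (α * γ - 2))) :
    ∃ C, ∀ t ∈ Ico 0 Tb, ∀ x, ‖vel (h.sc.Q U T) (cofG (h.sc.Q U T) A) t x‖ * ‖x‖ ^ s ≤ C := by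
  obtain ⟨C, hC0, hC⟩ := h.geo hs h16
  obtain ⟨B, hB0, hB⟩ := h.blk_bd
  obtain ⟨M1, m1, b1⟩ := cs_bound k.hd.cu.sm k.hd.cu.cs
  obtain ⟨M2, m2, b2⟩ := cs_bound (Sc.Q2_CF (c := h.sc) k.hd).sm (Sc.Q2_CF (c := h.sc) k.hd).cs
  have hK := Kq_pos h.sc
  have ha0 := k.ha0
  have hk1 := k.kap1_pos
  have hRα : 0 < R ^ α := Real.rpow_pos_of_pos h.R_pos _
  have hg := Sc.goodQ (c := h.sc) (h.sc.wgt h.stp) k.hd k.hl
  set ρ : ℝ := max R1 (17 / 4) with hρ
  have hρ0 : 0 ≤ ρ := by rw [hρ]; exact (by norm_num : (0 : ℝ) ≤ 17 / 4).trans (le_max_right _ _)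
  have hρs : 0 ≤ ρ ^ s := Real.rpow_nonneg hρ0 _
  have hσ0 := h.sc.σ_pos 0
  have hnn : 0 ≤ h.sc.σ 0 ^ (α * γ - 5) := Real.rpow_nonneg hσ0.le _
  set K1 := ρ ^ s * (kapG (h.sc.Q U T) 1 * a0 * M1) with hK1
  set K2 := ρ ^ s * ((8 * R ^ α * Kq * a0 * (8 ^ 0 * h.sc.σ 0 ^ (α * γ - 5))) * M2) with hK2
  set K3 := 8 * R ^ α * Kq * a0 * B * C with hK3
  have hK1' : 0 ≤ K1 := by positivity
  have hK2' : 0 ≤ K2 := by positivity
  have hK3' : 0 ≤ K3 := by positivity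
  refine ⟨(K1 + 2 * K2 + 2 * K3) * 2, fun t ht x => ?_⟩
  have hmem := hg.mem k.pw S ht
  have hxs : 0 ≤ ‖x‖ ^ s := Real.rpow_nonneg (norm_nonneg _) _
  apply mem_smul_bd hg.ch.zero hmem
  have hball : ∀ j, h.sc.Q U T j x ≠ 0 → ‖x‖ ^ s ≤ ρ ^ s := fun j hj =>
    Real.rpow_le_rpow (norm_nonneg _) (hg.ch.ball j x hj) hs
  intro n
  by_cases hx : h.sc.Q U T (n + 1) x = 0
  · rw [hx, smul_zero, norm_zero, mul_zero]
    positivity
  rw [norm_smul, Real.norm_eq_abs]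
  match n with
  | 0 =>
    rw [pow_zero, mul_one]
    have e1 := k.cof_one S ht
    have e2 := b1 x
    have e3 := hball _ hx
    calc ‖x‖ ^ s * (|cofG (h.sc.Q U T) A (0 + 1) t| * ‖h.sc.Q U T (0 + 1) x‖)
        ≤ ρ ^ s * ((kapG (h.sc.Q U T) 1 * a0) * M1) := by
          apply mul_le_mul e3 _ (by positivity) hρs
          exact mul_le_mul e1 e2 (norm_nonneg _) (by positivity)
      _ ≤ _ := by linarith
  | 1 =>
    rw [pow_one]
    have e1 := k.cof_up S 0 ht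
    have e2 := b2 x
    have e3 := hball _ hx
    calc ‖x‖ ^ s * (|cofG (h.sc.Q U T) A (1 + 1) t| * ‖h.sc.Q U T (1 + 1) x‖)
        ≤ ρ ^ s * ((8 * R ^ α * Kq * a0 * (8 ^ 0 * h.sc.σ 0 ^ (α * γ - 5))) * M2) := by
          apply mul_le_mul e3 _ (by positivity) hρs
          exact mul_le_mul e1 e2 (norm_nonneg _) (by positivity)
      _ ≤ _ := by linarith
  | m + 2 =>
    have hσ := h.sc.σ_pos (m + 1)
    have hx' : h.sc.P (m + 2) x ≠ 0 := hx
    have h1 := hC (m + 1) x (h.sc.supp_ball hx')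
    have h2 := k.cof_up S (m + 1) ht
    have h3 := hB (m + 1) x
    calc ‖x‖ ^ s * (|cofG (h.sc.Q U T) A (m + 2 + 1) t| * ‖h.sc.P (m + 2) x‖)
        ≤ ‖x‖ ^ s * ((8 * R ^ α * Kq * a0 * (8 ^ (m + 1) * h.sc.σ (m + 1) ^ (α * γ - 5)))
          * (h.sc.σ (m + 1) ^ 3 * B)) := by
          apply mul_le_mul_of_nonneg_left _ hxs
          exact mul_le_mul h2 h3 (norm_nonneg _) (by positivity)
      _ = 8 * R ^ α * Kq * a0 * B * (8 ^ (m + 1)
          * (h.sc.σ (m + 1) ^ (α * γ - 5) * h.sc.σ (m + 1) ^ (3 : ℕ)) * ‖x‖ ^ s) := by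
          ring
      _ = 8 * R ^ α * Kq * a0 * B * (8 ^ (m + 1) * h.sc.σ (m + 1) ^ (α * γ - 2) * ‖x‖ ^ s) := by
          rw [← Real.rpow_natCast (h.sc.σ (m + 1)) 3, ← Real.rpow_add hσ]
          congr 4
          push_cast
          ring
      _ ≤ 8 * R ^ α * Kq * a0 * B * (C * (1 / 2) ^ (m + 1)) :=
          mul_le_mul_of_nonneg_left h1 (by positivity)
      _ = 2 * K3 * (1 / 2) ^ (m + 2) := by
          rw [hK3]
          ring
      _ ≤ _ := by
          apply mul_le_mul_of_nonneg_right _ (by positivity)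
          linarith

/-- The third power integral tends to infinity. -/
theorem Lnk.cubic (k : Lnk U T l R1 h L0 DT ν a0) (h4 : 4 ≤ α * γ)
    {Tb : ℝ} {A : ℕ → ℝ → ℝ} (S : Sol k.par Tb A) :
    Tendsto (fun t => ∫ x, ‖vel (h.sc.Q U T) (cofG (h.sc.Q U T) A) t x‖ ^ 3) (𝓝[<] Tb) atTop := by
  have hm0 := sm1_pos
  have hs := h.s0_pos
  have ha0 := k.ha0
  have hg := Sc.goodQ (c := h.sc) (h.sc.wgt h.stp) k.hd k.hl
  have hT := hg.TF k.pw S
  have ht : Tendsto (fun n : ℕ => (a0 / 2 / s0 ^ (α * γ)) * (1.5 : ℝ) ^ n) atTop atTop := by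
    apply Tendsto.const_mul_atTop (by positivity)
    exact tendsto_pow_atTop_atTop_of_one_lt (by norm_num)
  have ht3 : Tendsto (fun n : ℕ => ((a0 / 2 / s0 ^ (α * γ)) * (1.5 : ℝ) ^ n) ^ 3 * sm1)
      atTop atTop :=
    ((tendsto_pow_atTop (by norm_num)).comp ht).atTop_mul_const hm0
  rw [tendsto_atTop]
  intro M
  obtain ⟨n, hn⟩ := (ht3.eventually_ge_atTop M).exists
  obtain ⟨σ, h0, h1, h2⟩ := S.low (n + 1)
  filter_upwards [Ioo_mem_nhdsLT h1] with t ht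
  have htm : t ∈ Ico 0 Tb := ⟨h0.trans ht.1.le, ht.2⟩
  refine hn.trans ?_
  refine le_trans ?_ (Sc.cubic_lowerQ k.hd k.hl (hg.mem k.pw S htm) (hT.slice_CF htm) n)
  apply mul_le_mul_of_nonneg_right _ hm0.le
  apply pow_le_pow_left₀ (by positivity)
  have hlow := k.cof_low (h2 t ht)
  have hσ := h.sc.σ_pos n
  have hσ1 := h.sc.σ_one n
  refine le_trans ?_ (mul_le_mul_of_nonneg_right (hlow.trans (le_abs_self _)) hσ.le)
  have ez : (h.sc.σ n / s0) ^ (α * γ) = h.sc.σ n ^ (α * γ) / s0 ^ (α * γ) :=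
    Real.div_rpow hσ.le hs.le _
  rw [ez]
  have e2 : h.sc.σ n ^ 4 ≤ h.sc.σ n ^ (α * γ) := by
    rw [← Real.rpow_natCast]
    apply Real.rpow_le_rpow_of_exponent_le hσ1
    push_cast
    linarith
  have hsp : 0 < s0 ^ (α * γ) := by positivity
  have e3 : a0 / 2 * (1.5 ^ n * (h.sc.σ n ^ (α * γ) / s0 ^ (α * γ))) / h.sc.σ n ^ 5
      * h.sc.σ n = (a0 / 2 / s0 ^ (α * γ)) * 1.5 ^ n * (h.sc.σ n ^ (α * γ) / h.sc.σ n ^ 4) := by
    field_simp
  rw [e3]
  have e4 : 1 ≤ h.sc.σ n ^ (α * γ) / h.sc.σ n ^ 4 := by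
    rw [one_le_div (by positivity)]
    exact e2
  have e5 : 0 < (a0 / 2 / s0 ^ (α * γ)) * (1.5 : ℝ) ^ n := by positivity
  nlinarith

/-- The supremum tends to infinity. -/
theorem sup_of_cubic {Tb ρ : ℝ} {u : ℝ → V → V} (hT : 0 < Tb)
    (hsp : ∀ t ∈ Ico 0 Tb, ∀ x : V, ρ < ‖x‖ → u t x = 0)
    (hcub : Tendsto (fun t => ∫ x, ‖u t x‖ ^ 3) (𝓝[<] Tb) atTop) :
    ∀ M, ∀ᶠ t in 𝓝[<] Tb, ∃ x, M < ‖u t x‖ := by
  intro M
  have h2 := hcub.eventually_gt_atTop
    (|M| ^ 3 * (volume : Measure V).real (Metric.closedBall 0 ρ))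
  filter_upwards [h2, Ioo_mem_nhdsLT hT] with t ht htI
  by_contra hcon
  push Not at hcon
  have htm : t ∈ Ico 0 Tb := ⟨htI.1.le, htI.2⟩
  have h3 : ∫ x, ‖u t x‖ ^ 3 ≤ ∫ x, (Metric.closedBall (0 : V) ρ).indicator (fun _ => |M| ^ 3) x := by
    apply integral_mono_of_nonneg
    · exact Eventually.of_forall fun x => by positivity
    · rw [integrable_indicator_iff measurableSet_closedBall]
      exact integrableOn_const (isCompact_closedBall (0 : V) ρ).measure_ne_top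
    · apply Eventually.of_forall
      intro x
      by_cases hx : x ∈ Metric.closedBall (0 : V) ρ
      · rw [indicator_of_mem hx]
        exact pow_le_pow_left₀ (norm_nonneg _) ((hcon x).trans (le_abs_self M)) 3
      · rw [indicator_of_notMem hx]
        have h4 : u t x = 0 := by
          apply hsp t htm x
          rw [mem_closedBall_zero_iff, not_le] at hx
          exact hx
        show ‖u t x‖ ^ 3 ≤ 0
        rw [h4]
        simp
  rw [integral_indicator measurableSet_closedBall, setIntegral_const, smul_eq_mul] at h3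
  linarith

end Pool.Agent.Run7.h407.G.X
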