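import Mathlib
import Pool.Agent.Run7.h407.D.Grw
import Pool.Agent.Run7.h407.G.NSf

/-!
The Navier-Stokes equations: assembly for a chain with first field `U`.
-/

namespace Pool.Agent.Run7.h407.G.X

open Set Filter Topology MeasureTheory
open scoped ContDiff

/-- The modes and the constraint fields. -/
structure Fam (q : ℝ) (z : V) (U : V → V) (p : ℕ → V → V) (g : ℕ → Fin 3 → V → V) : Prop where
  zero : p 0 = U
  mode : ∀ n, ContDiff ℝ ∞ (p n) ∧ HasCompactSupport (p n) ∧ (∀ x, dvg (p n) x = 0) ∧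
      0 < ip (p n) (p n)
  orth : ∀ m n, m ≠ n → ip (p m) (p n) = 0 ∧ Dir (p m) (p n) = 0
  field : ∀ n i, ContDiff ℝ ∞ (g n i) ∧ HasCompactSupport (g n i) ∧ ∀ᶠ x in 𝓝 z, g n i x = 0
  ball : ∀ n i x, g (n + 3) i x ≠ 0 → ‖x - z‖ ≤ (2 : ℝ) ^ (-(q ^ (n + 2)))
  big : ∃ W : Submodule ℝ (V → V), IsSpG p g W ∧ ∀ w, w ∈ W ↔ L2F w ∧ WDF w ∧
      ∀ (n : ℕ) (i : Fin 3), ip w (g n i) = 0

/-- Blow-up from the datum `v` before the time `T₀`. -/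
def Blo (δ : ℝ) (z : V) (ρ : ℝ) (p : ℕ → V → V) (g : ℕ → Fin 3 → V → V) (ν : ℝ) (v : V → V)
    (T₀ : ℝ) : Prop :=
  ∃ T, 0 < T ∧ T ≤ T₀ ∧ ∃ u : ℝ → V → V, u 0 = v ∧
    (∀ t ∈ Ico 0 T, ∀ x, ρ < ‖x - z‖ → u t x = 0) ∧
    (∃ C, ∀ t ∈ Ico 0 T, ∀ x, ‖u t x‖ * ‖x - z‖ ^ (1 + δ) ≤ C) ∧
    Tendsto (fun t => ∫ x, ‖u t x‖ ^ 3) (𝓝[<] T) atTop ∧
    (∀ M, ∀ᶠ t in 𝓝[<] T, ∃ x, M < ‖u t x‖) ∧
    ∀ W : Submodule ℝ (V → V), IsSpG p g W → IsProj W ν T u ∧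
      ∀ (T' : ℝ) (w : ℝ → V → V), IsProj W ν T' w → w 0 = v →
        T' ≤ T ∧ ∀ t ∈ Ico 0 T', w t = u t

theorem Blo.mono {δ ρ : ℝ} {z : V} {p : ℕ → V → V} {g : ℕ → Fin 3 → V → V} {ν : ℝ} {v : V → V}
    {T₀ T₁ : ℝ} (h : Blo δ z ρ p g ν v T₀) (hT : T₀ ≤ T₁) : Blo δ z ρ p g ν v T₁ := by
  obtain ⟨T, h1, h2, h3⟩ := h
  exact ⟨T, h1, h2.trans hT, h3⟩

variable {U T : V → V} {l R1 : ℝ}

theorem Lnk.change {α γ s0 R L0 DT : ℝ} {h : Pre α γ s0 R} (k : Lnk U T l R1 h L0 DT 0 1)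
    {ν a0 : ℝ} (hν : 0 ≤ ν) (ha0 : 0 < a0)
    (h4 : 200 * (ν * Dir U U / ip U U) * L0 ≤ a0)
    (h5 : 200 * (ν * (h.sc.σ 0 ^ 4 * (DT + Dup)) / β0) ≤ a0)
    (h6 : ∀ k, 200 * (ν * (h.sc.σ (k + 1) ^ 4 * Dup) / β0)
      ≤ a0 * ∏ i ∈ Finset.range (k + 1), rh R γ i ^ α) : Lnk U T l R1 h L0 DT ν a0 :=
  { hd := k.hd, hl := k.hl, hb := k.hb, hc := k.hc, hL := k.hL, hL' := k.hL', h1 := k.h1,
    h2 := k.h2, hDT := k.hDT, h3 := k.h3, hν := hν, ha0 := ha0, h4 := h4, h5 := h5, h6 := h6,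
    h7 := k.h7, h8 := k.h8, h9 := k.h9 }

theorem nhds0_of_aw {g : V → V} (hg : Aw0 g) : ∀ᶠ x in 𝓝 (0 : V), g x = 0 := by
  obtain ⟨b, hb, hz⟩ := hg
  filter_upwards [nhds_ltn (show ‖(0 : V)‖ < b by rw [norm_zero]; exact hb)] with y hy
  exact hz y hy

theorem mainQ {q s0 R L0 DT : ℝ} {h : Pre 4 q s0 R} (k0 : Lnk U T l R1 h L0 DT 0 1)
    (hlR : l ≤ R1)
    (δ : ℝ) (hδ : 0 ≤ 1 + δ) (h16 : 16 ≤ R ^ (2 * (1 + δ) - q * (4 * q - 2)))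
    (hs1 : 17 / 4 / s0 ^ 2 ≤ (2 : ℝ) ^ (-(q ^ 2))) (hR2 : (2 : ℝ) ^ (q ^ 3) ≤ R ^ 2) :
    ∃ (p : ℕ → V → V) (g : ℕ → Fin 3 → V → V), Fam q 0 U p g ∧
      ∀ ν ≥ 0, ∀ a > 0,
        200 * kapG (h.sc.Q U T) 1 * (Dir U U / ip U U * L0) * ν ≤ a →
        200 * kapG (h.sc.Q U T) 1 * (s0 ^ 4 * (DT + Dup) / β0) * ν ≤ a →
        Blo δ 0 R1 p g ν (fun x => a • U x) (9 * L0 * kapG (h.sc.Q U T) 1 / a) := by
  have hR := h.R_pos
  have hβ := β0_pos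
  have hD := Dup_nonneg h.sc
  have hs0 := h.s0_pos
  have hL := k0.hL
  have hch := Sc.chnQ k0.hd k0.hl
  have hG : ∀ n i, L2F (G3 (h.sc.Q U T) n i) := fun n i => (ChN.G3_CF hch n i).l2
  have hsb : ∀ {n k : ℕ}, n ≤ k → Sb ((2 : ℝ) ^ (-(q ^ n))) (h.sc.P k) :=
    fun hk => h.sb hs1 hR2 hk
  have hUU := k0.hd.n0
  have hDU := Dir_nonneg' U
  have hDT := k0.DT0
  set κ := kapG (h.sc.Q U T) 1 with hκdef
  have hκ : 0 < κ := k0.kap1_pos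
  refine ⟨fun n => h.sc.Q U T (n + 1), G3 (h.sc.Q U T), ⟨rfl, fun n => ?_, fun m n hmn => ?_,
    fun n i => ?_, fun n i => ?_,
    ⟨WmaxG (G3 (h.sc.Q U T)) hG, ChN.WmaxG_isSp hch hG, fun w => Iff.rfl⟩⟩, ?_⟩
  · exact ⟨(hch.cf _).sm, (hch.cf _).cs, hch.dv _, hch.N0 n⟩
  · exact hch.orth (by omega)
  · exact ⟨(ChN.G3_CF hch n i).sm, (ChN.G3_CF hch n i).cs, nhds0_of_aw (ChN.G3_aw hch n i)⟩
  · have : Sb ((2 : ℝ) ^ (-(q ^ (n + 2)))) (G3 h.sc.P (n + 2) i) := by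
      fin_cases i
      · exact sb_A (hsb le_rfl) (hsb (by omega)) (hsb (by omega))
      · exact sb_B (hsb (by omega)) (hsb (by omega))
      · exact sb_C (hsb (by omega))
    intro x hx
    rw [sub_zero]
    exact this x hx
  intro ν hν a ha hc1 hc2
  have hL0 : 0 < L0 := by linarith
  have ha0 : 0 < a / κ := by positivity
  have c4 : 200 * (ν * Dir U U / ip U U) * L0 ≤ a / κ := by
    rw [le_div_iff₀ hκ]
    refine le_trans (le_of_eq ?_) hc1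
    ring
  have c5 : 200 * (ν * (h.sc.σ 0 ^ 4 * (DT + Dup)) / β0) ≤ a / κ := by
    rw [le_div_iff₀ hκ]
    refine le_trans (le_of_eq ?_) hc2
    rw [h.sc.σ_zero]
    show 200 * (ν * (s0 ^ 4 * (DT + Dup)) / β0) * κ = _
    ring
  have c6 : ∀ k, 200 * (ν * (h.sc.σ (k + 1) ^ 4 * Dup) / β0)
      ≤ a / κ * ∏ i ∈ Finset.range (k + 1), rh R q i ^ (4 : ℝ) := by
    intro k
    have hpow : ∀ x : ℝ, x ^ (4 : ℝ) = x ^ (4 : ℕ) := fun x => by norm_cast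
    have e1 : ∏ i ∈ Finset.range (k + 1), rh R q i ^ (4 : ℝ)
        = (∏ i ∈ Finset.range (k + 1), rh R q i) ^ 4 := by
      rw [← Finset.prod_pow]
      apply Finset.prod_congr rfl
      intro i _
      exact hpow _
    have e2 : 200 * (ν * (h.sc.σ (k + 1) ^ 4 * Dup) / β0)
        = 200 * (ν * (Dup * s0 ^ 4 / β0)) * (∏ i ∈ Finset.range (k + 1), rh R q i) ^ 4 := by
      rw [h.σ_eq, mul_pow]
      ring
    have e3 : 200 * (ν * (Dup * s0 ^ 4 / β0)) ≤ a / κ := by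
      rw [le_div_iff₀ hκ]
      refine le_trans ?_ hc2
      have e4 : 200 * (ν * (Dup * s0 ^ 4 / β0)) * κ = 200 * κ * (s0 ^ 4 * Dup / β0) * ν := by
        ring
      rw [e4]
      apply mul_le_mul_of_nonneg_right _ hν
      apply mul_le_mul_of_nonneg_left _ (by positivity)
      apply div_le_div_of_nonneg_right _ hβ.le
      apply mul_le_mul_of_nonneg_left _ (by positivity)
      linarith
    rw [e1, e2]
    exact mul_le_mul_of_nonneg_right e3 (by positivity)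
  have k := k0.change hν ha0 c4 c5 c6
  have hg := Sc.goodQ (c := h.sc) (h.sc.wgt h.stp) k.hd k.hl
  obtain ⟨Tb, A, S⟩ := exists_sol k.par k.e0
  have hinit : ∀ x, vel (h.sc.Q U T) (cofG (h.sc.Q U T) A) 0 x = a • U x := by
    intro x
    rw [velG_init S x]
    show (κ * (a / κ)) • U x = a • U x
    congr 1
    field_simp
  have hq4 : 4 ≤ 4 * q := by linarith [h.hγ]
  have hcub := k.cubic hq4 S
  have hsp : ∀ t ∈ Ico 0 Tb, ∀ x : V, R1 < ‖x‖ →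
      vel (h.sc.Q U T) (cofG (h.sc.Q U T) A) t x = 0 := fun t ht x hx =>
    mem_ball (Sc.Q_ball k.hd k.hl hlR) (hg.mem k.pw S ht) hx
  have hsup := sup_of_cubic S.Tpos hsp hcub
  refine ⟨Tb, S.Tpos, ?_, vel (h.sc.Q U T) (cofG (h.sc.Q U T) A), funext hinit,
    fun t ht x hx => hsp t ht x (by rwa [sub_zero] at hx), ?_, hcub, hsup,
    fun W hW => ⟨hg.isProj k.fit k.pw S hW, fun T' w hw' h0 => ?_⟩⟩
  · refine S.Tle.trans ?_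
    show 9 * L0 / (a / κ) ≤ 9 * L0 * κ / a
    apply le_of_eq
    field_simp
  · simp only [sub_zero]
    exact k.vel_bd S hδ h16
  · exact hg.max k.fit k.pw S hν hW hsup hw' fun x => by rw [h0, hinit]

end Pool.Agent.Run7.h407.G.X
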