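import Mathlib
import Pool.Agent.Run7.h407.D.NSq

/-!
The choice of the parameters for a given first field.
-/

namespace Pool.Agent.Run7.h407.G.X

open Set Filter Topology MeasureTheory
open scoped ContDiff

/-- The fields from which the second field of the chain is built. -/
structure Src (U T0 φ : V → V) (l R1 : ℝ) : Prop where
  l0 : 0 < l
  lR : l ≤ R1
  cu : CF U
  du : ∀ x, dvg U x = 0
  ct : CF T0
  dt : ∀ x, dvg T0 x = 0
  cf : CF φ
  df : ∀ x, dvg φ x = 0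
  su : ∀ x, U x ≠ 0 → l ≤ ‖x‖ ∧ ‖x‖ ≤ R1
  st : ∀ x, T0 x ≠ 0 → l ≤ ‖x‖ ∧ ‖x‖ ≤ R1
  sf : ∀ x, φ x ≠ 0 → l ≤ ‖x‖ ∧ ‖x‖ ≤ R1
  n0 : 0 < ip U U
  iut : ip U T0 = 0
  dut : Dir U T0 = 0
  tut : tri U U T0 = 0
  b0 : 0 < -tri T0 U T0
  iuf : ip U φ = 0
  duf : Dir U φ = 0
  tuf : tri U U φ = -1

/-- The second field. -/
noncomputable def Tc (T0 φ : V → V) (c : ℝ) : V → V := fun x => T0 x + c • φ x

theorem tri_add_right {u v w1 w2 : V → V} (hu : CF u) (hv : CF v) (h1 : CF w1) (h2 : CF w2) :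
    tri u v (fun x => w1 x + w2 x) = tri u v w1 + tri u v w2 := by
  have e : ∀ w, tri u v w = ip w (adv u v) := fun w => by
    rw [ip_comm]
    rfl
  rw [e, e, e, ip_add_left h1 h2 (adv_CF hu hv)]

theorem tri_smul_right (c : ℝ) (u v w : V → V) : tri u v (fun x => c • w x) = c * tri u v w := by
  have e : ∀ w, tri u v w = ip w (adv u v) := fun w => by
    rw [ip_comm]
    rfl
  rw [e, e, ip_smul_left]

variable {U T0 φ : V → V} {l R1 : ℝ}

namespace Src

theorem dat (S : Src U T0 φ l R1) (c : ℝ) : Dat U (Tc T0 φ c) l R1 where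
  l0 := S.l0
  cu := S.cu
  du := S.du
  ct := S.ct.add (S.cf.smul c)
  dt := fun x => by
    have h1 := dvg_add S.ct (S.cf.smul c) x
    have h2 := dvg_smul c S.cf x
    unfold Tc
    rw [h1, h2, S.dt, S.df, mul_zero, add_zero]
  su := S.su
  st := fun x hx => by
    by_cases hT : T0 x = 0
    · apply S.sf x
      intro h
      apply hx
      show T0 x + c • φ x = 0
      rw [hT, h, smul_zero, add_zero]
    · exact S.st x hT
  n0 := S.n0
  iut := by
    unfold Tc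
    rw [ip_comm, ip_add_left S.ct (S.cf.smul c) S.cu, ip_smul_left, ip_comm, S.iut, ip_comm,
      S.iuf, mul_zero, add_zero]
  dut := by
    unfold Tc
    rw [Dir_comm, Dir_add_left S.ct (S.cf.smul c) S.cu, Dir_smul_left _ S.cf, Dir_comm, S.dut,
      Dir_comm, S.duf, mul_zero, add_zero]

theorem tuT (S : Src U T0 φ l R1) (c : ℝ) : tri U U (Tc T0 φ c) = -c := by
  unfold Tc
  rw [tri_add_right S.cu S.cu S.ct (S.cf.smul c), tri_smul_right, S.tut, S.tuf]
  ring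

theorem bT (S : Src U T0 φ l R1) (c : ℝ) : -tri (Tc T0 φ c) U (Tc T0 φ c)
    = -tri T0 U T0 + c * (-tri T0 U φ - tri φ U T0) + c ^ 2 * (-tri φ U φ) := by
  have h1 := S.ct
  have h2 := S.cf.smul c
  unfold Tc
  rw [tri_add_left h1 h2 S.cu (h1.add h2), tri_add_right h1 S.cu h1 h2,
    tri_add_right h2 S.cu h1 h2, tri_smul_left, tri_smul_left, tri_smul_right, tri_smul_right]
  ring

theorem iT (S : Src U T0 φ l R1) (c : ℝ) : ip (Tc T0 φ c) (Tc T0 φ c)
    = ip T0 T0 + c * (2 * ip T0 φ) + c ^ 2 * ip φ φ := by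
  have h1 := S.ct
  have h2 := S.cf.smul c
  have e1 : ip T0 (fun x => c • φ x) = c * ip T0 φ := by
    rw [ip_comm, ip_smul_left, ip_comm]
  have e2 : ip (fun x => c • φ x) (fun x => c • φ x) = c * (c * ip φ φ) := by
    rw [ip_smul_left, ip_comm, ip_smul_left]
  unfold Tc
  rw [ip_add_self h1 h2, e1, e2]
  ring

theorem DT (S : Src U T0 φ l R1) (c : ℝ) : Dir (Tc T0 φ c) (Tc T0 φ c)
    = Dir T0 T0 + c * (2 * Dir T0 φ) + c ^ 2 * Dir φ φ := by
  have h1 := S.ct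
  have h2 := S.cf.smul c
  have e1 : Dir T0 (fun x => c • φ x) = c * Dir T0 φ := by
    rw [Dir_comm, Dir_smul_left _ S.cf, Dir_comm]
  have e2 : Dir (fun x => c • φ x) (fun x => c • φ x) = c * (c * Dir φ φ) := by
    rw [Dir_smul_left _ S.cf, Dir_comm, Dir_smul_left _ S.cf]
  unfold Tc
  rw [Dir_add_self h1 h2, e1, e2]
  ring

end Src

theorem exp3_tend : Tendsto (fun x : ℝ => Real.exp (-(3 * x))) atTop (𝓝 0) := by
  have h := exp_tend0 (α := 1) one_pos 1 (b := 3) (by norm_num)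
  simpa using h

theorem quad_tend (a b d : ℝ) :
    Tendsto (fun x : ℝ => a + Real.exp (-(3 * x)) * b + Real.exp (-(3 * x)) ^ 2 * d) atTop
      (𝓝 a) := by
  have h1 := exp3_tend.mul_const b
  have h2 := (exp3_tend.pow 2).mul_const d
  have h3 := (tendsto_const_nhds (x := a)).add h1
  have h4 := h3.add h2
  simpa using h4

theorem poly_exp {b : ℝ} (hb : 0 < b) (K : ℝ) :
    Tendsto (fun x : ℝ => K * (x ^ 5 * Real.exp (-(b * x)))) atTop (𝓝 0) := by
  have h := (exp_tend (α := 1) one_pos 5 hb).const_mul K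
  rw [mul_zero] at h
  refine h.congr fun x => ?_
  have e : x ^ (5 : ℝ) = x ^ (5 : ℕ) := by norm_cast
  rw [e, Real.rpow_one]

/-- All the inequalities for the ratio `R`. -/
structure ROk (V0 T0 φ : V → V) (l q η R : ℝ) : Prop where
  big : 1000 ≤ R
  cnd : ∀ x, R ≤ x → Cnd 4 q x
  e1 : 17 / 4 < R ^ 2 * l
  b1 : -tri T0 V0 T0 / 2 < -tri (Tc T0 φ (Real.exp (-(3 * R)))) V0 (Tc T0 φ (Real.exp (-(3 * R))))
  b2 : -tri (Tc T0 φ (Real.exp (-(3 * R)))) V0 (Tc T0 φ (Real.exp (-(3 * R))))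
    < 2 * -tri T0 V0 T0
  i1 : ip (Tc T0 φ (Real.exp (-(3 * R)))) (Tc T0 φ (Real.exp (-(3 * R)))) < ip T0 T0 + 1
  d1 : Dir (Tc T0 φ (Real.exp (-(3 * R)))) (Tc T0 φ (Real.exp (-(3 * R)))) < Dir T0 T0 + 1
  e4 : 10000 * ((2 * -tri T0 V0 T0) ^ 2 * Nup ^ 2 / (ip V0 V0 * β0 * β0 ^ 2)) ≤ R ^ 2
  e5 : Dir V0 V0 / ip V0 V0 * (ip T0 T0 + 1 + Nup) / S0 ≤ R ^ 4
  e6 : (Dir T0 T0 + 1 + Dup) * Nup / (β0 * S0) ≤ R ^ 4
  e7 : 4 * ((2 * -tri T0 V0 T0) ^ 2 * Nup) / (β0 * β0) ≤ Real.exp R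
  e8 : 4 * ((ip T0 T0 + 1 + Nup) * β0 / ((-tri T0 V0 T0 / 2) ^ 2 * β0))
    * (R ^ 5 * Real.exp (-(0.7 * R))) ≤ 1 / 100
  e9 : (ip T0 T0 + 1 + Nup) * β0 / ((-tri T0 V0 T0 / 2) ^ 2 * β0)
    * (R ^ 5 * Real.exp (-(3 * R))) ≤ 1 / 1000000
  e10 : 16 ≤ R ^ η
  e11 : (2 : ℝ) ^ (q ^ 3) ≤ R ^ 2
  e12 : 17 / 4 / (2 : ℝ) ^ (-(q ^ 2)) ≤ R ^ 2

theorem Src.exists_R {q : ℝ} (hq5 : q < 5 / 4) (S : Src U T0 φ l R1) {η : ℝ}
    (hη : 0 < η) : ∃ R : ℝ, ROk U T0 φ l q η R := by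
  have hl0 := S.l0
  have hb0 := S.b0
  obtain ⟨X, hX⟩ := (cnd_eventually (α := 4) (γ := q) (by norm_num)
    (by linarith)).exists_forall_of_atTop
  have hp : ∀ (k : ℕ), k ≠ 0 → ∀ c : ℝ, ∀ᶠ x : ℝ in atTop, c ≤ x ^ k := fun k hk c =>
    (tendsto_pow_atTop hk).eventually_ge_atTop _
  have E1 := hp 2 two_ne_zero ((17 / 4 + 1) / l)
  have E2a := (quad_tend (-tri T0 U T0) (-tri T0 U φ - tri φ U T0)
    (-tri φ U φ)).eventually_const_lt (show -tri T0 U T0 / 2 < -tri T0 U T0 by linarith)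
  have E2b := (quad_tend (-tri T0 U T0) (-tri T0 U φ - tri φ U T0)
    (-tri φ U φ)).eventually_lt_const (show -tri T0 U T0 < 2 * -tri T0 U T0 by linarith)
  have E3a := (quad_tend (ip T0 T0) (2 * ip T0 φ) (ip φ φ)).eventually_lt_const
    (show ip T0 T0 < ip T0 T0 + 1 by linarith)
  have E3b := (quad_tend (Dir T0 T0) (2 * Dir T0 φ) (Dir φ φ)).eventually_lt_const
    (show Dir T0 T0 < Dir T0 T0 + 1 by linarith)
  have E4 := hp 2 two_ne_zero (10000 * ((2 * -tri T0 U T0) ^ 2 * Nup ^ 2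
    / (ip U U * β0 * β0 ^ 2)))
  have E5 := hp 4 four_ne_zero (Dir U U / ip U U * (ip T0 T0 + 1 + Nup) / S0)
  have E6 := hp 4 four_ne_zero ((Dir T0 T0 + 1 + Dup) * Nup / (β0 * S0))
  have E7 : ∀ᶠ x : ℝ in atTop, 4 * ((2 * -tri T0 U T0) ^ 2 * Nup) / (β0 * β0) ≤ Real.exp x :=
    Real.tendsto_exp_atTop.eventually_ge_atTop _
  have E8 := (poly_exp (b := 0.7) (by norm_num) (4 * ((ip T0 T0 + 1 + Nup) * β0
    / ((-tri T0 U T0 / 2) ^ 2 * β0)))).eventually_le_const (show (0 : ℝ) < 1 / 100 by norm_num)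
  have E9 := (poly_exp (b := 3) (by norm_num) ((ip T0 T0 + 1 + Nup) * β0
    / ((-tri T0 U T0 / 2) ^ 2 * β0))).eventually_le_const
      (show (0 : ℝ) < 1 / 1000000 by norm_num)
  have E10 : ∀ᶠ x : ℝ in atTop, 16 ≤ x ^ η := (tendsto_rpow_atTop hη).eventually_ge_atTop _
  have E11 := hp 2 two_ne_zero ((2 : ℝ) ^ (q ^ 3))
  have E12 := hp 2 two_ne_zero (17 / 4 / (2 : ℝ) ^ (-(q ^ 2)))
  obtain ⟨R, ⟨⟨⟨⟨⟨⟨⟨⟨⟨⟨⟨⟨⟨e1, e2a⟩, e2b⟩, e3a⟩, e3b⟩, e4⟩, e5⟩, e6⟩, e7⟩, e8⟩, e9⟩, e10⟩, e11⟩,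
    e12⟩, e13⟩ := ((((((((((((((E1.and E2a).and E2b).and E3a).and E3b).and E4).and E5).and
      E6).and E7).and E8).and E9).and E10).and E11).and E12).and
      (eventually_ge_atTop (max X 1000))).exists
  rw [← S.bT] at e2a e2b
  rw [← S.iT] at e3a
  rw [← S.DT] at e3b
  refine ⟨R, (le_max_right _ _).trans e13, fun x hx => hX x (((le_max_left _ _).trans
    e13).trans hx), ?_, e2a, e2b, e3a, e3b, e4, e5, e6, e7, e8, e9, e10, e11, e12⟩
  rw [div_le_iff₀ hl0] at e1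
  linarith

/-- The first field of the chain. -/
noncomputable def P0 (U V0 : V → V) (b s : ℝ) : V → V := fun x => U x + b • dil s V0 x

/-- The data of the perturbed field. -/
structure Prt (U V0 T0 φ : V → V) (l R1 lU s b : ℝ) : Prop where
  S : Src V0 T0 φ l R1
  cu : CF U
  du : ∀ x, dvg U x = 0
  zu : ∀ x, ‖x‖ < lU → U x = 0
  s1 : 1 ≤ s
  sR : R1 < s ^ 2 * lU
  b0 : 0 < b
  hD : Dir U U * ip V0 V0 ≤ s ^ 4 * Dir V0 V0 * ip U U

namespace Prt

variable {U V0 T0 φ : V → V} {l R1 lU s b : ℝ}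

theorem s0 (h : Prt U V0 T0 φ l R1 lU s b) : 0 < s := by linarith [h.s1]

theorem far (h : Prt U V0 T0 φ l R1 lU s b) {F : V → V} (hF : ∀ x, F x ≠ 0 → ‖x‖ ≤ R1) (x : V) :
    (∀ᶠ y in 𝓝 x, U y = 0) ∨ ∀ᶠ y in 𝓝 x, dil s F y = 0 := by
  have hs := h.s0
  rcases lt_or_ge ‖x‖ lU with hx | hx
  · left
    filter_upwards [nhds_ltn hx] with y hy
    exact h.zu y hy
  · right
    have h1 : R1 / s ^ 2 < ‖x‖ := by
      rw [div_lt_iff₀ (by positivity)]
      have := h.sR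
      nlinarith [pow_pos hs 2]
    filter_upwards [nhds_gtn h1] with y hy
    by_contra hcon
    have h2 : F (s ^ 2 • y) ≠ 0 := by
      intro h3
      apply hcon
      show s ^ 3 • F (s ^ 2 • y) = 0
      rw [h3, smul_zero]
    have h4 := hF _ h2
    rw [norm_smul, Real.norm_eq_abs, abs_of_pos (by positivity)] at h4
    rw [div_lt_iff₀ (by positivity)] at hy
    linarith

theorem cV (h : Prt U V0 T0 φ l R1 lU s b) : CF (dil s V0) := dil_CF h.S.cu h.s0.ne'

theorem locT (h : Prt U V0 T0 φ l R1 lU s b) {F : V → V} (hF : ∀ x, F x ≠ 0 → ‖x‖ ≤ R1) :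
    Loc (dil s F) (P0 U V0 b s) (fun x => b • dil s V0 x) := by
  intro x
  rcases h.far hF x with h1 | h1
  · right
    filter_upwards [h1] with y hy
    show U y + b • dil s V0 y = b • dil s V0 y
    rw [hy, zero_add]
  · exact Or.inl h1

theorem supT (h : Prt U V0 T0 φ l R1 lU s b) (c : ℝ) (x : V) (hx : Tc T0 φ c x ≠ 0) :
    l ≤ ‖x‖ ∧ ‖x‖ ≤ R1 := (h.S.dat c).st x hx

theorem ip0 (h : Prt U V0 T0 φ l R1 lU s b) :
    ip (P0 U V0 b s) (P0 U V0 b s) = ip U U + b ^ 2 * ip V0 V0 := by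
  have c1 := h.cV
  have h1 : ip U (fun x => b • dil s V0 x) = 0 := by
    rw [ip_comm, ip_smul_left, ip_comm, ip_zero_of' fun x => (h.far (fun y hy => (h.S.su y hy).2)
      x).imp (fun h => h.self_of_nhds) (fun h => h.self_of_nhds), mul_zero]
  have e2 : ip (fun x => b • dil s V0 x) (fun x => b • dil s V0 x) = b * (b * ip V0 V0) := by
    rw [ip_smul_left, ip_comm, ip_smul_left, ip_dil _ _ h.s0]
  unfold P0
  rw [ip_add_self h.cu (c1.smul b), h1, e2]
  ring

theorem Dir0 (h : Prt U V0 T0 φ l R1 lU s b) :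
    Dir (P0 U V0 b s) (P0 U V0 b s) = Dir U U + b ^ 2 * (s ^ 4 * Dir V0 V0) := by
  have c1 := h.cV
  have h1 : Dir U (fun x => b • dil s V0 x) = 0 := by
    rw [Dir_comm, Dir_smul_left _ c1, Dir_comm, Dir_zero_of (h.far (fun y hy => (h.S.su y hy).2)),
      mul_zero]
  have e2 : Dir (fun x => b • dil s V0 x) (fun x => b • dil s V0 x)
      = b * (b * (s ^ 4 * Dir V0 V0)) := by
    rw [Dir_smul_left _ c1, Dir_comm, Dir_smul_left _ c1, Dir_dil h.S.cu.smc h.S.cu.smc h.s0]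
  unfold P0
  rw [Dir_add_self h.cu (c1.smul b), h1, e2]
  ring

theorem dat (h : Prt U V0 T0 φ l R1 lU s b) (c : ℝ) {RU : ℝ} (hRU : ∀ x, U x ≠ 0 → ‖x‖ ≤ RU) :
    Dat (P0 U V0 b s) (dil s (Tc T0 φ c)) (l / s ^ 2) (max R1 RU) := by
  have hs := h.s0
  have hs1 : 1 ≤ s ^ 2 := one_le_pow₀ h.s1
  have hd := h.S.dat c
  have cT : CF (dil s (Tc T0 φ c)) := dil_CF hd.ct hs.ne'
  have c1 := h.cV
  have hRp := hd.R0
  have key : ∀ {F : V → V}, (∀ x, F x ≠ 0 → l ≤ ‖x‖ ∧ ‖x‖ ≤ R1) → ∀ x, dil s F x ≠ 0 →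
      l / s ^ 2 ≤ ‖x‖ ∧ ‖x‖ ≤ max R1 RU := by
    intro F hF x hx
    have h2 : F (s ^ 2 • x) ≠ 0 := by
      intro h3
      apply hx
      show s ^ 3 • F (s ^ 2 • x) = 0
      rw [h3, smul_zero]
    have h4 := hF _ h2
    rw [norm_smul, Real.norm_eq_abs, abs_of_pos (by positivity)] at h4
    refine ⟨?_, le_trans ?_ (le_max_left _ _)⟩
    · rw [div_le_iff₀ (by positivity)]
      linarith [h4.1]
    · nlinarith [h4.2, norm_nonneg x]
  refine ⟨div_pos h.S.l0 (by positivity), h.cu.add (c1.smul b), fun x => ?_, cT, fun x => ?_,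
    fun x hx => ?_, key hd.st, ?_, ?_, ?_⟩
  · unfold P0
    rw [dvg_add h.cu (c1.smul b), dvg_smul _ c1, dvg_dil h.S.cu.smc, h.du, h.S.du]
    ring
  · rw [dvg_dil hd.ct.smc, hd.dt, mul_zero]
  · by_cases hV : dil s V0 x = 0
    · have hU : U x ≠ 0 := by
        intro h1
        apply hx
        show U x + b • dil s V0 x = 0
        rw [h1, hV, smul_zero, add_zero]
      have h2 : lU ≤ ‖x‖ := by
        by_contra hcon
        push Not at hcon
        exact hU (h.zu x hcon)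
      refine ⟨?_, (hRU x hU).trans (le_max_right _ _)⟩
      have h3 := h.sR
      have h4 := h.S.lR
      rw [div_le_iff₀ (by positivity)]
      nlinarith
    · exact key h.S.su x hV
  · rw [h.ip0]
    have h1 := ip_nonneg U
    have h2 := h.S.n0
    have h3 := h.b0
    positivity
  · rw [ip_loc (h.locT fun x hx => (h.supT c x hx).2), ip_smul_left, ip_dil _ _ hs, hd.iut,
      mul_zero]
  · rw [Dir_loc (h.locT fun x hx => (h.supT c x hx).2), Dir_smul_left _ c1,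
      Dir_dil h.S.cu.smc hd.ct.smc hs, hd.dut, mul_zero, mul_zero]

theorem bb (h : Prt U V0 T0 φ l R1 lU s b) (c : ℝ) :
    -tri (dil s (Tc T0 φ c)) (P0 U V0 b s) (dil s (Tc T0 φ c))
      = b * (s ^ 5 * -tri (Tc T0 φ c) V0 (Tc T0 φ c)) := by
  rw [tri_loc2 _ (h.locT fun x hx => (h.supT c x hx).2), tri_smul_mid _ h.cV,
    tri_dil h.S.cu.smc h.s0]
  ring

theorem cc (h : Prt U V0 T0 φ l R1 lU s b) (c : ℝ) :
    -tri (P0 U V0 b s) (P0 U V0 b s) (dil s (Tc T0 φ c)) = b ^ 2 * (s ^ 5 * c) := by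
  have hl := h.locT fun x hx => (h.supT c x hx).2
  rw [tri_loc2 _ hl, tri_loc1 _ hl, tri_smul_mid _ h.cV, tri_smul_left,
    tri_dil h.S.cu.smc h.s0, h.S.tuT]
  ring

theorem pre {q η R : ℝ} (hR : ROk V0 T0 φ l q η R) (hq : 1 < q) (hs : 1 ≤ s) :
    Pre 4 q (R * s) R :=
  ⟨by norm_num, hq, by nlinarith [hR.big], by linarith [hR.big], hR.cnd⟩

theorem lnk (h : Prt U V0 T0 φ l R1 lU s b) {q η R : ℝ} (hR' : ROk V0 T0 φ l q η R)
    (hq : 1 < q) {RU : ℝ} (hRU : ∀ x, U x ≠ 0 → ‖x‖ ≤ RU) :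
    Lnk (P0 U V0 b s) (dil s (Tc T0 φ (Real.exp (-(3 * R))))) (l / s ^ 2) (max R1 RU)
      (pre (s := s) hR' hq h.s1) R
      (Dir (Tc T0 φ (Real.exp (-(3 * R)))) (Tc T0 φ (Real.exp (-(3 * R))))) 0 1 ∧
    kapG ((pre (s := s) hR' hq h.s1).sc.Q (P0 U V0 b s)
      (dil s (Tc T0 φ (Real.exp (-(3 * R)))))) 1
      ≤ 2 * (ip T0 T0 + 1 + Nup) / -tri T0 V0 T0 / (b * s ^ 5) ∧
    Dir (P0 U V0 b s) (P0 U V0 b s) / ip (P0 U V0 b s) (P0 U V0 b s)
      ≤ s ^ 4 * (Dir V0 V0 / ip V0 V0) := by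
  have hβ := β0_pos
  have hS := S0_pos
  have hs := h.s0
  have hb := h.b0
  have hN := h.S.n0
  have hb0 := h.S.b0
  have hDV := Dir_nonneg' V0
  have hDU := Dir_nonneg' U
  have hUU := ip_nonneg U
  have hR := hR'.big
  have hR0 : 0 < R := by linarith
  have e4 := hR'.e4
  have e5 := hR'.e5
  have e6 := hR'.e6
  have e7 := hR'.e7
  have e8 := hR'.e8
  have e9 := hR'.e9
  have e2a := hR'.b1
  have e2b := hR'.b2
  have e3a := hR'.i1
  have e3b := hR'.d1
  have hip0 := h.ip0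
  have hDir0 := h.Dir0
  set hp := pre (s := s) hR' hq h.s1 with hpd
  set c := Real.exp (-(3 * R)) with hc
  set N := ip V0 V0 with hNd
  set D := Dir V0 V0 with hDd
  set b0 := -tri T0 V0 T0 with hbd
  set M1 := ip T0 T0 + 1 with hM1
  set M2 := Dir T0 T0 + 1 with hM2
  have hM1p : 0 < M1 := by
    have := ip_nonneg T0
    linarith
  have hM2p : 0 < M2 := by
    have := Dir_nonneg' T0
    linarith
  have hcp : 0 < c := Real.exp_pos _
  have hbb := h.bb c
  have hcc := h.cc c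
  have hd := h.dat c hRU
  set T := Tc T0 φ c with hT
  have cT : CF T := (h.S.dat c).ct
  have hσ0 : hp.sc.σ 0 = R * s := hp.sc.σ_zero
  have hl : 17 / 4 < hp.sc.σ 0 ^ 2 * (l / s ^ 2) := by
    have : hp.sc.σ 0 ^ 2 * (l / s ^ 2) = R ^ 2 * l := by
      rw [hσ0]
      field_simp
    rw [this]
    exact hR'.e1
  have hTT := ip_nonneg T
  have hDT := Dir_nonneg' T
  have iT : ip (dil s T) (dil s T) = ip T T := ip_dil _ _ hs
  have dT : Dir (dil s T) (dil s T) = s ^ 4 * Dir T T := Dir_dil cT.smc cT.smc hs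
  have hDup := Dup_nonneg hp.sc
  have n1 := hp.sc.nn_low 0
  have n2 := hp.sc.nn_up 0
  have n3 := hp.sc.nn_low 1
  have n4 := hp.sc.nn_up 1
  have n5 := hp.sc.dd_low 0
  simp only [zero_add] at n1 n2 n3 n4 n5
  rw [show (1 : ℕ) + 1 = 2 from rfl] at n3 n4
  have hNup : 0 < Nup := hβ.trans_le (n1.trans n2)
  have hpow : ∀ x : ℝ, x ^ (4 : ℝ) = x ^ (4 : ℕ) := fun x => by norm_cast
  set Q := hp.sc.Q (P0 U V0 b s) (dil s T) with hQ
  have g1 : Bb Q 1 = b * (s ^ 5 * -tri T V0 T) := by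
    rw [← hbb]
    exact Sc.bQ1 hd hl
  have g2 : Bb Q 2 = (R * s) ^ 5 * β0 := by
    rw [← hσ0]
    exact Sc.bQ2 hd hl
  have g3 : Cc Q 1 = b ^ 2 * (s ^ 5 * c) := by
    rw [← hcc]
    exact Sc.cQ1 hd hl
  have g4 : Nn Q 1 = ip U U + b ^ 2 * N := hip0
  have g5 : Nn Q 2 = ip T T + Nn hp.sc.P 1 := by
    rw [← iT]
    exact Sc.nQ2 hd hl
  have g6 : Nn Q 3 = Nn hp.sc.P 2 := rfl
  have hR5 : 0 < R ^ 5 := by positivity
  -- bounds of `e`
  have ee : Ee Q 1
      = c * (ip T T + Nn hp.sc.P 1) * (R ^ 5 * β0) / ((-tri T V0 T) ^ 2 * Nn hp.sc.P 2) := by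
    show Cc Q 1 * Nn Q 2 * Bb Q 2 / (Bb Q 1 ^ 2 * Nn Q 3) = _
    rw [g1, g2, g3, g5, g6]
    have hbp : -tri T V0 T ≠ 0 := by linarith
    have hnp : Nn hp.sc.P 2 ≠ 0 := by linarith
    have htp : tri T V0 T ≠ 0 := by
      intro h9
      rw [h9] at hbp
      simp at hbp
    field_simp
  have hsq1 : (-tri T V0 T) ^ 2 ≤ (2 * b0) ^ 2 := pow_le_pow_left₀ (by linarith) e2b.le 2
  have hsq2 : (b0 / 2) ^ 2 ≤ (-tri T V0 T) ^ 2 := pow_le_pow_left₀ (by linarith) e2a.le 2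
  have hbp : 0 < -tri T V0 T := by linarith
  have w1 : 0 < ip T T + Nn hp.sc.P 1 := by linarith
  have w2 : 0 < Nn hp.sc.P 2 := hβ.trans_le n3
  have w3 : 0 < (-tri T V0 T) ^ 2 := pow_pos hbp 2
  have eup : Ee Q 1 ≤ (M1 + Nup) * β0 / ((b0 / 2) ^ 2 * β0) * (R ^ 5 * c) := by
    rw [ee]
    have e : (M1 + Nup) * β0 / ((b0 / 2) ^ 2 * β0) * (R ^ 5 * c)
        = c * (M1 + Nup) * (R ^ 5 * β0) / ((b0 / 2) ^ 2 * β0) := by ring
    rw [e]
    apply div_le_div₀ (by positivity) _ (by positivity)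
    · exact mul_le_mul hsq2 n3 hβ.le (by positivity)
    · apply mul_le_mul_of_nonneg_right _ (by positivity)
      apply mul_le_mul_of_nonneg_left _ hcp.le
      linarith
  have elow : β0 * β0 / ((2 * b0) ^ 2 * Nup) * (R ^ 5 * c) ≤ Ee Q 1 := by
    rw [ee]
    have e : β0 * β0 / ((2 * b0) ^ 2 * Nup) * (R ^ 5 * c)
        = c * β0 * (R ^ 5 * β0) / ((2 * b0) ^ 2 * Nup) := by ring
    rw [e]
    apply div_le_div₀ (by positivity) _ (mul_pos w3 w2)
    · exact mul_le_mul hsq1 n4 (hβ.le.trans n3) (by positivity)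
    · apply mul_le_mul_of_nonneg_right _ (by positivity)
      apply mul_le_mul_of_nonneg_left _ hcp.le
      linarith
  have hep : 0 < Ee Q 1 := lt_of_lt_of_le (by positivity) elow
  have hquo : Dir (P0 U V0 b s) (P0 U V0 b s) / ip (P0 U V0 b s) (P0 U V0 b s)
      ≤ s ^ 4 * (D / N) := by
    rw [hip0, hDir0, div_le_iff₀ (by positivity)]
    have h1 := h.hD
    have h2 : Dir U U ≤ s ^ 4 * (D / N) * ip U U := by
      have h3 : s ^ 4 * (D / N) * ip U U = s ^ 4 * D * ip U U / N := by ring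
      rw [h3, le_div_iff₀ hN]
      exact h1
    have h4 : s ^ 4 * (D / N) * (b ^ 2 * N) = b ^ 2 * (s ^ 4 * D) := by
      field_simp
    linarith
  refine ⟨?_, ?_, hquo⟩
  · exact
    { hd := hd
      hl := hl
      hb := by
        rw [hbb]
        positivity
      hc := by
        rw [hcc]
        positivity
      hL := hR
      hL' := by
        rw [hpow]
        calc R = R ^ 1 := (pow_one R).symm
          _ ≤ R ^ 4 := pow_le_pow_right₀ (by linarith) (by norm_num)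
      h1 := by
        show Bb Q 1 ^ 2 * Nn Q 3 ^ 2 / (Nn Q 1 * Nn Q 2 * Bb Q 2 ^ 2)
            * (R ^ (4 : ℝ)) ^ 2 ≤ 1 / 10000
        rw [g1, g2, g4, g5, g6, hpow]
        have k1 : (b * (s ^ 5 * -tri T V0 T)) ^ 2 * Nn hp.sc.P 2 ^ 2
            / ((ip U U + b ^ 2 * N) * (ip T T + Nn hp.sc.P 1) * ((R * s) ^ 5 * β0) ^ 2)
            ≤ (b * (s ^ 5 * (2 * b0))) ^ 2 * Nup ^ 2
              / ((b ^ 2 * N) * β0 * ((R * s) ^ 5 * β0) ^ 2) := by
          apply div_le_div₀ (by positivity) _ (by positivity)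
          · apply mul_le_mul_of_nonneg_right _ (by positivity)
            apply mul_le_mul _ (by linarith) hβ.le (by positivity)
            linarith
          · have k3 : (b * (s ^ 5 * -tri T V0 T)) ^ 2 ≤ (b * (s ^ 5 * (2 * b0))) ^ 2 := by
              apply pow_le_pow_left₀ (by positivity)
              apply mul_le_mul_of_nonneg_left _ hb.le
              exact mul_le_mul_of_nonneg_left e2b.le (by positivity)
            exact mul_le_mul k3 (pow_le_pow_left₀ (hβ.le.trans n3) n4 2) (sq_nonneg _)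
              (sq_nonneg _)
        refine (mul_le_mul_of_nonneg_right k1 (by positivity)).trans ?_
        have k2 : (b * (s ^ 5 * (2 * b0))) ^ 2 * Nup ^ 2
            / ((b ^ 2 * N) * β0 * ((R * s) ^ 5 * β0) ^ 2) * (R ^ 4) ^ 2
            = (2 * b0) ^ 2 * Nup ^ 2 / (N * β0 * β0 ^ 2) / R ^ 2 := by
          field_simp
        rw [k2, div_le_div_iff₀ (by positivity) (by norm_num)]
        linarith
      h2 := by
        refine hquo.trans ?_
        rw [iT, dT, le_div_iff₀ w1]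
        rw [div_le_iff₀ hS] at e5
        rw [hσ0] at n5
        have k1 : D / N * (ip T T + Nn hp.sc.P 1) ≤ D / N * (M1 + Nup) :=
          mul_le_mul_of_nonneg_left (by linarith) (by positivity)
        have k2 : s ^ 4 * (D / N * (ip T T + Nn hp.sc.P 1)) ≤ s ^ 4 * (R ^ 4 * S0) :=
          mul_le_mul_of_nonneg_left (k1.trans e5) (by positivity)
        have k3 : 0 ≤ s ^ 4 * Dir T T := by positivity
        have k4 : (R * s) ^ 4 * S0 = s ^ 4 * (R ^ 4 * S0) := by ring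
        linarith
      hDT := by
        rw [dT, hσ0]
        apply mul_le_mul_of_nonneg_right _ hDT
        apply pow_le_pow_left₀ hs.le
        nlinarith
      h3 := by
        refine le_trans ?_ e6
        apply div_le_div_of_nonneg_right _ (by positivity)
        apply mul_le_mul_of_nonneg_right _ hNup.le
        linarith
      hν := le_rfl
      ha0 := one_pos
      h4 := by simp
      h5 := by simp
      h6 := fun k => by
        have : 0 ≤ ∏ i ∈ Finset.range (k + 1), rh R q i ^ (4 : ℝ) :=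
          Finset.prod_nonneg fun i _ => Real.rpow_nonneg (hp.rh_pos _).le _
        simpa using this
      h7 := by
        rw [hpow]
        have k1 : Real.exp (4 * R) = Real.exp R * Real.exp (3 * R) := by
          rw [← Real.exp_add]
          congr 1
          ring
        have k2 : c * Real.exp (3 * R) = 1 := by
          rw [hc, ← Real.exp_add]
          simp
        have k3 : 2 ≤ Real.exp (4 * R) := by
          have := Real.add_one_le_exp (4 * R)
          linarith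
        rw [div_le_iff₀ (by positivity)] at e7
        have k4 : 4 * R ^ 5 ≤ Ee Q 1 * Real.exp (4 * R) := by
          calc 4 * R ^ 5 = 4 * ((2 * b0) ^ 2 * Nup) / ((2 * b0) ^ 2 * Nup) * R ^ 5 := by
                field_simp
            _ ≤ Real.exp R * (β0 * β0) / ((2 * b0) ^ 2 * Nup) * R ^ 5 := by
                apply mul_le_mul_of_nonneg_right _ hR5.le
                exact div_le_div_of_nonneg_right e7 (by positivity)
            _ = β0 * β0 / ((2 * b0) ^ 2 * Nup) * (R ^ 5 * c)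
                * (Real.exp R * Real.exp (3 * R)) := by
                have : β0 * β0 / ((2 * b0) ^ 2 * Nup) * (R ^ 5 * c)
                  * (Real.exp R * Real.exp (3 * R)) = Real.exp R * (β0 * β0)
                    / ((2 * b0) ^ 2 * Nup) * R ^ 5 * (c * Real.exp (3 * R)) := by ring
                rw [this, k2, mul_one]
            _ ≤ _ := by
                rw [k1]
                exact mul_le_mul_of_nonneg_right elow (by positivity)
        have k5 : R ^ 4 ≤ R ^ 5 := pow_le_pow_right₀ (by linarith) (by norm_num)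
        have k6 : 2 * Ee Q 1 ≤ Ee Q 1 * Real.exp (4 * R) := by
          rw [mul_comm]
          exact mul_le_mul_of_nonneg_left k3 hep.le
        linarith
      h8 := by
        have k1 : c * Real.exp (2.3 * R) = Real.exp (-(0.7 * R)) := by
          rw [hc, ← Real.exp_add]
          congr 1
          ring
        calc 4 * Ee Q 1 * Real.exp (2.3 * R)
            ≤ 4 * ((M1 + Nup) * β0 / ((b0 / 2) ^ 2 * β0) * (R ^ 5 * c))
              * Real.exp (2.3 * R) := by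
              apply mul_le_mul_of_nonneg_right _ (Real.exp_pos _).le
              exact mul_le_mul_of_nonneg_left eup (by norm_num)
          _ = 4 * ((M1 + Nup) * β0 / ((b0 / 2) ^ 2 * β0))
              * (R ^ 5 * (c * Real.exp (2.3 * R))) := by ring
          _ ≤ _ := by
              rw [k1]
              exact e8
      h9 := by
        refine eup.trans ?_
        exact e9 }
  · show Nn Q 2 / Bb Q 1 ≤ _
    rw [g1, g5]
    have k1 : 2 * (M1 + Nup) / b0 / (b * s ^ 5) = (M1 + Nup) / (b * (s ^ 5 * (b0 / 2))) := by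
      field_simp
    rw [k1]
    apply div_le_div₀ (by positivity) (by linarith) (by positivity)
    apply mul_le_mul_of_nonneg_left _ hb.le
    exact mul_le_mul_of_nonneg_left e2a.le (by positivity)

end Prt

/-- Blow-up from perturbed fields, at the origin. -/
theorem Src.blow {V0 : V → V} (S : Src V0 T0 φ l R1) (δ q : ℝ) (hq : 1 < q) (hq1 : q < 5 / 4)
    (hq2 : q ≤ 1 + δ / 4) : ∃ A₀ : ℝ, 0 < A₀ ∧ ∀ (U : V → V) (lU s b : ℝ),
      Prt U V0 T0 φ l R1 lU s b → ∃ (p : ℕ → V → V) (g : ℕ → Fin 3 → V → V) (ρ : ℝ),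
        Fam q 0 (P0 U V0 b s) p g ∧ ∀ ν ≥ 0, ∀ a > 0, A₀ * ν ≤ a * b * s →
          Blo δ 0 ρ p g ν (fun x => a • P0 U V0 b s x) (A₀ / (a * b * s ^ 5)) := by
  have hη : 0 < 2 * (1 + δ) - q * (4 * q - 2) := by nlinarith
  obtain ⟨R, hR⟩ := S.exists_R (q := q) hq1 hη
  have hβ := β0_pos
  have hb0 := S.b0
  have hN := S.n0
  have hDV := Dir_nonneg' V0
  have hRb := hR.big
  have hp1 := Prt.pre (s := 1) hR hq le_rfl
  have hDup := Dup_nonneg hp1.sc
  have hNup : 0 < Nup := hβ.trans_le ((hp1.sc.nn_low 0).trans (hp1.sc.nn_up 0))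
  have hM1 : 0 < ip T0 T0 + 1 + Nup := by
    have := ip_nonneg T0
    linarith
  have hM2 : 0 < Dir T0 T0 + 1 + Dup := by
    have := Dir_nonneg' T0
    linarith
  set K := 2 * (ip T0 T0 + 1 + Nup) / -tri T0 V0 T0 with hK
  have hKp : 0 < K := by positivity
  set B1 := 200 * K * (Dir V0 V0 / ip V0 V0 * R) with hB1
  set B2 := 200 * K * (R ^ 4 * (Dir T0 T0 + 1 + Dup) / β0) with hB2
  set B3 := 9 * R * K with hB3
  have p1 : 0 ≤ B1 := by positivity
  have p2 : 0 ≤ B2 := by positivity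
  have p3 : 0 < B3 := by positivity
  refine ⟨B1 + B2 + B3, by positivity, fun U lU s b P => ?_⟩
  obtain ⟨RU, hRU⟩ : ∃ R, ∀ x, U x ≠ 0 → ‖x‖ ≤ R := by
    obtain ⟨R, hR⟩ := P.cu.cs.isCompact.isBounded.exists_norm_le
    exact ⟨R, fun x hx => hR x (subset_tsupport U hx)⟩
  obtain ⟨hL, hκ, hquo⟩ := P.lnk hR hq hRU
  have hs := P.s0
  have hb := P.b0
  have hs1 := P.s1
  have hs2 : 1 ≤ s ^ 2 := one_le_pow₀ hs1
  have hlR : l / s ^ 2 ≤ max R1 RU := by
    refine le_trans ?_ (le_max_left _ _)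
    exact (div_le_self S.l0.le hs2).trans S.lR
  have hsup : 17 / 4 / (R * s) ^ 2 ≤ (2 : ℝ) ^ (-(q ^ 2)) := by
    have h1 := hR.e12
    rw [div_le_iff₀ (by positivity)] at h1
    rw [div_le_iff₀ (by positivity)]
    have h2 : (0 : ℝ) < 2 ^ (-(q ^ 2)) := by positivity
    have h3 : R ^ 2 ≤ (R * s) ^ 2 := pow_le_pow_left₀ (by linarith) (by nlinarith) 2
    nlinarith
  obtain ⟨p, g, hF, H⟩ := mainQ hL hlR δ (by linarith) hR.e10 hsup hR.e11
  refine ⟨p, g, max R1 RU, hF, fun ν hν a ha haν => ?_⟩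
  have hκ0 := hL.kap1_pos
  set κ := kapG ((Prt.pre (s := s) hR hq P.s1).sc.Q (P0 U V0 b s)
      (dil s (Tc T0 φ (Real.exp (-(3 * R)))))) 1 with hκd
  have hκs : κ * (b * s ^ 5) ≤ K := by
    rw [le_div_iff₀ (by positivity)] at hκ
    exact hκ
  have q1 : 0 ≤ B1 * ν := by positivity
  have q2 : 0 ≤ B2 * ν := by positivity
  have q3 : 0 ≤ B3 * ν := by positivity
  have hsum : B1 * ν + B2 * ν + B3 * ν ≤ a * b * s := by linarith
  have hbs : 0 < b * s := by positivity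
  refine (H ν hν a ha ?_ ?_).mono ?_
  · have h1 : 200 * κ * (Dir (P0 U V0 b s) (P0 U V0 b s) / ip (P0 U V0 b s) (P0 U V0 b s) * R) * ν
        ≤ 200 * (K / (b * s ^ 5)) * (s ^ 4 * (Dir V0 V0 / ip V0 V0) * R) * ν := by
      apply mul_le_mul_of_nonneg_right _ hν
      apply mul_le_mul
      · exact mul_le_mul_of_nonneg_left hκ (by norm_num)
      · exact mul_le_mul_of_nonneg_right hquo (by linarith)
      · have h2 : 0 ≤ Dir (P0 U V0 b s) (P0 U V0 b s) := Dir_nonneg' _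
        have h3 : 0 ≤ ip (P0 U V0 b s) (P0 U V0 b s) := ip_nonneg _
        positivity
      · positivity
    refine h1.trans ?_
    have h4 : 200 * (K / (b * s ^ 5)) * (s ^ 4 * (Dir V0 V0 / ip V0 V0) * R) * ν
        = B1 * ν / (b * s) := by
      rw [hB1]
      field_simp
    rw [h4, div_le_iff₀ hbs]
    linarith
  · have h1 : 200 * κ * ((R * s) ^ 4 * (Dir (Tc T0 φ (Real.exp (-(3 * R))))
        (Tc T0 φ (Real.exp (-(3 * R)))) + Dup) / β0) * ν
        ≤ 200 * (K / (b * s ^ 5)) * ((R * s) ^ 4 * (Dir T0 T0 + 1 + Dup) / β0) * ν := by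
      apply mul_le_mul_of_nonneg_right _ hν
      have h2 := Dir_nonneg' (Tc T0 φ (Real.exp (-(3 * R))))
      apply mul_le_mul
      · exact mul_le_mul_of_nonneg_left hκ (by norm_num)
      · apply div_le_div_of_nonneg_right _ hβ.le
        apply mul_le_mul_of_nonneg_left _ (by positivity)
        linarith [hR.d1]
      · positivity
      · positivity
    refine h1.trans ?_
    have h4 : 200 * (K / (b * s ^ 5)) * ((R * s) ^ 4 * (Dir T0 T0 + 1 + Dup) / β0) * ν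
        = B2 * ν / (b * s) := by
      rw [hB2]
      field_simp
    rw [h4, div_le_iff₀ hbs]
    linarith
  · have h1 : 9 * R * κ / a ≤ B3 / (a * b * s ^ 5) := by
      rw [div_le_div_iff₀ ha (by positivity), hB3]
      have := mul_le_mul_of_nonneg_left hκs (by positivity : 0 ≤ 9 * R * a)
      calc 9 * R * κ * (a * b * s ^ 5) = 9 * R * a * (κ * (b * s ^ 5)) := by ring
        _ ≤ 9 * R * a * K := this
        _ = _ := by ring
    refine h1.trans ?_
    apply div_le_div_of_nonneg_right _ (by positivity)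
    linarith

end Pool.Agent.Run7.h407.G.X
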