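import Mathlib
import Pool.Agent.Run7.h407.D.Choice

/-!
Translations of the spaces and of the solutions.
-/

namespace Pool.Agent.Run7.h407.G.X

open Set Filter Topology MeasureTheory
open scoped ContDiff

/-- Translation. -/
def Tl (z : V) : (V → V) →ₗ[ℝ] (V → V) where
  toFun := fun f x => f (x - z)
  map_add' := fun _ _ => rfl
  map_smul' := fun _ _ => rfl

theorem Tl_apply (z : V) (f : V → V) (x : V) : Tl z f x = f (x - z) := rfl

theorem Tl_inv (z : V) (f : V → V) : Tl z (Tl (-z) f) = f := by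
  funext x
  show f (x - z - -z) = f x
  congr 1
  abel

theorem Tl_inv' (z : V) (f : V → V) : Tl (-z) (Tl z f) = f := by
  funext x
  show f (x - -z - z) = f x
  congr 1
  abel

theorem pd_Tl (z : V) (f : V → ℝ) (j : Fin 3) (x : V) :
    pd j (fun y => f (y - z)) x = pd j f (x - z) := by
  unfold pd
  rw [fderiv_comp_sub]

theorem pd_Tl' (z : V) (f : V → ℝ) (j : Fin 3) :
    pd j (fun y => f (y - z)) = fun x => pd j f (x - z) := funext fun x => pd_Tl z f j x

theorem int_Tl (z : V) (f : V → ℝ) : ∫ x, f (x - z) = ∫ x, f x :=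
  integral_sub_right_eq_self f z

theorem memLp_Tl {f : V → ℝ} (z : V) (hf : MemLp f 2 volume) :
    MemLp (fun x => f (x - z)) 2 volume :=
  hf.comp_measurePreserving (measurePreserving_sub_right volume z)

theorem Sq_Tl {C : ℝ} {f : V → ℝ} (z : V) (hf : Sq C f) : Sq C (fun x => f (x - z)) := by
  refine ⟨memLp_Tl z hf.1, ?_⟩
  rw [int_Tl z (fun x => f x ^ 2)]
  exact hf.2

theorem ip_Tl (z : V) (u v : V → V) : ip (Tl z u) (Tl z v) = ip u v :=
  int_Tl z (fun x => ∑ i, u x i * v x i)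

theorem Dir_Tl (z : V) (u v : V → V) : Dir (Tl z u) (Tl z v) = Dir u v := by
  have e : ∀ x, (∑ i, ∑ j, pd j (fun y => Tl z u y i) x * pd j (fun y => Tl z v y i) x)
      = (fun x => ∑ i, ∑ j, pd j (fun y => u y i) x * pd j (fun y => v y i) x) (x - z) := by
    intro x
    show _ = ∑ i, ∑ j, pd j (fun y => u y i) (x - z) * pd j (fun y => v y i) (x - z)
    apply Finset.sum_congr rfl
    intro i _
    apply Finset.sum_congr rfl
    intro j _
    exact congrArg₂ (· * ·) (pd_Tl z (fun y => u y i) j x) (pd_Tl z (fun y => v y i) j x)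
  show ∫ x, (∑ i, ∑ j, pd j (fun y => Tl z u y i) x * pd j (fun y => Tl z v y i) x) = _
  exact (congrArg (fun F => ∫ x, F x) (funext e)).trans (int_Tl z _)

theorem dvg_Tl (z : V) (u : V → V) (x : V) : dvg (Tl z u) x = dvg u (x - z) :=
  Finset.sum_congr rfl fun i _ => pd_Tl z (fun y => u y i) i x

theorem L2F_Tl {u : V → V} (z : V) (hu : L2F u) : L2F (Tl z u) := fun i => memLp_Tl z (hu i)

theorem WDF_Tl {u : V → V} (z : V) (hu : WDF u) : WDF (Tl z u) := by
  intro φ hφ hc
  have h1 : ContDiff ℝ ∞ (fun y => φ (y - -z)) := hφ.comp (contDiff_id.sub contDiff_const)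
  have h2 : HasCompactSupport (fun y => φ (y - -z)) :=
    hc.comp_homeomorph (Homeomorph.subRight (-z))
  have h3 := hu _ h1 h2
  have e : ∀ x, (∑ i, Tl z u x i * pd i φ x)
      = (fun x => ∑ i, u x i * pd i (fun y => φ (y - -z)) x) (x - z) := by
    intro x
    show _ = ∑ i, u (x - z) i * pd i (fun y => φ (y - -z)) (x - z)
    apply Finset.sum_congr rfl
    intro i _
    rw [pd_Tl]
    have : x - z - -z = x := by abel
    rw [this]
    rfl
  exact ((congrArg (fun F => ∫ x, F x) (funext e)).trans (int_Tl z _)).trans h3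

theorem sm_Tl {u : V → V} (z : V) (hu : ContDiff ℝ ∞ u) : ContDiff ℝ ∞ (Tl z u) :=
  hu.comp (contDiff_id.sub contDiff_const)

theorem cs_Tl {u : V → V} (z : V) (hu : HasCompactSupport u) : HasCompactSupport (Tl z u) :=
  hu.comp_homeomorph (Homeomorph.subRight z)

/-- Translation of the spaces. -/
theorem IsSpG.tl {m : ℕ} {p : ℕ → V → V} {g : ℕ → Fin m → V → V} {W : Submodule ℝ (V → V)} {z : V}
    (h : IsSpG (fun n => Tl z (p n)) (fun n i => Tl z (g n i)) W) :
    IsSpG p g (W.comap (Tl z)) := by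
  refine ⟨fun w hw => ?_, fun w hw => ?_, fun w hw n i => ?_, fun v hv hvc hs => ?_⟩
  · have h1 := L2F_Tl (-z) (h.l2 _ hw)
    rw [Tl_inv'] at h1
    exact h1
  · have h1 := WDF_Tl (-z) (h.wdf _ hw)
    rw [Tl_inv'] at h1
    exact h1
  · have h1 := h.cs _ hw n i
    rw [ip_Tl] at h1
    exact h1
  · obtain ⟨c, hc⟩ := hs
    exact h.mem _ (sm_Tl z hv) (cs_Tl z hvc) ⟨c, fun x => hc (x - z)⟩

/-- Translation of the solutions. -/
theorem IsProj.tl {W : Submodule ℝ (V → V)} {ν T : ℝ} {u : ℝ → V → V} {z : V}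
    (h : IsProj (W.comap (Tl z)) ν T u) : IsProj W ν T (fun t => Tl z (u t)) := by
  have hp1 : ∀ t i j, pd j (fun y => Tl z (u t) y i) = fun x => pd j (fun y => u t y i) (x - z) :=
    fun t i j => pd_Tl' z (fun y => u t y i) j
  have hp2 : ∀ t i j k, pd j (pd k (fun y => Tl z (u t) y i))
      = fun x => pd j (pd k (fun y => u t y i)) (x - z) := fun t i j k => by
    rw [hp1]
    exact pd_Tl' z (pd k (fun y => u t y i)) j
  refine ⟨⟨?_, fun s hs => ?_⟩, fun t ht => h.mem t ht, fun t ht w hw => ?_⟩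
  · have h1 : ContDiff ℝ ∞ (fun y : ℝ × V => (y.1, y.2 - z)) :=
      contDiff_fst.prodMk (contDiff_snd.sub contDiff_const)
    exact h.cls.sm.comp h1.contDiffOn (fun y hy => ⟨hy.1, mem_univ _⟩)
  · obtain ⟨C, hC⟩ := h.cls.bd s hs
    refine ⟨C, fun t ht => ⟨fun x => (hC t ht).1 _, fun i => ?_⟩⟩
    obtain ⟨a, b, c, d⟩ := (hC t ht).2 i
    refine ⟨Sq_Tl z a, fun j => ?_, fun j k => ?_, fun h0 => Sq_Tl z (d h0)⟩
    · rw [hp1]
      exact Sq_Tl z (b j)
    · rw [hp2]
      exact Sq_Tl z (c j k)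
  · have hw' : Tl (-z) w ∈ W.comap (Tl z) := by
      show Tl z (Tl (-z) w) ∈ W
      rw [Tl_inv]
      exact hw
    have h1 := h.eqn t ht _ hw'
    have e : ∀ x, (∑ i, residual ν (fun t => Tl z (u t)) t x i * w x i)
        = (fun x => ∑ i, residual ν u t x i * Tl (-z) w x i) (x - z) := by
      intro x
      show _ = ∑ i, residual ν u t (x - z) i * Tl (-z) w (x - z) i
      apply Finset.sum_congr rfl
      intro i _
      have e1 : Tl (-z) w (x - z) = w x := by
        show w (x - z - -z) = w x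
        congr 1
        abel
      rw [e1]
      congr 1
      unfold residual
      simp_rw [hp2]
      simp_rw [hp1]
      rfl
    exact ((congrArg (fun F => ∫ x, F x) (funext e)).trans (int_Tl z _)).trans h1

theorem comap_comap (W : Submodule ℝ (V → V)) (z : V) :
    (W.comap (Tl z)).comap (Tl (-z)) = W := by
  ext w
  show Tl z (Tl (-z) w) ∈ W ↔ w ∈ W
  rw [Tl_inv]

theorem IsProj.tl' {W : Submodule ℝ (V → V)} {ν T : ℝ} {u : ℝ → V → V} {z : V}
    (h : IsProj W ν T u) : IsProj (W.comap (Tl z)) ν T (fun t => Tl (-z) (u t)) := by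
  apply IsProj.tl
  rw [comap_comap]
  exact h

end Pool.Agent.Run7.h407.G.X
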