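import Mathlib
import Pool.Agent.Run7.h407.Calc

/-!
A Carleman estimate with a quadratic weight and unique continuation for compactly supported
functions.
-/

namespace Pool.Agent.Run7.h407.Carl

open Set Filter Topology MeasureTheory
open scoped ContDiff

/-- The square of the Euclidean norm. -/
noncomputable def q2 (x : V) : ℝ := ∑ k, x k ^ 2

/-- The Laplacian. -/
noncomputable def Lp (f : V → ℝ) (x : V) : ℝ := ∑ k, pd k (pd k f) x

/-- The radial derivative. -/
noncomputable def Rd (f : V → ℝ) (x : V) : ℝ := ∑ k, x k * pd k f x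

/-- The square of the gradient. -/
noncomputable def G2 (f : V → ℝ) (x : V) : ℝ := ∑ k, pd k f x ^ 2

variable {f g : V → ℝ}

theorem q2_sm : Sm q2 := ContDiff.sum fun k _ => (coord_sm k).pow 2

theorem Lp_sm (hf : Sm f) : Sm (Lp f) := ContDiff.sum fun k _ => (hf.pd k).pd k

theorem Rd_sm (hf : Sm f) : Sm (Rd f) := ContDiff.sum fun k _ => (coord_sm k).mul (hf.pd k)

theorem G2_sm (hf : Sm f) : Sm (G2 f) := ContDiff.sum fun k _ => (hf.pd k).pow 2

theorem Lp_zero {x : V} (hx : x ∉ tsupport f) : Lp f x = 0 := by
  unfold Lp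
  apply Finset.sum_eq_zero
  intro k _
  apply pd_eq_zero
  intro h
  exact hx (closure_minimal (fun y hy => by
    by_contra h2
    exact hy (pd_eq_zero h2 k)) isClosed_closure h)

theorem Rd_zero {x : V} (hx : x ∉ tsupport f) : Rd f x = 0 := by
  unfold Rd
  apply Finset.sum_eq_zero
  intro k _
  rw [pd_eq_zero hx, mul_zero]

theorem G2_zero {x : V} (hx : x ∉ tsupport f) : G2 f x = 0 := by
  unfold G2
  apply Finset.sum_eq_zero
  intro k _
  rw [pd_eq_zero hx]
  ring

theorem int_of {F : V → ℝ} (hc : HasCompactSupport f) (hF : Continuous F)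
    (h0 : ∀ x, x ∉ tsupport f → F x = 0) : Integrable F volume :=
  hF.integrable_of_hasCompactSupport (HasCompactSupport.intro hc.isCompact h0)

theorem lin4 (c1 c2 c3 c4 : ℝ) {a b c d : V → ℝ} (ia : Integrable a volume)
    (ib : Integrable b volume) (ic : Integrable c volume) (id : Integrable d volume) :
    ∫ x, c1 * a x + c2 * b x + c3 * c x + c4 * d x
      = c1 * (∫ x, a x) + c2 * (∫ x, b x) + c3 * (∫ x, c x) + c4 * (∫ x, d x) := by
  have k1 : Integrable (fun x => c1 * a x + c2 * b x) volume := (ia.const_mul _).add (ib.const_mul _)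
  have k2 : Integrable (fun x => c1 * a x + c2 * b x + c3 * c x) volume := k1.add (ic.const_mul _)
  rw [integral_add k2 (id.const_mul _), integral_add k1 (ic.const_mul _),
    integral_add (ia.const_mul _) (ib.const_mul _), integral_const_mul, integral_const_mul,
    integral_const_mul, integral_const_mul]

/-- The basic integration by parts. -/
theorem X1 (hf : Sm f) (hc : HasCompactSupport f) (k : Fin 3) :
    ∫ x, f x * (x k * pd k f x) = -(1 / 2) * ∫ x, f x ^ 2 := by
  have h := ibp hf ((coord_sm k).mul hf) hc k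
  have e : ∀ x, pd k (fun y => y k * f y) x = x k * pd k f x + f x := by
    intro x
    rw [pd_mul ((coord_sm k).diff x) (hf.diff x), pd_coord, if_pos rfl, one_mul]
  simp only [e] at h
  have i1 : Integrable (fun x => f x * (x k * pd k f x)) volume :=
    int_of hc (hf.continuous.mul ((coord_sm k).continuous.mul (hf.pd k).continuous))
      fun x hx => by rw [image_eq_zero_of_notMem_tsupport hx, zero_mul]
  have i2 : Integrable (fun x => f x ^ 2) volume :=
    int_of hc (hf.continuous.pow 2) fun x hx => by
      rw [image_eq_zero_of_notMem_tsupport hx]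
      ring
  have e1 : ∫ x, f x * (x k * pd k f x + f x)
      = (∫ x, f x * (x k * pd k f x)) + ∫ x, f x ^ 2 := by
    rw [← integral_add i1 i2]
    congr 1
    funext x
    ring
  have e2 : ∫ x, pd k f x * (x k * f x) = ∫ x, f x * (x k * pd k f x) := by
    congr 1
    funext x
    ring
  rw [e1, e2] at h
  linarith

theorem pd_ts {x : V} (hx : x ∉ tsupport f) (k : Fin 3) : x ∉ tsupport (pd k f) := fun h =>
  hx (closure_minimal (fun y hy => by
    by_contra h2
    exact hy (pd_eq_zero h2 k)) isClosed_closure h)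

theorem C1 (hf : Sm f) (hc : HasCompactSupport f) :
    ∫ x, Lp f x * Rd f x = 1 / 2 * ∫ x, G2 f x := by
  have key : ∀ j k : Fin 3, ∫ x, pd j (pd j f) x * (x k * pd k f x)
      = (1 / 2 - if k = j then 1 else 0) * ∫ x, pd j f x ^ 2 := by
    intro j k
    have hj := hf.pd j
    have hcj := pd_cs hc j
    have h := ibp hj ((coord_sm k).mul (hf.pd k)) hcj j
    have e : ∀ x, pd j (fun y => y k * pd k f y) x
        = x k * pd k (pd j f) x + (if k = j then 1 else 0) * pd k f x := by
      intro x
      rw [pd_mul ((coord_sm k).diff x) ((hf.pd k).diff x), pd_coord, pd_comm hf]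
    simp only [e] at h
    have x1 := X1 hj hcj k
    have i1 : Integrable (fun x => pd j f x * (x k * pd k (pd j f) x)) volume :=
      int_of hcj (hj.continuous.mul ((coord_sm k).continuous.mul (hj.pd k).continuous))
        fun x hx => by rw [image_eq_zero_of_notMem_tsupport hx, zero_mul]
    have i2 : Integrable (fun x => (if k = j then (1 : ℝ) else 0) * pd j f x ^ 2) volume :=
      (int_of (F := fun x => pd j f x ^ 2) hcj (hj.continuous.pow 2) fun x hx => by
        rw [image_eq_zero_of_notMem_tsupport hx]
        ring).const_mul _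
    have e1 : ∫ x, pd j f x * (x k * pd k (pd j f) x + (if k = j then 1 else 0) * pd k f x)
        = (∫ x, pd j f x * (x k * pd k (pd j f) x))
          + ∫ x, (if k = j then (1 : ℝ) else 0) * pd j f x ^ 2 := by
      rw [← integral_add i1 i2]
      congr 1
      funext x
      by_cases hkj : k = j
      · subst hkj
        simp only [if_true]
        ring
      · simp only [if_neg hkj]
        ring
    rw [e1, x1, integral_const_mul] at h
    linarith
  have e : (fun x => Lp f x * Rd f x)
      = fun x => ∑ j, ∑ k, pd j (pd j f) x * (x k * pd k f x) := by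
    funext x
    unfold Lp Rd
    rw [Finset.sum_mul_sum]
  have hi : ∀ j k : Fin 3, Integrable (fun x => pd j (pd j f) x * (x k * pd k f x)) volume :=
    fun j k => int_of hc (((hf.pd j).pd j).continuous.mul ((coord_sm k).continuous.mul
      (hf.pd k).continuous)) fun x hx => by rw [pd_eq_zero hx k]; ring
  rw [e, integral_finsetSum _ fun j _ => integrable_finsetSum _ fun k _ => hi j k]
  have hg : ∫ x, G2 f x = ∑ j, ∫ x, pd j f x ^ 2 := by
    unfold G2
    rw [integral_finsetSum]
    intro j _
    exact int_of hc ((hf.pd j).continuous.pow 2) fun x hx => by rw [pd_eq_zero hx j]; ring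
  rw [hg, Finset.mul_sum]
  apply Finset.sum_congr rfl
  intro j _
  rw [integral_finsetSum _ fun k _ => hi j k]
  simp_rw [key]
  rw [← Finset.sum_mul]
  congr 1
  rw [Finset.sum_sub_distrib]
  simp
  norm_num

theorem C2 (hf : Sm f) (hc : HasCompactSupport f) :
    ∫ x, f x * Lp f x = -∫ x, G2 f x := by
  have hg : ∫ x, G2 f x = ∑ j, ∫ x, pd j f x ^ 2 := by
    unfold G2
    rw [integral_finsetSum]
    intro j _
    exact int_of hc ((hf.pd j).continuous.pow 2) fun x hx => by rw [pd_eq_zero hx j]; ring
  have e : (fun x => f x * Lp f x) = fun x => ∑ j, f x * pd j (pd j f) x := by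
    funext x
    unfold Lp
    rw [Finset.mul_sum]
  rw [e, hg, integral_finsetSum, ← Finset.sum_neg_distrib]
  · apply Finset.sum_congr rfl
    intro j _
    rw [ibp hf (hf.pd j) hc j]
    congr 1
    congr 1
    funext x
    ring
  · intro j _
    exact int_of hc (hf.continuous.mul ((hf.pd j).pd j).continuous) fun x hx => by
      rw [image_eq_zero_of_notMem_tsupport hx, zero_mul]

theorem C3 (hf : Sm f) (hc : HasCompactSupport f) :
    ∫ x, q2 x * f x * Rd f x = -(5 / 2) * ∫ x, q2 x * f x ^ 2 := by
  have key : ∀ j k : Fin 3, ∫ x, x j ^ 2 * f x * (x k * pd k f x)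
      = (-(1 / 2) - if j = k then 1 else 0) * ∫ x, x j ^ 2 * f x ^ 2 := by
    intro j k
    have hj : Sm (fun x => x j * f x) := (coord_sm j).mul hf
    have hcj : HasCompactSupport (fun x => x j * f x) := hc.mul_left
    have x1 := X1 hj hcj k
    have e : ∀ x, pd k (fun y => y j * f y) x
        = x j * pd k f x + (if j = k then 1 else 0) * f x := by
      intro x
      rw [pd_mul ((coord_sm j).diff x) (hf.diff x), pd_coord]
    simp only [e] at x1
    have i1 : Integrable (fun x => x j ^ 2 * f x * (x k * pd k f x)) volume :=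
      int_of hc (((coord_sm j).continuous.pow 2).mul hf.continuous |>.mul
        ((coord_sm k).continuous.mul (hf.pd k).continuous))
        fun x hx => by
          rw [pd_eq_zero hx]
          ring
    have i2 : Integrable (fun x => (if j = k then (1 : ℝ) else 0) * (x j ^ 2 * f x ^ 2))
        volume :=
      (int_of (F := fun x => x j ^ 2 * f x ^ 2) hc
        (((coord_sm j).continuous.pow 2).mul (hf.continuous.pow 2)) fun x hx => by
        rw [image_eq_zero_of_notMem_tsupport hx]
        ring).const_mul _
    have e1 : ∫ x, x j * f x * (x k * (x j * pd k f x + (if j = k then 1 else 0) * f x))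
        = (∫ x, x j ^ 2 * f x * (x k * pd k f x))
          + ∫ x, (if j = k then (1 : ℝ) else 0) * (x j ^ 2 * f x ^ 2) := by
      rw [← integral_add i1 i2]
      congr 1
      funext x
      by_cases hjk : j = k
      · subst hjk
        simp only [if_true]
        ring
      · simp only [if_neg hjk]
        ring
    have e2 : ∫ x, (x j * f x) ^ 2 = ∫ x, x j ^ 2 * f x ^ 2 := by
      congr 1
      funext x
      ring
    rw [e1, e2, integral_const_mul] at x1
    linarith
  have e : (fun x => q2 x * f x * Rd f x)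
      = fun x => ∑ j, ∑ k, x j ^ 2 * f x * (x k * pd k f x) := by
    funext x
    unfold q2 Rd
    rw [Finset.sum_mul, Finset.sum_mul_sum]
  have hi : ∀ j k : Fin 3, Integrable (fun x => x j ^ 2 * f x * (x k * pd k f x)) volume :=
    fun j k => int_of hc (((coord_sm j).continuous.pow 2).mul hf.continuous |>.mul
        ((coord_sm k).continuous.mul (hf.pd k).continuous))
        fun x hx => by
          rw [pd_eq_zero hx]
          ring
  rw [e, integral_finsetSum _ fun j _ => integrable_finsetSum _ fun k _ => hi j k]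
  have hg : ∫ x, q2 x * f x ^ 2 = ∑ j, ∫ x, x j ^ 2 * f x ^ 2 := by
    unfold q2
    simp_rw [Finset.sum_mul]
    rw [integral_finsetSum]
    intro j _
    exact int_of hc (((coord_sm j).continuous.pow 2).mul (hf.continuous.pow 2)) fun x hx => by
        rw [image_eq_zero_of_notMem_tsupport hx]
        ring
  rw [hg, Finset.mul_sum]
  apply Finset.sum_congr rfl
  intro j _
  rw [integral_finsetSum _ fun k _ => hi j k]
  simp_rw [key]
  rw [← Finset.sum_mul]
  congr 1
  rw [Finset.sum_sub_distrib]
  simp
  norm_num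

theorem C4 (hf : Sm f) (hc : HasCompactSupport f) :
    ∫ x, f x * Rd f x = -(3 / 2) * ∫ x, f x ^ 2 := by
  have e : (fun x => f x * Rd f x) = fun x => ∑ k, f x * (x k * pd k f x) := by
    funext x
    unfold Rd
    rw [Finset.mul_sum]
  rw [e, integral_finsetSum]
  · simp_rw [X1 hf hc]
    simp
    ring
  · intro k _
    exact int_of hc (hf.continuous.mul ((coord_sm k).continuous.mul (hf.pd k).continuous))
      fun x hx => by rw [image_eq_zero_of_notMem_tsupport hx, zero_mul]

/-- The uncertainty principle. -/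
theorem Unc (hf : Sm f) (hc : HasCompactSupport f) (τ : ℝ) :
    3 * τ * ∫ x, f x ^ 2 ≤ (∫ x, G2 f x) + τ ^ 2 * ∫ x, q2 x * f x ^ 2 := by
  have i1 : Integrable (G2 f) volume := int_of hc (G2_sm hf).continuous fun x hx => G2_zero hx
  have i2 : Integrable (fun x => q2 x * f x ^ 2) volume :=
    int_of hc (q2_sm.continuous.mul (hf.continuous.pow 2)) fun x hx => by
      rw [image_eq_zero_of_notMem_tsupport hx]
      ring
  have i3 : Integrable (fun x => f x * Rd f x) volume :=
    int_of hc (hf.continuous.mul (Rd_sm hf).continuous) fun x hx => by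
      rw [image_eq_zero_of_notMem_tsupport hx, zero_mul]
  have h0 : 0 ≤ ∫ x, ∑ k, (pd k f x + τ * (x k * f x)) ^ 2 :=
    integral_nonneg fun x => Finset.sum_nonneg fun k _ => sq_nonneg _
  have e : (fun x => ∑ k, (pd k f x + τ * (x k * f x)) ^ 2)
      = fun x => 1 * G2 f x + τ ^ 2 * (q2 x * f x ^ 2) + 2 * τ * (f x * Rd f x)
        + 0 * G2 f x := by
    funext x
    unfold G2 q2 Rd
    rw [zero_mul, add_zero, one_mul, Finset.sum_mul, Finset.mul_sum, Finset.mul_sum,
      Finset.mul_sum, ← Finset.sum_add_distrib, ← Finset.sum_add_distrib]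
    apply Finset.sum_congr rfl
    intro k _
    ring
  rw [e, lin4 _ _ _ _ i1 i2 i3 i1, C4 hf hc] at h0
  linarith

/-- The conjugated Laplacian. -/
noncomputable def Fc (τ : ℝ) (f : V → ℝ) (x : V) : ℝ :=
  (Lp f x + τ ^ 2 * (q2 x * f x)) + (-(2 * τ * Rd f x) - 3 * τ * f x)

/-- The Carleman estimate. -/
theorem carl (hf : Sm f) (hc : HasCompactSupport f) (τ : ℝ) :
    8 * τ * ((∫ x, G2 f x) + τ ^ 2 * ∫ x, q2 x * f x ^ 2) ≤ ∫ x, Fc τ f x ^ 2 := by
  have z1 : ∀ x, x ∉ tsupport f → f x = 0 := fun x hx => image_eq_zero_of_notMem_tsupport hx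
  have i1 : Integrable (fun x => Lp f x * Rd f x) volume :=
    int_of hc ((Lp_sm hf).continuous.mul (Rd_sm hf).continuous) fun x hx => by
      rw [Rd_zero hx, mul_zero]
  have i2 : Integrable (fun x => f x * Lp f x) volume :=
    int_of hc (hf.continuous.mul (Lp_sm hf).continuous) fun x hx => by
      rw [z1 x hx, zero_mul]
  have i3 : Integrable (fun x => q2 x * f x * Rd f x) volume :=
    int_of hc ((q2_sm.continuous.mul hf.continuous).mul (Rd_sm hf).continuous) fun x hx => by
      rw [Rd_zero hx, mul_zero]
  have i4 : Integrable (fun x => q2 x * f x ^ 2) volume :=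
    int_of hc (q2_sm.continuous.mul (hf.continuous.pow 2)) fun x hx => by
      rw [z1 x hx]
      ring
  have i5 : Integrable (fun x => Fc τ f x ^ 2) volume := by
    apply int_of hc
    · apply Continuous.pow
      unfold Fc
      exact ((Lp_sm hf).continuous.add (continuous_const.mul
        (q2_sm.continuous.mul hf.continuous))).add
        ((continuous_const.mul (Rd_sm hf).continuous).neg.sub
          (continuous_const.mul hf.continuous))
    · intro x hx
      unfold Fc
      rw [Rd_zero hx, z1 x hx, Lp_zero hx]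
      ring
  have e : ∫ x, 4 * ((Lp f x + τ ^ 2 * (q2 x * f x)) * (-(2 * τ * Rd f x) - 3 * τ * f x))
      = 8 * τ * ((∫ x, G2 f x) + τ ^ 2 * ∫ x, q2 x * f x ^ 2) := by
    have e1 : (fun x => 4 * ((Lp f x + τ ^ 2 * (q2 x * f x)) * (-(2 * τ * Rd f x) - 3 * τ * f x)))
        = fun x => (((-(8 * τ)) * (Lp f x * Rd f x) + (-(12 * τ)) * (f x * Lp f x))
          + (-(8 * τ ^ 3)) * (q2 x * f x * Rd f x)) + (-(12 * τ ^ 3)) * (q2 x * f x ^ 2) := by
      funext x
      ring
    rw [e1, lin4 _ _ _ _ i1 i2 i3 i4, C1 hf hc, C2 hf hc, C3 hf hc]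
    ring
  rw [← e]
  apply integral_mono _ i5
  · intro x
    show 4 * ((Lp f x + τ ^ 2 * (q2 x * f x)) * (-(2 * τ * Rd f x) - 3 * τ * f x))
      ≤ ((Lp f x + τ ^ 2 * (q2 x * f x)) + (-(2 * τ * Rd f x) - 3 * τ * f x)) ^ 2
    nlinarith [sq_nonneg ((Lp f x + τ ^ 2 * (q2 x * f x)) - (-(2 * τ * Rd f x) - 3 * τ * f x))]
  · apply int_of hc
    · exact continuous_const.mul (((Lp_sm hf).continuous.add (continuous_const.mul
        (q2_sm.continuous.mul hf.continuous))).mul
        ((continuous_const.mul (Rd_sm hf).continuous).neg.sub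
          (continuous_const.mul hf.continuous)))
    · intro x hx
      rw [Rd_zero hx, z1 x hx]
      ring

end Pool.Agent.Run7.h407.Carl
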