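import Mathlib
import Pool.Agent.Run7.h407.D.Carl

/-!
Unique continuation for compactly supported solutions of differential inequalities.
-/

namespace Pool.Agent.Run7.h407.Carl

open Set Filter Topology MeasureTheory
open scoped ContDiff

/-- The weight. -/
noncomputable def hw (τ : ℝ) (x : V) : ℝ := Real.exp (τ / 2 * q2 x)

theorem hw_sm (τ : ℝ) : Sm (hw τ) := (contDiff_const.mul q2_sm).exp

theorem pd_q2 (k : Fin 3) (x : V) : pd k q2 x = 2 * x k := by
  have e0 : q2 = fun x : V => ∑ j, x j ^ 2 := rfl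
  rw [e0]
  have h : ∀ j : Fin 3, pd k (fun y : V => y j ^ 2) x = if j = k then 2 * x k else 0 := by
    intro j
    have e : (fun y : V => y j ^ 2) = fun y => y j * y j := by
      funext y
      ring
    rw [e, pd_mul ((coord_sm j).diff x) ((coord_sm j).diff x), pd_coord]
    by_cases hj : j = k
    · subst hj
      simp only [if_true]
      ring
    · simp only [if_neg hj]
      ring
  have hs : ∀ j : Fin 3, Sm (fun y : V => y j ^ 2) := fun j => (coord_sm j).pow 2
  rw [pd_sum fun j _ => (hs j).diff x]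
  simp_rw [h]
  simp

theorem pd_hw (τ : ℝ) (k : Fin 3) (x : V) : pd k (hw τ) x = τ * x k * hw τ x := by
  have h1 : HasFDerivAt (fun y : V => τ / 2 * q2 y) ((τ / 2) • fderiv ℝ q2 x) x :=
    ((q2_sm.diff x).hasFDerivAt).const_mul _
  have h2 : HasFDerivAt (hw τ) (Real.exp (τ / 2 * q2 x) • (τ / 2) • fderiv ℝ q2 x) x := h1.exp
  have h3 := pd_q2 k x
  unfold pd at h3 ⊢
  rw [h2.fderiv]
  simp only [smul_apply, smul_eq_mul]
  rw [h3]
  unfold hw
  ring

variable {v : V → ℝ}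

theorem pd_hv (hv : Sm v) (τ : ℝ) (k : Fin 3) (x : V) : pd k (fun y => hw τ y * v y) x
    = hw τ x * (pd k v x + τ * x k * v x) := by
  rw [pd_mul ((hw_sm τ).diff x) (hv.diff x), pd_hw]
  ring

theorem pd2_hv (hv : Sm v) (τ : ℝ) (k : Fin 3) (x : V) :
    pd k (pd k (fun y => hw τ y * v y)) x
    = hw τ x * (pd k (pd k v) x + 2 * τ * x k * pd k v x + τ * v x + τ ^ 2 * x k ^ 2 * v x) := by
  have e : pd k (fun y => hw τ y * v y) = fun y => hw τ y * (pd k v y + τ * (y k * v y)) := by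
    funext y
    rw [pd_hv hv]
    ring
  have s1 : Sm (fun y => y k * v y) := (coord_sm k).mul hv
  have s2 : Sm (fun y => pd k v y + τ * (y k * v y)) := (hv.pd k).add (contDiff_const.mul s1)
  rw [e, pd_hv s2, pd_add ((hv.pd k).diff x) ((contDiff_const.mul s1).differentiable (by simp) x),
    pd_const_mul _ (s1.diff x), pd_mul ((coord_sm k).diff x) (hv.diff x), pd_coord, if_pos rfl]
  ring

theorem conj (hv : Sm v) (τ : ℝ) (x : V) :
    Fc τ (fun y => hw τ y * v y) x = hw τ x * Lp v x := by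
  unfold Fc Lp Rd q2
  simp_rw [pd2_hv hv, pd_hv hv]
  rw [Fin.sum_univ_three, Fin.sum_univ_three, Fin.sum_univ_three, Fin.sum_univ_three]
  ring

theorem hw_pos (τ : ℝ) (x : V) : 0 < hw τ x := Real.exp_pos _

theorem eq_zero_of_sq {f : V → ℝ} (hf : Sm f) (hc : HasCompactSupport f)
    (h : ∫ x, f x ^ 2 ≤ 0) (x : V) : f x = 0 := by
  have i : Integrable (fun x => f x ^ 2) volume :=
    int_of hc (hf.continuous.pow 2) fun x hx => by
      rw [image_eq_zero_of_notMem_tsupport hx]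
      ring
  have h0 : ∫ x, f x ^ 2 = 0 := le_antisymm h (integral_nonneg fun x => sq_nonneg _)
  have h1 := (integral_eq_zero_iff_of_nonneg (fun x => sq_nonneg (f x)) i).1 h0
  have h2 : (fun x => f x ^ 2) = 0 :=
    (Continuous.ae_eq_iff_eq volume (hf.continuous.pow 2) continuous_const).1 h1
  have h3 := congrFun h2 x
  simpa using h3

/-- Unique continuation. -/
theorem uc (v : Fin 3 → V → ℝ) (hv : ∀ i, Sm (v i)) (hc : ∀ i, HasCompactSupport (v i)) {K : ℝ}
    (h : ∀ i x, |Lp (v i) x| ≤ K * (∑ m, |v m x| + ∑ m, ∑ k, |pd k (v m) x|)) (i : Fin 3)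
    (x : V) : v i x = 0 := by
  obtain ⟨τ, hτ1, hτ⟩ : ∃ τ : ℝ, 1 ≤ τ ∧ 162 * K ^ 2 < 8 * τ := by
    refine ⟨162 * K ^ 2 + 1, ?_, ?_⟩ <;> nlinarith [sq_nonneg K]
  set W : Fin 3 → V → ℝ := fun i y => hw τ y * v i y with hW
  have sW : ∀ i, Sm (W i) := fun i => (hw_sm τ).mul (hv i)
  have cW : ∀ i, HasCompactSupport (W i) := fun i => (hc i).mul_left
  have i1 : ∀ i, Integrable (fun x => W i x ^ 2) volume := fun i =>
    int_of (cW i) ((sW i).continuous.pow 2) fun x hx => by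
      rw [image_eq_zero_of_notMem_tsupport hx]
      ring
  have i2 : ∀ i, Integrable (G2 (W i)) volume := fun i =>
    int_of (cW i) (G2_sm (sW i)).continuous fun x hx => G2_zero hx
  have i3 : ∀ i, Integrable (fun x => q2 x * W i x ^ 2) volume := fun i =>
    int_of (cW i) (q2_sm.continuous.mul ((sW i).continuous.pow 2)) fun x hx => by
      rw [image_eq_zero_of_notMem_tsupport hx]
      ring
  set E : Fin 3 → ℝ := fun i => (∫ x, G2 (W i) x) + τ ^ 2 * ∫ x, q2 x * W i x ^ 2 with hE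
  have hE0 : ∀ i, 0 ≤ E i := by
    intro i
    apply add_nonneg
    · exact integral_nonneg fun x => Finset.sum_nonneg fun k _ => sq_nonneg _
    · apply mul_nonneg (sq_nonneg _)
      exact integral_nonneg fun x => mul_nonneg (Finset.sum_nonneg fun k _ => sq_nonneg _)
        (sq_nonneg _)
  have hU : ∀ i, 3 * τ * ∫ x, W i x ^ 2 ≤ E i := fun i => Unc (sW i) (cW i) τ
  have hpt : ∀ i x, Fc τ (W i) x ^ 2 ≤ ∑ m, (18 * K ^ 2 * W m x ^ 2
      + 36 * K ^ 2 * G2 (W m) x + 36 * K ^ 2 * τ ^ 2 * (q2 x * W m x ^ 2) + 0 * W m x ^ 2) := by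
    intro i x
    have e1 : Fc τ (W i) x = hw τ x * Lp (v i) x := conj (hv i) τ x
    have hp := hw_pos τ x
    have h1 : Lp (v i) x ^ 2 ≤ 18 * K ^ 2 * ∑ m, (v m x ^ 2 + G2 (v m) x) := by
      have h2 := h i x
      have a1 : (∑ m, |v m x|) ^ 2 ≤ 3 * ∑ m, v m x ^ 2 := by
        have := sq_sum_le_card_mul_sum_sq (s := Finset.univ) (f := fun m : Fin 3 => |v m x|)
        simpa using this
      have a2 : (∑ m, ∑ k, |pd k (v m) x|) ^ 2 ≤ 9 * ∑ m, G2 (v m) x := by
        have b1 := sq_sum_le_card_mul_sum_sq (s := Finset.univ)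
          (f := fun m : Fin 3 => ∑ k, |pd k (v m) x|)
        have b2 : ∀ m, (∑ k, |pd k (v m) x|) ^ 2 ≤ 3 * G2 (v m) x := by
          intro m
          have := sq_sum_le_card_mul_sum_sq (s := Finset.univ)
            (f := fun k : Fin 3 => |pd k (v m) x|)
          unfold G2
          simpa using this
        have b3 : ∑ m, (∑ k, |pd k (v m) x|) ^ 2 ≤ ∑ m, 3 * G2 (v m) x :=
          Finset.sum_le_sum fun m _ => b2 m
        rw [← Finset.mul_sum] at b3
        simp only [Finset.card_univ, Fintype.card_fin, Nat.cast_ofNat] at b1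
        linarith
      have a3 : Lp (v i) x ^ 2 ≤ (K * (∑ m, |v m x| + ∑ m, ∑ k, |pd k (v m) x|)) ^ 2 := by
        rw [← sq_abs (Lp (v i) x)]
        exact pow_le_pow_left₀ (abs_nonneg _) h2 2
      have a4 : (∑ m, |v m x| + ∑ m, ∑ k, |pd k (v m) x|) ^ 2
          ≤ 2 * (∑ m, |v m x|) ^ 2 + 2 * (∑ m, ∑ k, |pd k (v m) x|) ^ 2 := by
        nlinarith [sq_nonneg ((∑ m, |v m x|) - ∑ m, ∑ k, |pd k (v m) x|)]
      have a5 : 0 ≤ ∑ m, v m x ^ 2 := Finset.sum_nonneg fun m _ => sq_nonneg _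
      have a6 : (∑ m, |v m x| + ∑ m, ∑ k, |pd k (v m) x|) ^ 2
          ≤ 18 * ∑ m, (v m x ^ 2 + G2 (v m) x) := by
        rw [Finset.sum_add_distrib]
        linarith
      have a7 := mul_le_mul_of_nonneg_left a6 (sq_nonneg K)
      rw [mul_pow] at a3
      linarith
    have h3 : ∀ m, hw τ x ^ 2 * (v m x ^ 2 + G2 (v m) x)
        ≤ W m x ^ 2 + 2 * G2 (W m) x + 2 * τ ^ 2 * (q2 x * W m x ^ 2) := by
      intro m
      have b1 : ∀ k, hw τ x ^ 2 * pd k (v m) x ^ 2
          ≤ 2 * pd k (W m) x ^ 2 + 2 * τ ^ 2 * (x k ^ 2 * W m x ^ 2) := by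
        intro k
        have b2 : hw τ x * pd k (v m) x = pd k (W m) x - τ * x k * W m x := by
          rw [hW]
          simp only
          rw [pd_hv (hv m)]
          ring
        rw [← mul_pow, b2]
        nlinarith [sq_nonneg (pd k (W m) x + τ * x k * W m x)]
      have b3 := Finset.sum_le_sum fun k (_ : k ∈ (Finset.univ : Finset (Fin 3))) => b1 k
      rw [Finset.sum_add_distrib, ← Finset.mul_sum, ← Finset.mul_sum, ← Finset.mul_sum,
        ← Finset.sum_mul] at b3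
      have b4 : hw τ x ^ 2 * v m x ^ 2 = W m x ^ 2 := by
        rw [hW]
        simp only
        ring
      have b5 : hw τ x ^ 2 * G2 (v m) x
          ≤ 2 * G2 (W m) x + 2 * τ ^ 2 * (q2 x * W m x ^ 2) := b3
      linarith
    rw [e1, mul_pow]
    have h4 := mul_le_mul_of_nonneg_left h1 (sq_nonneg (hw τ x))
    have h5 : hw τ x ^ 2 * (18 * K ^ 2 * ∑ m, (v m x ^ 2 + G2 (v m) x))
        = 18 * K ^ 2 * ∑ m, hw τ x ^ 2 * (v m x ^ 2 + G2 (v m) x) := by
      rw [← Finset.mul_sum]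
      ring
    have h6 := Finset.sum_le_sum fun m (_ : m ∈ (Finset.univ : Finset (Fin 3))) => h3 m
    have h7 := mul_le_mul_of_nonneg_left h6 (by positivity : 0 ≤ 18 * K ^ 2)
    rw [h5] at h4
    refine h4.trans (h7.trans (le_of_eq ?_))
    rw [Finset.mul_sum]
    apply Finset.sum_congr rfl
    intro m _
    ring
  have hint : ∀ i, 8 * τ * E i ≤ ∑ m, (18 * K ^ 2 * (∫ x, W m x ^ 2) + 36 * K ^ 2 * E m) := by
    intro i
    have c1 := carl (sW i) (cW i) τ
    have i4 : ∀ m, Integrable (fun x => 18 * K ^ 2 * W m x ^ 2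
      + 36 * K ^ 2 * G2 (W m) x + 36 * K ^ 2 * τ ^ 2 * (q2 x * W m x ^ 2) + 0 * W m x ^ 2)
        volume := fun m => ((((i1 m).const_mul _).add ((i2 m).const_mul _)).add
          ((i3 m).const_mul _)).add ((i1 m).const_mul _)
    have i5 : Integrable (fun x => Fc τ (W i) x ^ 2) volume := by
      have e : (fun x => Fc τ (W i) x ^ 2) = fun x => (hw τ x * Lp (v i) x) ^ 2 := by
        funext x
        rw [conj (hv i) τ x]
      rw [e]
      exact int_of (hc i) (((hw_sm τ).continuous.mul (Lp_sm (hv i)).continuous).pow 2)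
        fun x hx => by
          rw [Lp_zero hx]
          ring
    have c2 : ∫ x, Fc τ (W i) x ^ 2 ≤ ∫ x, ∑ m, (18 * K ^ 2 * W m x ^ 2
      + 36 * K ^ 2 * G2 (W m) x + 36 * K ^ 2 * τ ^ 2 * (q2 x * W m x ^ 2) + 0 * W m x ^ 2) :=
      integral_mono i5 (integrable_finsetSum _ fun m _ => i4 m) (hpt i)
    rw [integral_finsetSum _ fun m _ => i4 m] at c2
    refine c1.trans (c2.trans (le_of_eq ?_))
    apply Finset.sum_congr rfl
    intro m _
    rw [lin4 _ _ _ _ (i1 m) (i2 m) (i3 m) (i1 m), hE]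
    ring
  have hsum : ∑ m, (18 * K ^ 2 * (∫ x, W m x ^ 2) + 36 * K ^ 2 * E m)
      ≤ 54 * K ^ 2 * ∑ m, E m := by
    rw [Finset.mul_sum]
    apply Finset.sum_le_sum
    intro m _
    have d1 := hU m
    have d2 : 0 ≤ ∫ x, W m x ^ 2 := integral_nonneg fun x => sq_nonneg _
    have d3 : ∫ x, W m x ^ 2 ≤ E m := by nlinarith
    have d4 := mul_le_mul_of_nonneg_left d3 (by positivity : 0 ≤ 18 * K ^ 2)
    linarith
  have htot : 8 * τ * ∑ i, E i ≤ 162 * K ^ 2 * ∑ m, E m := by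
    have f1 : ∑ i, 8 * τ * E i ≤ ∑ _i : Fin 3, 54 * K ^ 2 * ∑ m, E m :=
      Finset.sum_le_sum fun i _ => (hint i).trans hsum
    rw [← Finset.mul_sum] at f1
    simp only [Finset.sum_const, Finset.card_univ, Fintype.card_fin, nsmul_eq_mul,
      Nat.cast_ofNat] at f1
    linarith
  have hS0 : 0 ≤ ∑ i, E i := Finset.sum_nonneg fun i _ => hE0 i
  have hS : ∑ i, E i = 0 := by
    by_contra hne
    have : 0 < ∑ i, E i := lt_of_le_of_ne hS0 (Ne.symm hne)
    nlinarith
  have hEi : E i = 0 := (Finset.sum_eq_zero_iff_of_nonneg fun i _ => hE0 i).1 hS i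
    (Finset.mem_univ i)
  have hWi : ∫ x, W i x ^ 2 ≤ 0 := by
    have := hU i
    rw [hEi] at this
    by_contra hcon
    push Not at hcon
    have h9 : 0 < 3 * τ * ∫ x, W i x ^ 2 := by positivity
    linarith
  have h8 := eq_zero_of_sq (sW i) (cW i) hWi x
  have h9 := hw_pos τ x
  have h10 : hw τ x * v i x = 0 := h8
  rcases mul_eq_zero.1 h10 with h11 | h11
  · linarith
  · exact h11

end Pool.Agent.Run7.h407.Carl
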