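import Mathlib
import Pool.Agent.Run7.h407.D.Choice

/-!
Perturbations which are amplified by a given field.
-/

namespace Pool.Agent.Run7.h407.G.X

open Set Filter Topology MeasureTheory
open scoped ContDiff

/-- A divergence-free field built from the derivatives of a function. -/
noncomputable def Cu (i : Fin 3) (ψ : V → ℝ) : V → V := fun x k =>
  if k = i then pd (i + 1) ψ x else if k = i + 1 then -pd i ψ x else 0

theorem Cu_CF {ψ : V → ℝ} (hψ : Sm ψ) (hc : HasCompactSupport ψ) (i : Fin 3) : CF (Cu i ψ) := by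
  apply CF.of_comp
  · intro k
    unfold Cu
    by_cases h1 : k = i
    · simp only [if_pos h1]
      exact hψ.pd _
    · simp only [if_neg h1]
      by_cases h2 : k = i + 1
      · simp only [if_pos h2]
        exact (hψ.pd _).neg
      · simp only [if_neg h2]
        exact contDiff_const
  · intro k
    unfold Cu
    by_cases h1 : k = i
    · simp only [if_pos h1]
      exact pd_cs hc _
    · simp only [if_neg h1]
      by_cases h2 : k = i + 1
      · simp only [if_pos h2]
        exact (pd_cs hc _).neg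
      · simp only [if_neg h2]
        exact HasCompactSupport.zero

theorem Cu_dvg {ψ : V → ℝ} (hψ : Sm ψ) (i : Fin 3) (x : V) : dvg (Cu i ψ) x = 0 := by
  unfold dvg Cu
  rw [Fin.sum_univ_three]
  fin_cases i
  · simp only [Fin.zero_eta, Fin.isValue, zero_add, if_true, one_ne_zero, if_false,
      show ((2 : Fin 3) = 0) = False by simp, show ((2 : Fin 3) = 1) = False by simp]
    rw [pd_neg, pd_const, pd_comm hψ 0 1]
    ring
  · simp only [Fin.mk_one, Fin.isValue, show (1 : Fin 3) + 1 = 2 by rfl,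
      show ((0 : Fin 3) = 1) = False by simp, show ((0 : Fin 3) = 2) = False by simp, if_false,
      if_true, show ((2 : Fin 3) = 1) = False by simp]
    rw [pd_neg, pd_const, pd_comm hψ 1 2]
    ring
  · simp only [Fin.reduceFinMk, Fin.isValue, show (2 : Fin 3) + 1 = 0 by rfl,
      show ((0 : Fin 3) = 2) = False by simp, show ((1 : Fin 3) = 2) = False by simp, if_false,
      if_true, show ((1 : Fin 3) = 0) = False by simp]
    rw [pd_neg, pd_const, pd_comm hψ 2 0]
    ring

theorem Cu_supp {ψ : V → ℝ} {i : Fin 3} {x : V} (hx : Cu i ψ x ≠ 0) : x ∈ tsupport ψ := by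
  by_contra h
  apply hx
  funext k
  unfold Cu
  rw [pd_eq_zero h, pd_eq_zero h]
  simp

theorem pd_sinN {N : ℝ} (hN : N ≠ 0) (j k : Fin 3) (x : V) :
    pd k (fun y => Real.sin (N * y j) / N) x = if j = k then Real.cos (N * x j) else 0 := by
  unfold pd
  have h : HasFDerivAt (fun y : V => Real.sin (N * y j) / N) _ x :=
    ((hasFDerivAt_apply j x).const_mul N).sin.mul_const (N⁻¹)
  rw [h.fderiv]
  by_cases hjk : j = k
  · subst hjk
    simp
    field_simp
  · simp [hjk]

theorem pd_cosN {N : ℝ} (hN : N ≠ 0) (j k : Fin 3) (x : V) :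
    pd k (fun y => Real.cos (N * y j) / N) x = if j = k then -Real.sin (N * x j) else 0 := by
  unfold pd
  have h : HasFDerivAt (fun y : V => Real.cos (N * y j) / N) _ x :=
    ((hasFDerivAt_apply j x).const_mul N).cos.mul_const (N⁻¹)
  rw [h.fderiv]
  by_cases hjk : j = k
  · subst hjk
    simp
    field_simp
  · simp [hjk]

theorem sinN_sm (N : ℝ) (j : Fin 3) : Sm (fun y : V => Real.sin (N * y j) / N) := by
  have h := coord_sm j
  exact ((contDiff_const.mul h).sin).div_const N

theorem cosN_sm (N : ℝ) (j : Fin 3) : Sm (fun y : V => Real.cos (N * y j) / N) := by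
  have h := coord_sm j
  exact ((contDiff_const.mul h).cos).div_const N

/-- The integrand of the quadratic form. -/
noncomputable def qd (U : V → V) (T : V) (x : V) : ℝ :=
  ∑ a, (∑ b, T b * pd b (fun y => U y a) x) * T a

/-- The pointwise identity. -/
theorem qd_sum {U : V → V} {χ : V → ℝ} (hχ : Sm χ) {N : ℝ} (hN : N ≠ 0) (i : Fin 3) (x : V) :
    qd U (Cu i (fun y => χ y * (Real.sin (N * y (i + 1)) / N)) x) x
      + qd U (Cu i (fun y => χ y * (Real.cos (N * y (i + 1)) / N)) x) x
    = χ x ^ 2 * pd i (fun y => U y i) x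
      + (N ^ 2)⁻¹ * (pd (i + 1) χ x ^ 2 * pd i (fun y => U y i) x
        - pd i χ x * pd (i + 1) χ x * (pd (i + 1) (fun y => U y i) x
          + pd i (fun y => U y (i + 1)) x)
        + pd i χ x ^ 2 * pd (i + 1) (fun y => U y (i + 1)) x) := by
  have e1 : ∀ k, pd k (fun y => χ y * (Real.sin (N * y (i + 1)) / N)) x
      = χ x * (if i + 1 = k then Real.cos (N * x (i + 1)) else 0)
        + pd k χ x * (Real.sin (N * x (i + 1)) / N) := fun k => by
    rw [pd_mul (hχ.diff x) ((sinN_sm N _).diff x), pd_sinN hN]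
  have e2 : ∀ k, pd k (fun y => χ y * (Real.cos (N * y (i + 1)) / N)) x
      = χ x * (if i + 1 = k then -Real.sin (N * x (i + 1)) else 0)
        + pd k χ x * (Real.cos (N * x (i + 1)) / N) := fun k => by
    rw [pd_mul (hχ.diff x) ((cosN_sm N _).diff x), pd_cosN hN]
  have hsc := Real.sin_sq_add_cos_sq (N * x (i + 1))
  unfold qd Cu
  simp only [e1, e2]
  set s := Real.sin (N * x (i + 1))
  set c := Real.cos (N * x (i + 1))
  set p := χ x
  have key : ∀ (P Q G1 G2 G3 G4 : ℝ),
      (((p * c + Q * (s / N)) * G1 + -(P * (s / N)) * G2) * (p * c + Q * (s / N))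
        + ((p * c + Q * (s / N)) * G3 + -(P * (s / N)) * G4) * -(P * (s / N)))
      + (((p * -s + Q * (c / N)) * G1 + -(P * (c / N)) * G2) * (p * -s + Q * (c / N))
        + ((p * -s + Q * (c / N)) * G3 + -(P * (c / N)) * G4) * -(P * (c / N)))
      = p ^ 2 * G1 + (N ^ 2)⁻¹ * (Q ^ 2 * G1 - P * Q * (G2 + G3) + P ^ 2 * G4) := by
    intro P Q G1 G2 G3 G4
    have : (s ^ 2 + c ^ 2) * (p ^ 2 * G1 + (N ^ 2)⁻¹ * (Q ^ 2 * G1 - P * Q * (G2 + G3) + P ^ 2 * G4))
      = (((p * c + Q * (s / N)) * G1 + -(P * (s / N)) * G2) * (p * c + Q * (s / N))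
        + ((p * c + Q * (s / N)) * G3 + -(P * (s / N)) * G4) * -(P * (s / N)))
      + (((p * -s + Q * (c / N)) * G1 + -(P * (c / N)) * G2) * (p * -s + Q * (c / N))
        + ((p * -s + Q * (c / N)) * G3 + -(P * (c / N)) * G4) * -(P * (c / N))) := by
      field_simp
      ring
    rw [← this, hsc, one_mul]
  fin_cases i
  · have := key (pd 0 χ x) (pd 1 χ x) (pd 0 (fun y => U y 0) x) (pd 1 (fun y => U y 0) x)
      (pd 0 (fun y => U y 1) x) (pd 1 (fun y => U y 1) x)
    simp only [Fin.sum_univ_three, Fin.zero_eta, Fin.isValue, zero_add, if_true, one_ne_zero,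
      if_false, show ((2 : Fin 3) = 0) = False by simp, show ((2 : Fin 3) = 1) = False by simp,
      mul_zero, zero_mul, add_zero]
    exact this
  · have := key (pd 1 χ x) (pd 2 χ x) (pd 1 (fun y => U y 1) x) (pd 2 (fun y => U y 1) x)
      (pd 1 (fun y => U y 2) x) (pd 2 (fun y => U y 2) x)
    simp only [Fin.sum_univ_three, Fin.mk_one, Fin.isValue, show (1 : Fin 3) + 1 = 2 by rfl,
      show ((0 : Fin 3) = 1) = False by simp, show ((0 : Fin 3) = 2) = False by simp, if_false,
      if_true, show ((2 : Fin 3) = 1) = False by simp, mul_zero, zero_mul, zero_add]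
    exact this
  · have := key (pd 2 χ x) (pd 0 χ x) (pd 2 (fun y => U y 2) x) (pd 0 (fun y => U y 2) x)
      (pd 2 (fun y => U y 0) x) (pd 0 (fun y => U y 0) x)
    simp only [Fin.sum_univ_three, Fin.reduceFinMk, Fin.isValue, show (2 : Fin 3) + 1 = 0 by rfl,
      show ((0 : Fin 3) = 2) = False by simp, show ((1 : Fin 3) = 2) = False by simp, if_false,
      if_true, show ((1 : Fin 3) = 0) = False by simp, mul_zero, zero_mul, add_zero, zero_add]
    linarith [this]

end Pool.Agent.Run7.h407.G.X
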