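import Mathlib
import Pool.Agent.Run7.h407.D.Pos

/-!
Perturbations which are amplified by a given field and orthogonal to finitely many functionals.
-/

namespace Pool.Agent.Run7.h407.G.X

open Set Filter Topology MeasureTheory
open scoped ContDiff

variable {U : V → V}

theorem tri_qd (U T : V → V) : tri T U T = ∫ x, qd U (T x) x := rfl

theorem base_pos (hU : CF U) {i : Fin 3} {O : Set V} (hO : IsOpen O) (hne : O.Nonempty)
    (hneg : ∀ x ∈ O, pd i (fun y => U y i) x < 0) :
    ∃ T, CF T ∧ (∀ x, dvg T x = 0) ∧ (∀ x, T x ≠ 0 → x ∈ O) ∧ 0 < -tri T U T := by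
  obtain ⟨y, hy⟩ := hne
  obtain ⟨χ, hχs, hχc, hχ, hχr, hχ1⟩ := exists_contDiff_tsupport_subset (n := ⊤)
    (hO.mem_nhds hy)
  have hχ : Sm χ := hχ
  have hp : ∀ i j, Sm (pd j (fun y => U y i)) := fun i j => (hU.smc i).pd j
  set a : V → ℝ := fun x => χ x ^ 2 * pd i (fun y => U y i) x with ha
  set b : V → ℝ := fun x => pd (i + 1) χ x ^ 2 * pd i (fun y => U y i) x
        - pd i χ x * pd (i + 1) χ x * (pd (i + 1) (fun y => U y i) x
          + pd i (fun y => U y (i + 1)) x)
        + pd i χ x ^ 2 * pd (i + 1) (fun y => U y (i + 1)) x with hb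
  have ac : Continuous a := (hχ.continuous.pow 2).mul (hp i i).continuous
  have as : HasCompactSupport a := (pd_cs (hU.csc i) i).mul_left
  have bc : Continuous b := by
    have h1 := (hχ.pd i).continuous
    have h2 := (hχ.pd (i + 1)).continuous
    have h3 := (hp i i).continuous
    have h4 := (hp i (i + 1)).continuous
    have h5 := (hp (i + 1) i).continuous
    have h6 := (hp (i + 1) (i + 1)).continuous
    rw [hb]
    fun_prop
  have bs : HasCompactSupport b := by
    apply HasCompactSupport.intro hχc.isCompact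
    intro x hx
    rw [hb]
    simp only
    rw [pd_eq_zero hx, pd_eq_zero hx]
    ring
  have ai := ac.integrable_of_hasCompactSupport as (μ := volume)
  have bi := bc.integrable_of_hasCompactSupport bs (μ := volume)
  have hneg' : ∀ x, a x ≤ 0 := by
    intro x
    by_cases hx : x ∈ tsupport χ
    · exact mul_nonpos_of_nonneg_of_nonpos (sq_nonneg _) (hneg x (hχs hx)).le
    · rw [ha]
      simp only
      rw [image_eq_zero_of_notMem_tsupport hx]
      simp
  have hI : 0 < ∫ x, -a x := by
    have hai : Integrable (fun x => -a x) volume := ai.neg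
    rw [integral_pos_iff_support_of_nonneg (fun x => by
      show 0 ≤ -a x
      linarith [hneg' x]) hai]
    have ho : IsOpen (Function.support fun x => -a x) := ac.neg.isOpen_support
    refine ho.measure_pos volume ⟨y, ?_⟩
    show -a y ≠ 0
    rw [ha]
    simp only
    rw [hχ1]
    have := hneg y hy
    intro h
    linarith
  rw [integral_neg] at hI
  obtain ⟨N, hN1, hN2⟩ : ∃ N : ℝ, 0 < N ∧ (∫ x, a x) + (N ^ 2)⁻¹ * ∫ x, b x < 0 := by
    have h1 : Tendsto (fun N : ℝ => (∫ x, a x) + (N ^ 2)⁻¹ * ∫ x, b x) atTop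
        (𝓝 ((∫ x, a x) + 0 * ∫ x, b x)) :=
      (tendsto_const_nhds).add
        (((tendsto_pow_atTop (α := ℝ) two_ne_zero).inv_tendsto_atTop).mul_const _)
    have h2 := h1.eventually_lt_const (show (∫ x, a x) + 0 * ∫ x, b x < 0 by linarith)
    obtain ⟨N, hN⟩ := (h2.and (eventually_gt_atTop 0)).exists
    exact ⟨N, hN.2, hN.1⟩
  have hN0 : N ≠ 0 := hN1.ne'
  set s : V → ℝ := fun y => χ y * (Real.sin (N * y (i + 1)) / N) with hs
  set c : V → ℝ := fun y => χ y * (Real.cos (N * y (i + 1)) / N) with hc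
  have ss : Sm s := hχ.mul (sinN_sm N _)
  have cs : Sm c := hχ.mul (cosN_sm N _)
  have s2 : HasCompactSupport s := hχc.mul_right
  have c2 : HasCompactSupport c := hχc.mul_right
  have st : ∀ x ∈ tsupport s, x ∈ O := fun x hx => hχs (tsupport_mul_subset_left hx)
  have ct : ∀ x ∈ tsupport c, x ∈ O := fun x hx => hχs (tsupport_mul_subset_left hx)
  have S1 := Cu_CF ss s2 i
  have C1 := Cu_CF cs c2 i
  have hsum : tri (Cu i s) U (Cu i s) + tri (Cu i c) U (Cu i c)
      = (∫ x, a x) + (N ^ 2)⁻¹ * ∫ x, b x := by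
    rw [tri_qd, tri_qd, ← integral_const_mul, ← integral_add, ← integral_add ai (bi.const_mul _)]
    · congr 1
      funext x
      exact qd_sum hχ hN0 i x
    · exact tri_int S1.sm.continuous hU.sm S1
    · exact tri_int C1.sm.continuous hU.sm C1
  by_cases h : 0 < -tri (Cu i s) U (Cu i s)
  · exact ⟨Cu i s, S1, Cu_dvg ss i, fun x hx => st x (Cu_supp hx), h⟩
  · exact ⟨Cu i c, C1, Cu_dvg cs i, fun x hx => ct x (Cu_supp hx), by linarith⟩

/-- Functionals which are linear on the fields. -/
structure LinF (f : (V → V) → ℝ) : Prop where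
  add : ∀ u v, CF u → CF v → f (fun x => u x + v x) = f u + f v
  smul : ∀ (c : ℝ) u, CF u → f (fun x => c • u x) = c * f u

/-- There is an amplified field annihilated by the functionals. -/
def Pp (U : V → V) (F : List ((V → V) → ℝ)) (O : Set V) : Prop :=
  ∃ T, CF T ∧ (∀ x, dvg T x = 0) ∧ (∀ x, T x ≠ 0 → x ∈ O) ∧ 0 < -tri T U T ∧ ∀ f ∈ F, f T = 0

theorem qd_comb (U : V → V) {x : V} {a b : ℝ} {v w : V} (h : v = 0 ∨ w = 0) :
    qd U (a • v + b • w) x = a ^ 2 * qd U v x + b ^ 2 * qd U w x := by
  have key : ∀ (c : ℝ) (v : V), qd U (c • v) x = c ^ 2 * qd U v x := by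
    intro c v
    unfold qd
    rw [Finset.mul_sum]
    apply Finset.sum_congr rfl
    intro i _
    simp only [Pi.smul_apply, smul_eq_mul]
    rw [show ∑ b, c * v b * pd b (fun y => U y i) x = c * ∑ b, v b * pd b (fun y => U y i) x by
      rw [Finset.mul_sum]
      apply Finset.sum_congr rfl
      intro b _
      ring]
    ring
  have h0 : qd U 0 x = 0 := by
    unfold qd
    simp
  rcases h with h | h
  · subst h
    rw [smul_zero, zero_add, key, h0]
    ring
  · subst h
    rw [smul_zero, add_zero, key, h0]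
    ring

theorem Pp_step (hU : CF U) {F : List ((V → V) → ℝ)} {Ω : Set V} (hF : ∀ g ∈ F, LinF g)
    {f : (V → V) → ℝ} (hf : LinF f)
    (h : ∀ O : Set V, IsOpen O → O.Nonempty → O ⊆ Ω → Pp U F O) :
    ∀ O : Set V, IsOpen O → O.Nonempty → O ⊆ Ω → Pp U (f :: F) O := by
  intro O hO hne hOΩ
  obtain ⟨y, hy⟩ := hne
  obtain ⟨r, hr, hball⟩ := Metric.isOpen_iff.1 hO y hy
  have hpt : ∀ t : ℝ, |t| < r → y + t • ez ∈ O := by
    intro t ht
    apply hball
    rw [Metric.mem_ball, dist_eq_norm]
    simp only [add_sub_cancel_left]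
    rw [norm_smul, norm_ez, mul_one, Real.norm_eq_abs]
    exact ht
  have o1 : IsOpen (O ∩ {z : V | z 2 < y 2}) :=
    hO.inter (isOpen_lt (continuous_apply 2) continuous_const)
  have o2 : IsOpen (O ∩ {z : V | y 2 < z 2}) :=
    hO.inter (isOpen_lt continuous_const (continuous_apply 2))
  obtain ⟨T1, c1, d1, s1, p1, f1⟩ := h _ o1 ⟨y + (-(r / 2)) • ez, hpt _ (by
    rw [abs_neg, abs_of_pos (by linarith)]
    linarith), by
      show (y + (-(r / 2)) • ez) 2 < y 2
      simp only [Pi.add_apply, Pi.smul_apply, ez_two, smul_eq_mul]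
      linarith⟩ (inter_subset_left.trans hOΩ)
  obtain ⟨T2, c2, d2, s2, p2, f2⟩ := h _ o2 ⟨y + (r / 2) • ez, hpt _ (by
    rw [abs_of_pos (by linarith)]
    linarith), by
      show y 2 < (y + (r / 2) • ez) 2
      simp only [Pi.add_apply, Pi.smul_apply, ez_two, smul_eq_mul]
      linarith⟩ (inter_subset_left.trans hOΩ)
  by_cases h0 : f T1 = 0
  · refine ⟨T1, c1, d1, fun x hx => (s1 x hx).1, p1, fun g hg => ?_⟩
    rcases List.mem_cons.1 hg with rfl | hg
    · exact h0
    · exact f1 g hg
  · have hdis : ∀ x, T1 x = 0 ∨ T2 x = 0 := by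
      intro x
      by_contra hcon
      push Not at hcon
      have a1 : x 2 < y 2 := (s1 x hcon.1).2
      have a2 : y 2 < x 2 := (s2 x hcon.2).2
      linarith
    refine ⟨fun x => (f T2) • T1 x + (-f T1) • T2 x, (c1.smul _).add (c2.smul _), fun x => ?_,
      fun x hx => ?_, ?_, fun g hg => ?_⟩
    · rw [dvg_add (c1.smul _) (c2.smul _), dvg_smul _ c1, dvg_smul _ c2, d1, d2]
      ring
    · rcases hdis x with h1 | h1
      · apply (s2 x _).1
        intro h2
        apply hx
        show (f T2) • T1 x + (-f T1) • T2 x = 0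
        rw [h1, h2, smul_zero, smul_zero, add_zero]
      · apply (s1 x _).1
        intro h2
        apply hx
        show (f T2) • T1 x + (-f T1) • T2 x = 0
        rw [h1, h2, smul_zero, smul_zero, add_zero]
    · have e : tri (fun x => (f T2) • T1 x + (-f T1) • T2 x) U
          (fun x => (f T2) • T1 x + (-f T1) • T2 x)
          = (f T2) ^ 2 * tri T1 U T1 + (f T1) ^ 2 * tri T2 U T2 := by
        rw [tri_qd, tri_qd, tri_qd, ← integral_const_mul, ← integral_const_mul, ← integral_add]
        · congr 1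
          funext x
          show qd U ((f T2) • T1 x + (-f T1) • T2 x) x = _
          rw [qd_comb U (hdis x), neg_sq]
        · exact (tri_int c1.sm.continuous hU.sm c1).const_mul _
        · exact (tri_int c2.sm.continuous hU.sm c2).const_mul _
      rw [e]
      have h3 : 0 < (f T1) ^ 2 := by positivity
      have h4 : 0 ≤ (f T2) ^ 2 := sq_nonneg _
      nlinarith
    · rcases List.mem_cons.1 hg with rfl | hg
      · rw [hf.add _ _ (c1.smul _) (c2.smul _), hf.smul _ _ c1, hf.smul _ _ c2]
        ring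
      · have hgl := hF g hg
        rw [hgl.add _ _ (c1.smul _) (c2.smul _), hgl.smul _ _ c1, hgl.smul _ _ c2, f1 g hg,
          f2 g hg]
        ring

theorem exists_neg (hU : CF U) (hd : ∀ x, dvg U x = 0) (hn : 0 < ip U U) :
    ∃ (i : Fin 3) (x : V), pd i (fun y => U y i) x < 0 := by
  by_contra hcon
  push Not at hcon
  have hz : ∀ i x, pd i (fun y => U y i) x = 0 := by
    intro i x
    have h1 : ∑ i, pd i (fun y => U y i) x = 0 := hd x
    exact (Finset.sum_eq_zero_iff_of_nonneg (fun i _ => hcon i x)).1 h1 i (Finset.mem_univ i)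
  have h2 : ∀ i, ∫ x, U x i * U x i = 0 := by
    intro i
    have hs := hU.smc i
    have h3 := ibp hs ((coord_sm i).mul hs) (hU.csc i) i
    have h4 : ∀ x, pd i (fun y => y i * U y i) x = U x i := by
      intro x
      rw [pd_mul ((coord_sm i).diff x) (hs.diff x), hz, pd_coord, if_pos rfl]
      ring
    simp only [h4, hz, zero_mul, integral_zero, neg_zero] at h3
    exact h3
  have h5 : ip U U = 0 := by
    unfold ip
    rw [integral_finsetSum]
    · exact Finset.sum_eq_zero fun i _ => h2 i
    · intro i _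
      exact integrable_of_cs (hU.smc i).continuous (hU.csc i) (hU.smc i).continuous
  linarith

theorem exists_T0 (hU : CF U) (hd : ∀ x, dvg U x = 0) (hn : 0 < ip U U) :
    ∃ T, CF T ∧ (∀ x, dvg T x = 0) ∧ (∀ x, T x ≠ 0 → x ∈ tsupport U) ∧ 0 < -tri T U T ∧
      ip U T = 0 ∧ Dir U T = 0 ∧ tri U U T = 0 := by
  obtain ⟨i, x0, hx0⟩ := exists_neg hU hd hn
  set Ω : Set V := {x | pd i (fun y => U y i) x < 0} with hΩ
  have hΩo : IsOpen Ω := isOpen_lt ((hU.smc i).pd i).continuous continuous_const
  have f1 : LinF (fun v => ip U v) := ⟨fun u v hu hv => by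
    show ip U _ = _
    rw [ip_comm, ip_add_left hu hv hU, ip_comm, ip_comm v], fun c u hu => by
    show ip U _ = _
    rw [ip_comm, ip_smul_left, ip_comm]⟩
  have f2 : LinF (fun v => Dir U v) := ⟨fun u v hu hv => by
    show Dir U _ = _
    rw [Dir_comm, Dir_add_left hu hv hU, Dir_comm, Dir_comm v], fun c u hu => by
    show Dir U _ = _
    rw [Dir_comm, Dir_smul_left _ hu, Dir_comm]⟩
  have f3 : LinF (fun v => tri U U v) := ⟨fun u v hu hv => tri_add_right hU hU hu hv,
    fun c u _ => tri_smul_right c U U u⟩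
  have s0 : ∀ O : Set V, IsOpen O → O.Nonempty → O ⊆ Ω → Pp U [] O := by
    intro O hO hne hs
    obtain ⟨T, a, b, c, d⟩ := base_pos hU hO hne (fun x hx => hs hx)
    exact ⟨T, a, b, c, d, fun f hf => absurd hf (by simp)⟩
  have s1 := Pp_step hU (F := []) (by simp) f1 s0
  have s2 := Pp_step hU (F := [fun v => ip U v]) (by simpa using f1) f2 s1
  have s3 := Pp_step hU (F := [fun v => Dir U v, fun v => ip U v]) (by
    intro g hg
    simp only [List.mem_cons, List.not_mem_nil, or_false] at hg
    rcases hg with rfl | rfl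
    · exact f2
    · exact f1) f3 s2
  obtain ⟨T, a, b, c, d, e⟩ := s3 Ω hΩo ⟨x0, hx0⟩ subset_rfl
  refine ⟨T, a, b, fun x hx => ?_, d, ?_, ?_, ?_⟩
  · by_contra hcon
    have h1 : pd i (fun y => U y i) x = 0 := by
      apply pd_eq_zero
      intro h2
      apply hcon
      exact closure_mono (fun y hy => by
        intro h3
        apply hy
        show U y i = 0
        rw [h3]
        rfl) h2
    have h4 : pd i (fun y => U y i) x < 0 := c x hx
    linarith
  · exact e (fun v => ip U v) (by simp)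
  · exact e (fun v => Dir U v) (by simp)
  · exact e (fun v => tri U U v) (by simp)

end Pool.Agent.Run7.h407.G.X
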