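import Mathlib
import Pool.Agent.Run7.h407.D.Pos2
import Pool.Agent.Run7.h407.D.Carl2

/-!
A field which is not a steady Euler flow drives a divergence-free field orthogonal to it.
-/

namespace Pool.Agent.Run7.h407.G.X

open Set Filter Topology MeasureTheory
open scoped ContDiff

/-- The components of the curl. -/
noncomputable def om (i : Fin 3) (F : V → V) (x : V) : ℝ :=
  pd (i + 1) (fun y => F y i) x - pd i (fun y => F y (i + 1)) x

theorem om_sm {F : V → V} (hF : CF F) (i : Fin 3) : Sm (om i F) :=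
  ((hF.smc i).pd (i + 1)).sub ((hF.smc (i + 1)).pd i)

theorem om_cs {F : V → V} (hF : CF F) (i : Fin 3) : HasCompactSupport (om i F) :=
  (pd_cs (hF.csc i) (i + 1)).sub (pd_cs (hF.csc (i + 1)) i)

theorem ip_Cu {F : V → V} (hF : CF F) {ψ : V → ℝ} (hψ : Sm ψ) (hc : HasCompactSupport ψ)
    (i : Fin 3) : ip F (Cu i ψ) = -∫ x, ψ x * om i F x := by
  have h1 := ibp hψ (hF.smc i) hc (i + 1)
  have h2 := ibp hψ (hF.smc (i + 1)) hc i
  have i1 : Integrable (fun x => ψ x * pd (i + 1) (fun y => F y i) x) volume :=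
    integrable_of_cs hψ.continuous hc ((hF.smc i).pd _).continuous
  have i2 : Integrable (fun x => ψ x * pd i (fun y => F y (i + 1)) x) volume :=
    integrable_of_cs hψ.continuous hc ((hF.smc (i + 1)).pd _).continuous
  have i3 : Integrable (fun x => pd (i + 1) ψ x * F x i) volume :=
    integrable_of_cs (hψ.pd _).continuous (pd_cs hc _) (hF.smc i).continuous
  have i4 : Integrable (fun x => pd i ψ x * F x (i + 1)) volume :=
    integrable_of_cs (hψ.pd _).continuous (pd_cs hc _) (hF.smc (i + 1)).continuous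
  have e1 : ip F (Cu i ψ) = ∫ x, (pd (i + 1) ψ x * F x i - pd i ψ x * F x (i + 1)) := by
    unfold ip
    congr 1
    funext x
    unfold Cu
    fin_cases i
    · simp only [Fin.sum_univ_three, Fin.zero_eta, Fin.isValue, zero_add, if_true, one_ne_zero,
        if_false, show ((2 : Fin 3) = 0) = False by simp, show ((2 : Fin 3) = 1) = False by simp,
        mul_zero, add_zero]
      ring
    · simp only [Fin.sum_univ_three, Fin.mk_one, Fin.isValue, show (1 : Fin 3) + 1 = 2 by rfl,
        show ((0 : Fin 3) = 1) = False by simp, show ((0 : Fin 3) = 2) = False by simp, if_false,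
        if_true, show ((2 : Fin 3) = 1) = False by simp, mul_zero, zero_add]
      ring
    · simp only [Fin.sum_univ_three, Fin.reduceFinMk, Fin.isValue,
        show (2 : Fin 3) + 1 = 0 by rfl,
        show ((0 : Fin 3) = 2) = False by simp, show ((1 : Fin 3) = 2) = False by simp, if_false,
        if_true, show ((1 : Fin 3) = 0) = False by simp, mul_zero, add_zero]
      ring
  have e2 : ∫ x, ψ x * om i F x = (∫ x, ψ x * pd (i + 1) (fun y => F y i) x)
      - ∫ x, ψ x * pd i (fun y => F y (i + 1)) x := by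
    rw [← integral_sub i1 i2]
    congr 1
    funext x
    unfold om
    ring
  rw [e1, e2, integral_sub i3 i4, h1, h2]
  ring

/-- The space of the compactly supported divergence-free fields which vanish near the origin. -/
noncomputable def D0 : Submodule ℝ (V → V) where
  carrier := {v | CF v ∧ (∀ x, dvg v x = 0) ∧ Aw0 v}
  add_mem' := fun {u v} hu hv => ⟨hu.1.add hv.1, fun x => by
    have := dvg_add hu.1 hv.1 x
    show dvg (fun y => u y + v y) x = 0
    rw [this, hu.2.1, hv.2.1, add_zero], hu.2.2.add hv.2.2⟩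
  zero_mem' := ⟨⟨contDiff_const, HasCompactSupport.zero⟩, fun x => by
    show ∑ i, pd i (fun _ => (0 : ℝ)) x = 0
    simp_rw [pd_const]
    simp, ⟨1, one_pos, fun _ _ => rfl⟩⟩
  smul_mem' := fun c u hu => ⟨hu.1.smul c, fun x => by
    have := dvg_smul c hu.1 x
    show dvg (fun y => c • u y) x = 0
    rw [this, hu.2.1, mul_zero], hu.2.2.smul c⟩

/-- Restriction of a functional. -/
noncomputable def rst {f : (V → V) → ℝ} (hf : LinF f) : D0 →ₗ[ℝ] ℝ where
  toFun := fun v => f v
  map_add' := fun u v => hf.add _ _ u.2.1 v.2.1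
  map_smul' := fun c u => hf.smul c _ u.2.1

variable {U : V → V}

theorem lin_ip (hU : CF U) : LinF (fun v => ip U v) := ⟨fun u v hu hv => by
    show ip U _ = _
    rw [ip_comm, ip_add_left hu hv hU, ip_comm, ip_comm v], fun c u hu => by
    show ip U _ = _
    rw [ip_comm, ip_smul_left, ip_comm]⟩

theorem lin_Dir (hU : CF U) : LinF (fun v => Dir U v) := ⟨fun u v hu hv => by
    show Dir U _ = _
    rw [Dir_comm, Dir_add_left hu hv hU, Dir_comm, Dir_comm v], fun c u hu => by
    show Dir U _ = _
    rw [Dir_comm, Dir_smul_left _ hu, Dir_comm]⟩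

theorem lin_tri (hU : CF U) : LinF (fun v => tri U U v) :=
  ⟨fun u v hu hv => tri_add_right hU hU hu hv, fun c u _ => tri_smul_right c U U u⟩

theorem alt (hU : CF U) : (∃ φ ∈ D0, ip U φ = 0 ∧ Dir U φ = 0 ∧ tri U U φ ≠ 0) ∨
    ∃ α β : ℝ, ∀ φ ∈ D0, tri U U φ = α * ip U φ + β * Dir U φ := by
  by_cases h : ∃ φ ∈ D0, ip U φ = 0 ∧ Dir U φ = 0 ∧ tri U U φ ≠ 0
  · exact Or.inl h
  · right
    push Not at h
    have h1 : ⨅ i, LinearMap.ker ((![rst (lin_ip hU), rst (lin_Dir hU)] :
        Fin 2 → (D0 →ₗ[ℝ] ℝ)) i) ≤ LinearMap.ker (rst (lin_tri hU)) := by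
      intro v hv
      rw [Submodule.mem_iInf] at hv
      have a1 := hv 0
      have a2 := hv 1
      rw [LinearMap.mem_ker] at a1 a2 ⊢
      exact h v v.2 a1 a2
    have h2 := mem_span_of_iInf_ker_le_ker h1
    rw [Submodule.mem_span_range_iff_exists_fun] at h2
    obtain ⟨c, hc⟩ := h2
    refine ⟨c 0, c 1, fun φ hφ => ?_⟩
    have h3 := congrArg (fun f => f ⟨φ, hφ⟩) hc
    simp only [Fin.sum_univ_two] at h3
    exact h3.symm

/-- The antisymmetric part of the gradient. -/
noncomputable def wg (U : V → V) (a b : Fin 3) (x : V) : ℝ :=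
  pd a (fun y => U y b) x - pd b (fun y => U y a) x

theorem wg_le (U : V → V) (a b : Fin 3) (x : V) : |wg U a b x| ≤ ∑ m, |om m U x| := by
  have h0 := abs_nonneg (om 0 U x)
  have h1 := abs_nonneg (om 1 U x)
  have h2 := abs_nonneg (om 2 U x)
  rw [Fin.sum_univ_three]
  have e0 : om 0 U x = pd 1 (fun y => U y 0) x - pd 0 (fun y => U y 1) x := rfl
  have e1 : om 1 U x = pd 2 (fun y => U y 1) x - pd 1 (fun y => U y 2) x := rfl
  have e2 : om 2 U x = pd 0 (fun y => U y 2) x - pd 2 (fun y => U y 0) x := rfl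
  have z : ∀ a, wg U a a x = 0 := fun a => sub_self _
  have s : ∀ a b, wg U a b x = -wg U b a x := fun a b => by
    unfold wg
    ring
  have f0 : wg U 1 0 x = om 0 U x := rfl
  have f1 : wg U 2 1 x = om 1 U x := rfl
  have f2 : wg U 0 2 x = om 2 U x := rfl
  fin_cases a <;> fin_cases b
  · show |wg U 0 0 x| ≤ _
    rw [z, abs_zero]
    positivity
  · show |wg U 0 1 x| ≤ _
    rw [s, f0, abs_neg]
    linarith
  · show |wg U 0 2 x| ≤ _
    rw [f2]
    linarith
  · show |wg U 1 0 x| ≤ _
    rw [f0]
    linarith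
  · show |wg U 1 1 x| ≤ _
    rw [z, abs_zero]
    positivity
  · show |wg U 1 2 x| ≤ _
    rw [s, f1, abs_neg]
    linarith
  · show |wg U 2 0 x| ≤ _
    rw [s, f2, abs_neg]
    linarith
  · show |wg U 2 1 x| ≤ _
    rw [f1]
    linarith
  · show |wg U 2 2 x| ≤ _
    rw [z, abs_zero]
    positivity

theorem pd_adv (hU : CF U) (a i : Fin 3) (x : V) : pd a (fun y => adv U U y i) x
    = ∑ j, (U x j * pd a (pd j (fun y => U y i)) x
      + pd a (fun y => U y j) x * pd j (fun y => U y i) x) := by
  have e : (fun y => adv U U y i) = fun y => ∑ j, U y j * pd j (fun z => U z i) y := rfl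
  have hs : ∀ j, Sm (fun y => U y j * pd j (fun z => U z i) y) := fun j =>
    (hU.smc j).mul ((hU.smc i).pd j)
  rw [e, pd_sum fun j _ => (hs j).diff x]
  apply Finset.sum_congr rfl
  intro j _
  rw [pd_mul ((hU.smc j).diff x) (((hU.smc i).pd j).diff x)]

/-- The vorticity equation. -/
theorem om_adv (hU : CF U) (i : Fin 3) (x : V) : om i (adv U U) x
    = ∑ j, U x j * pd j (om i U) x
      + ∑ j, (wg U (i + 1) j x * pd j (fun y => U y i) x
        - wg U i j x * pd j (fun y => U y (i + 1)) x) := by
  have e : ∀ j, pd j (om i U) x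
      = pd (i + 1) (pd j (fun y => U y i)) x - pd i (pd j (fun y => U y (i + 1))) x := by
    intro j
    have e1 : om i U = fun y => pd (i + 1) (fun y => U y i) y - pd i (fun y => U y (i + 1)) y := rfl
    rw [e1, pd_sub (((hU.smc i).pd _).diff x) (((hU.smc (i + 1)).pd _).diff x),
      pd_comm (hU.smc i), pd_comm (hU.smc (i + 1))]
  have e0 : om i (adv U U) x
      = pd (i + 1) (fun y => adv U U y i) x - pd i (fun y => adv U U y (i + 1)) x := rfl
  rw [e0, pd_adv hU, pd_adv hU, ← Finset.sum_sub_distrib, ← Finset.sum_add_distrib]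
  apply Finset.sum_congr rfl
  intro j _
  rw [e]
  unfold wg
  ring

theorem om_lap (hU : CF U) (i : Fin 3) (x : V) : om i (lap U) x = Carl.Lp (om i U) x := by
  have e0 : om i (lap U) x
      = pd (i + 1) (fun y => lap U y i) x - pd i (fun y => lap U y (i + 1)) x := rfl
  have e1 : ∀ a b, pd a (fun y => lap U y b) x = ∑ j, pd j (pd j (pd a (fun y => U y b))) x := by
    intro a b
    have e : (fun y => lap U y b) = fun y => ∑ j, pd j (pd j (fun z => U z b)) y := rfl
    rw [e, pd_sum fun j _ => (((hU.smc b).pd j).pd j).diff x]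
    apply Finset.sum_congr rfl
    intro j _
    rw [pd_comm ((hU.smc b).pd j)]
    have e3 : pd a (pd j (fun z => U z b)) = pd j (pd a (fun z => U z b)) :=
      funext fun y => pd_comm (hU.smc b) a j y
    rw [e3]
  have e2 : ∀ j, pd j (pd j (om i U)) x = pd j (pd j (pd (i + 1) (fun y => U y i))) x
      - pd j (pd j (pd i (fun y => U y (i + 1)))) x := by
    intro j
    have a1 : om i U = fun y => pd (i + 1) (fun y => U y i) y - pd i (fun y => U y (i + 1)) y := rfl
    have a2 : pd j (om i U) = fun y => pd j (pd (i + 1) (fun y => U y i)) y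
        - pd j (pd i (fun y => U y (i + 1))) y := by
      funext y
      rw [a1, pd_sub (((hU.smc i).pd _).diff y) (((hU.smc (i + 1)).pd _).diff y)]
    rw [a2, pd_sub ((((hU.smc i).pd _).pd j).diff x) ((((hU.smc (i + 1)).pd _).pd j).diff x)]
  unfold Carl.Lp
  rw [e0, e1, e1, ← Finset.sum_sub_distrib]
  exact Finset.sum_congr rfl fun j _ => (e2 j).symm

/-- A compactly supported field without curl and divergence vanishes. -/
theorem zero_of_om (hU : CF U) (hd : ∀ x, dvg U x = 0) (h : ∀ i x, om i U x = 0) (x : V) :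
    U x = 0 := by
  have hw : ∀ a b x, wg U a b x = 0 := by
    intro a b x
    have h1 := wg_le U a b x
    simp only [h, abs_zero, Finset.sum_const_zero] at h1
    exact abs_nonpos_iff.1 h1
  have hs : ∀ k i, pd k (fun y => U y i) = pd i (fun y => U y k) := by
    intro k i
    funext y
    have := hw k i y
    unfold wg at this
    linarith
  have hL : ∀ i x, Carl.Lp (fun y => U y i) x = 0 := by
    intro i x
    unfold Carl.Lp
    have e1 : ∀ k, pd k (pd k (fun y => U y i)) x = pd i (pd k (fun y => U y k)) x := by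
      intro k
      rw [hs k i, pd_comm (hU.smc k)]
    simp_rw [e1]
    have e2 : ∑ k, pd i (pd k (fun y => U y k)) x = pd i (dvg U) x := by
      have e : dvg U = fun y => ∑ k, pd k (fun z => U z k) y := rfl
      rw [e, pd_sum fun k _ => ((hU.smc k).pd k).diff x]
    rw [e2]
    have e3 : dvg U = fun _ => 0 := funext hd
    rw [e3, pd_const]
  funext i
  exact Carl.uc (fun i y => U y i) (fun i => hU.smc i) (fun i => hU.csc i) (K := 0)
    (fun i x => by
      rw [hL i x]
      simp) i x

theorem exists_phi (hU : CF U) (hd : ∀ x, dvg U x = 0) (hn : 0 < ip U U) (ha : Aw0 U)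
    (hns : ∃ i x, om i (adv U U) x ≠ 0) :
    ∃ φ, CF φ ∧ (∀ x, dvg φ x = 0) ∧ Aw0 φ ∧ ip U φ = 0 ∧ Dir U φ = 0 ∧ tri U U φ = -1 := by
  rcases alt hU with ⟨φ, ⟨h1, h2, h3⟩, h4, h5, h6⟩ | ⟨α, β, h⟩
  · refine ⟨fun x => (-(tri U U φ)⁻¹) • φ x, h1.smul _, fun x => ?_, h3.smul _, ?_, ?_, ?_⟩
    · rw [dvg_smul _ h1, h2, mul_zero]
    · have := (lin_ip hU).smul (-(tri U U φ)⁻¹) φ h1
      exact this.trans (by rw [h4, mul_zero])
    · have := (lin_Dir hU).smul (-(tri U U φ)⁻¹) φ h1
      exact this.trans (by rw [h5, mul_zero])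
    · rw [tri_smul_right]
      field_simp
  exfalso
  have cA := adv_CF hU hU
  have cL := lap_CF hU
  have aA : Aw0 (adv U U) := ha.adv _
  have aL : Aw0 (lap U) := ha.lap
  set G : Fin 3 → V → ℝ := fun i x => om i (adv U U) x - α * om i U x + β * om i (lap U) x
    with hG
  have sG : ∀ i, Sm (G i) := fun i =>
    ((om_sm cA i).sub (contDiff_const.mul (om_sm hU i))).add (contDiff_const.mul (om_sm cL i))
  have cG : ∀ i, HasCompactSupport (G i) := fun i =>
    ((om_cs cA i).sub (om_cs hU i).mul_left).add (om_cs cL i).mul_left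
  have omz : ∀ {F : V → V}, Aw0 F → ∃ a > 0, ∀ i x, ‖x‖ < a → om i F x = 0 := by
    rintro F ⟨a, ha, hF⟩
    refine ⟨a, ha, fun i x hx => ?_⟩
    have hz : ∀ᶠ y in 𝓝 x, F y = 0 := by
      filter_upwards [nhds_ltn hx] with y hy
      exact hF y hy
    unfold om
    rw [pd_ev_zero hz, pd_ev_zero hz, sub_zero]
  have aG : ∃ a > 0, ∀ i x, ‖x‖ < a → G i x = 0 := by
    obtain ⟨a1, p1, z1⟩ := omz aA
    obtain ⟨a2, p2, z2⟩ := omz ha
    obtain ⟨a3, p3, z3⟩ := omz aL
    refine ⟨min a1 (min a2 a3), lt_min p1 (lt_min p2 p3), fun i x hx => ?_⟩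
    rw [hG]
    simp only
    rw [z1 i x (hx.trans_le (min_le_left _ _)),
      z2 i x (hx.trans_le ((min_le_right _ _).trans (min_le_left _ _))),
      z3 i x (hx.trans_le ((min_le_right _ _).trans (min_le_right _ _)))]
    ring
  have hGz : ∀ i x, G i x = 0 := by
    intro i
    obtain ⟨a, ap, az⟩ := aG
    have hmem : Cu i (G i) ∈ D0 := by
      refine ⟨Cu_CF (sG i) (cG i) i, Cu_dvg (sG i) i, a, ap, fun x hx => ?_⟩
      by_contra hcon
      have h1 := Cu_supp hcon
      have h2 : x ∉ tsupport (G i) := by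
        rw [notMem_tsupport_iff_eventuallyEq]
        filter_upwards [nhds_ltn hx] with y hy
        exact az i y hy
      exact h2 h1
    have h1 := h _ hmem
    have e1 : tri U U (Cu i (G i)) = -∫ x, G i x * om i (adv U U) x := by
      rw [← ip_adv]
      exact ip_Cu cA (sG i) (cG i) i
    have e2 : ip U (Cu i (G i)) = -∫ x, G i x * om i U x := ip_Cu hU (sG i) (cG i) i
    have e3 : Dir U (Cu i (G i)) = ∫ x, G i x * om i (lap U) x := by
      have h2 := ip_lap hU (Cu_CF (sG i) (cG i) i)
      rw [ip_Cu cL (sG i) (cG i) i] at h2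
      linarith
    rw [e1, e2, e3] at h1
    have i1 : Integrable (fun x => G i x * om i (adv U U) x) volume :=
      integrable_of_cs (sG i).continuous (cG i) (om_sm cA i).continuous
    have i2 : Integrable (fun x => G i x * om i U x) volume :=
      integrable_of_cs (sG i).continuous (cG i) (om_sm hU i).continuous
    have i3 : Integrable (fun x => G i x * om i (lap U) x) volume :=
      integrable_of_cs (sG i).continuous (cG i) (om_sm cL i).continuous
    have e4 : ∫ x, G i x ^ 2 = 1 * (∫ x, G i x * om i (adv U U) x)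
        + (-α) * (∫ x, G i x * om i U x) + β * (∫ x, G i x * om i (lap U) x)
        + 0 * ∫ x, G i x * om i U x := by
      rw [← Carl.lin4 _ _ _ _ i1 i2 i3 i2]
      congr 1
      funext x
      rw [hG]
      ring
    intro x
    apply Carl.eq_zero_of_sq (sG i) (cG i) _ x
    rw [e4]
    linarith
  by_cases hβ : β = 0
  · have h1 := h U ⟨hU, hd, ha⟩
    rw [tri_self hU hd hU, hβ, zero_mul, add_zero] at h1
    have hα : α = 0 := by
      rcases mul_eq_zero.1 h1.symm with h2 | h2
      · exact h2
      · linarith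
    obtain ⟨i, x, hx⟩ := hns
    apply hx
    have h2 := hGz i x
    rw [hG] at h2
    simp only at h2
    rw [hα, hβ] at h2
    linarith
  · -- the case of a damped stationary viscous flow
    choose M0 m0 b0 using fun k : Fin 3 => cs_bound' (hU.smc k) (hU.csc k)
    choose M1 m1 b1 using fun (i j : Fin 3) =>
      cs_bound' ((hU.smc i).pd j) (pd_cs (hU.csc i) j)
    set A0 := ∑ k, M0 k with hA0
    set A1 := ∑ i, ∑ j, M1 i j with hA1
    have hA0' : ∀ k, M0 k ≤ A0 := fun k =>
      Finset.single_le_sum (f := M0) (fun k _ => m0 k) (Finset.mem_univ k)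
    have hA1' : ∀ i j, M1 i j ≤ A1 := by
      intro i j
      refine (Finset.single_le_sum (f := fun j => M1 i j) (fun j _ => m1 i j)
        (Finset.mem_univ j)).trans ?_
      exact Finset.single_le_sum (f := fun i => ∑ j, M1 i j)
        (fun i _ => Finset.sum_nonneg fun j _ => m1 i j) (Finset.mem_univ i)
    have hA1p : 0 ≤ A1 := (m1 0 0).trans (hA1' 0 0)
    have hβa : 0 < |β| := abs_pos.2 hβ
    have hA0p : 0 ≤ A0 := (m0 0).trans (hA0' 0)
    have key : ∀ i x, |Carl.Lp (om i U) x|
        ≤ (|α| + A0 + 6 * A1) / |β| * (∑ m, |om m U x| + ∑ m, ∑ k, |pd k (om m U) x|) := by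
      intro i x
      have h1 := hGz i x
      rw [hG] at h1
      simp only at h1
      rw [om_lap hU] at h1
      set S1 := ∑ m, |om m U x| with hS1
      set S2 := ∑ m, ∑ k, |pd k (om m U) x| with hS2
      have hS10 : 0 ≤ S1 := Finset.sum_nonneg fun m _ => abs_nonneg _
      have hS20 : 0 ≤ S2 := Finset.sum_nonneg fun m _ => Finset.sum_nonneg fun k _ => abs_nonneg _
      have hom : |om i U x| ≤ S1 :=
        Finset.single_le_sum (f := fun m => |om m U x|) (fun m _ => abs_nonneg _)
          (Finset.mem_univ i)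
      have hgr : ∑ k, |pd k (om i U) x| ≤ S2 :=
        Finset.single_le_sum (f := fun m => ∑ k, |pd k (om m U) x|)
          (fun m _ => Finset.sum_nonneg fun k _ => abs_nonneg _) (Finset.mem_univ i)
      have h2 : |om i (adv U U) x| ≤ A0 * S2 + 6 * A1 * S1 := by
        rw [om_adv hU]
        refine (abs_add_le _ _).trans (add_le_add ?_ ?_)
        · refine (Finset.abs_sum_le_sum_abs _ _).trans ?_
          have h3 : ∑ k, |U x k * pd k (om i U) x| ≤ ∑ k, A0 * |pd k (om i U) x| := by
            apply Finset.sum_le_sum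
            intro k _
            rw [abs_mul]
            exact mul_le_mul_of_nonneg_right ((b0 k x).trans (hA0' k)) (abs_nonneg _)
          rw [← Finset.mul_sum] at h3
          exact h3.trans (mul_le_mul_of_nonneg_left hgr hA0p)
        · refine (Finset.abs_sum_le_sum_abs _ _).trans ?_
          have h3 : ∑ j, |wg U (i + 1) j x * pd j (fun y => U y i) x
              - wg U i j x * pd j (fun y => U y (i + 1)) x| ≤ ∑ _j : Fin 3, 2 * (S1 * A1) := by
            apply Finset.sum_le_sum
            intro j _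
            refine (abs_sub _ _).trans ?_
            rw [abs_mul, abs_mul]
            have p1 := mul_le_mul (wg_le U (i + 1) j x) ((b1 i j x).trans (hA1' i j))
              (abs_nonneg _) hS10
            have p2 := mul_le_mul (wg_le U i j x) ((b1 (i + 1) j x).trans (hA1' (i + 1) j))
              (abs_nonneg _) hS10
            linarith
          simp only [Finset.sum_const, Finset.card_univ, Fintype.card_fin, nsmul_eq_mul,
            Nat.cast_ofNat] at h3
          linarith
      rw [div_mul_eq_mul_div, le_div_iff₀ hβa]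
      have h4 : |Carl.Lp (om i U) x| * |β| = |α * om i U x - om i (adv U U) x| := by
        rw [← abs_mul]
        congr 1
        linarith
      rw [h4]
      refine (abs_sub _ _).trans ?_
      rw [abs_mul]
      have h5 := mul_le_mul_of_nonneg_left hom (abs_nonneg α)
      have h6 : 0 ≤ |α| * S2 := mul_nonneg (abs_nonneg _) hS20
      have h7 : 0 ≤ A0 * S1 := mul_nonneg hA0p hS10
      have h8 : 0 ≤ 6 * A1 * S2 := by positivity
      nlinarith
    have h9 := Carl.uc (fun i => om i U) (fun i => om_sm hU i) (fun i => om_cs hU i) key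
    have h10 : ∀ x, U x = 0 := fun x => zero_of_om hU hd h9 x
    have h11 : ip U U = 0 := by
      unfold ip
      simp [h10]
    linarith

end Pool.Agent.Run7.h407.G.X
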