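import Mathlib
import Pool.Agent.Run7.h407.D.Uc
import Pool.Agent.Run7.h407.D.Tr

/-!
Blow-up from every datum which is not a steady Euler flow, at every point off its support.
-/

namespace Pool.Agent.Run7.h407.G.X

open Set Filter Topology MeasureTheory
open scoped ContDiff

variable {U : V → V}

theorem zero_of_ip (hU : CF U) (h : ip U U ≤ 0) (x : V) : U x = 0 := by
  funext i
  apply Carl.eq_zero_of_sq (hU.smc i) (hU.csc i) _ x
  refine le_trans ?_ h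
  unfold ip
  apply integral_mono
  · have := integrable_of_cs (hU.smc i).continuous (hU.csc i) (hU.smc i).continuous
    refine this.congr (Eventually.of_forall fun y => ?_)
    show U y i * U y i = U y i ^ 2
    ring
  · exact ip_int hU.sm.continuous hU
  · intro y
    show U y i ^ 2 ≤ ∑ i, U y i * U y i
    have h1 : U y i * U y i ≤ ∑ i, U y i * U y i :=
      Finset.single_le_sum (f := fun i => U y i * U y i) (fun i _ => mul_self_nonneg _)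
        (Finset.mem_univ i)
    nlinarith

theorem om_of_zero (h : ∀ x, U x = 0) (i : Fin 3) (x : V) : om i (adv U U) x = 0 := by
  have e : adv U U = fun _ => 0 := by
    funext y i
    unfold adv
    simp [h]
  rw [e]
  unfold om
  show pd (i + 1) (fun _ => (0 : ℝ)) x - pd i (fun _ => (0 : ℝ)) x = 0
  rw [pd_const, pd_const, sub_zero]

theorem ip_pos_of_om (hU : CF U) (h : ∃ i x, om i (adv U U) x ≠ 0) : 0 < ip U U := by
  by_contra hcon
  push Not at hcon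
  obtain ⟨i, x, hx⟩ := h
  exact hx (om_of_zero (zero_of_ip hU hcon) i x)

theorem bdd_of_cs {f : V → V} (hc : HasCompactSupport f) : ∃ R, ∀ x, f x ≠ 0 → ‖x‖ ≤ R := by
  obtain ⟨R, hR⟩ := hc.isCompact.isBounded.exists_norm_le
  exact ⟨R, fun x hx => hR x (subset_tsupport f hx)⟩

theorem exists_src (hU : CF U) (hd : ∀ x, dvg U x = 0) (ha : Aw0 U)
    (hns : ∃ i x, om i (adv U U) x ≠ 0) : ∃ (T0 φ : V → V) (l R1 : ℝ), Src U T0 φ l R1 := by
  have hn := ip_pos_of_om hU hns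
  obtain ⟨T0, t1, t2, t3, t4, t5, t6, t7⟩ := exists_T0 hU hd hn
  obtain ⟨φ, f1, f2, ⟨b, hb, f3⟩, f4, f5, f6⟩ := exists_phi hU hd hn ha hns
  obtain ⟨a, ha, hz⟩ := ha
  obtain ⟨r1, q1⟩ := bdd_of_cs hU.cs
  obtain ⟨r2, q2⟩ := bdd_of_cs t1.cs
  obtain ⟨r3, q3⟩ := bdd_of_cs f1.cs
  have hm : 0 < min a b := lt_min ha hb
  refine ⟨T0, φ, min a b, max (min a b) (max r1 (max r2 r3)),
    { l0 := hm, lR := le_max_left _ _, cu := hU, du := hd, ct := t1, dt := t2, cf := f1, df := f2,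
      su := fun x hx => ⟨?_, ?_⟩, st := fun x hx => ⟨?_, ?_⟩, sf := fun x hx => ⟨?_, ?_⟩,
      n0 := hn, iut := t5, dut := t6, tut := t7, b0 := t4, iuf := f4, duf := f5, tuf := f6 }⟩
  · by_contra hcon
    push Not at hcon
    exact hx (hz x (hcon.trans_le (min_le_left _ _)))
  · exact (q1 x hx).trans ((le_max_left _ _).trans (le_max_right _ _))
  · by_contra hcon
    push Not at hcon
    have h1 := t3 x hx
    have h2 : x ∉ tsupport U := by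
      rw [notMem_tsupport_iff_eventuallyEq]
      filter_upwards [nhds_ltn (hcon.trans_le (min_le_left _ _))] with y hy
      exact hz y hy
    exact h2 h1
  · exact (q2 x hx).trans ((le_max_left _ _).trans ((le_max_right _ _).trans (le_max_right _ _)))
  · by_contra hcon
    push Not at hcon
    exact hx (f3 x (hcon.trans_le (min_le_right _ _)))
  · exact (q3 x hx).trans ((le_max_right _ _).trans ((le_max_right _ _).trans (le_max_right _ _)))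

theorem adv_Tl (z : V) (u v : V → V) : adv (Tl z u) (Tl z v) = Tl z (adv u v) := by
  funext x i
  show ∑ j, Tl z u x j * pd j (fun y => Tl z v y i) x = ∑ j, u (x - z) j * pd j (fun y => v y i) (x - z)
  apply Finset.sum_congr rfl
  intro j _
  exact congrArg₂ (· * ·) rfl (pd_Tl z (fun y => v y i) j x)

theorem om_Tl (z : V) (u : V → V) (i : Fin 3) (x : V) : om i (Tl z u) x = om i u (x - z) :=
  congrArg₂ (· - ·) (pd_Tl z (fun y => u y i) _ x) (pd_Tl z (fun y => u y (i + 1)) _ x)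

/-- Translation of the family. -/
theorem Fam.tl {q : ℝ} {z : V} {p : ℕ → V → V} {g : ℕ → Fin 3 → V → V} (h : Fam q 0 U p g) :
    Fam q z (Tl z U) (fun n => Tl z (p n)) (fun n i => Tl z (g n i)) := by
  have tz : Tendsto (fun x : V => x - z) (𝓝 z) (𝓝 0) := by
    have : Tendsto (fun x : V => x - z) (𝓝 z) (𝓝 (z - z)) :=
      (continuous_id.sub continuous_const).tendsto z
    rw [sub_self] at this
    exact this
  obtain ⟨Wm, g5, g6⟩ := h.big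
  refine ⟨?_, fun n => ?_, fun m n hmn => ?_, fun n i => ?_, fun n i x hx => ?_,
    ⟨Wm.comap (Tl (-z)), ?_, fun w => ?_⟩⟩
  · show Tl z (p 0) = Tl z U
    rw [h.zero]
  · obtain ⟨a1, a2, a3, a4⟩ := h.mode n
    exact ⟨sm_Tl z a1, cs_Tl z a2, fun x => by rw [dvg_Tl, a3], by rw [ip_Tl]; exact a4⟩
  · rw [ip_Tl, Dir_Tl]
    exact h.orth m n hmn
  · obtain ⟨a1, a2, a3⟩ := h.field n i
    exact ⟨sm_Tl z a1, cs_Tl z a2, tz.eventually a3⟩
  · have := h.ball n i (x - z) hx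
    rw [sub_zero] at this
    exact this
  · apply IsSpG.tl
    simp only [Tl_inv']
    exact g5
  · show Tl (-z) w ∈ Wm ↔ _
    rw [g6]
    constructor
    · rintro ⟨b1, b2, b3⟩
      refine ⟨?_, ?_, fun n i => ?_⟩
      · have := L2F_Tl z b1
        rw [Tl_inv] at this
        exact this
      · have := WDF_Tl z b2
        rw [Tl_inv] at this
        exact this
      · have := b3 n i
        rw [← ip_Tl z, Tl_inv] at this
        exact this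
    · rintro ⟨b1, b2, b3⟩
      refine ⟨L2F_Tl _ b1, WDF_Tl _ b2, fun n i => ?_⟩
      have := b3 n i
      rw [← ip_Tl z, Tl_inv]
      exact this

/-- Translation of the blow-up. -/
theorem Blo.tl {δ ρ ν T₀ : ℝ} {z : V} {p : ℕ → V → V} {g : ℕ → Fin 3 → V → V} {v : V → V}
    (h : Blo δ 0 ρ p g ν v T₀) :
    Blo δ z ρ (fun n => Tl z (p n)) (fun n i => Tl z (g n i)) ν (Tl z v) T₀ := by
  obtain ⟨T, hT, hTA, u, k1, k2, ⟨C, k3⟩, k4, k5, k6⟩ := h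
  refine ⟨T, hT, hTA, fun t => Tl z (u t), ?_, fun t ht x hx => ?_, ⟨C, ?_⟩, ?_,
    fun M => ?_, fun W hW => ?_⟩
  · show Tl z (u 0) = Tl z v
    rw [k1]
  · apply k2 t ht
    rw [sub_zero]
    exact hx
  · intro t ht x
    have := k3 t ht (x - z)
    rw [sub_zero] at this
    exact this
  · refine k4.congr fun t => ?_
    exact (int_Tl z (fun x => ‖u t x‖ ^ 3)).symm
  · filter_upwards [k5 M] with t ht
    obtain ⟨x, hx⟩ := ht
    refine ⟨x + z, ?_⟩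
    show M < ‖u t (x + z - z)‖
    rw [add_sub_cancel_right]
    exact hx
  · obtain ⟨k7, k8⟩ := k6 _ (IsSpG.tl hW)
    refine ⟨IsProj.tl k7, fun T' w hw h0 => ?_⟩
    obtain ⟨k9, k10⟩ := k8 T' _ (IsProj.tl' hw) (by
      show Tl (-z) (w 0) = v
      rw [h0, Tl_inv'])
    refine ⟨k9, fun t ht => ?_⟩
    show w t = Tl z (u t)
    rw [← k10 t ht, Tl_inv]

theorem Aw0_Tl {z : V} (hz : ∀ᶠ x in 𝓝 z, U x = 0) : Aw0 (Tl (-z) U) := by
  obtain ⟨ε, hε, h⟩ := Metric.eventually_nhds_iff.1 hz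
  refine ⟨ε, hε, fun x hx => ?_⟩
  show U (x - -z) = 0
  apply h
  rw [dist_eq_norm]
  have : x - -z - z = x := by abel
  rw [this]
  exact hx

/-- Every datum which is not a steady Euler flow. -/
theorem mainA (δ q : ℝ) (hq : 1 < q) (hq1 : q < 5 / 4) (hq2 : q ≤ 1 + δ / 4)
    (hU : CF U) (hd : ∀ x, dvg U x = 0) (hns : ∃ i x, om i (adv U U) x ≠ 0) {z : V}
    (hz : ∀ᶠ x in 𝓝 z, U x = 0) :
    ∃ (p : ℕ → V → V) (g : ℕ → Fin 3 → V → V) (ρ : ℝ), Fam q z U p g ∧ ∃ A₀ > 0, ∀ ν ≥ 0,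
      ∀ a > 0, A₀ * ν ≤ a → Blo δ z ρ p g ν (fun x => a • U x) (A₀ / a) := by
  have hU' : CF (Tl (-z) U) := ⟨sm_Tl _ hU.sm, cs_Tl _ hU.cs⟩
  have hd' : ∀ x, dvg (Tl (-z) U) x = 0 := fun x => by rw [dvg_Tl, hd]
  have ha' := Aw0_Tl hz
  have hns' : ∃ i x, om i (adv (Tl (-z) U) (Tl (-z) U)) x ≠ 0 := by
    obtain ⟨i, x, hx⟩ := hns
    refine ⟨i, x - z, ?_⟩
    rw [adv_Tl, om_Tl]
    have : x - z - -z = x := by abel
    rw [this]
    exact hx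
  obtain ⟨T0, φ, l, R1, S⟩ := exists_src hU' hd' ha' hns'
  obtain ⟨A₀, hA, H⟩ := S.blow δ q hq hq1 hq2
  have hR1 : 0 < R1 := S.l0.trans_le S.lR
  have e0 : P0 (fun _ => 0) (Tl (-z) U) 1 1 = Tl (-z) U := by
    funext x
    show (0 : V) + (1 : ℝ) • dil 1 (Tl (-z) U) x = _
    rw [dil_one, one_smul, zero_add]
  have hP : Prt (fun _ => 0) (Tl (-z) U) T0 φ l R1 (R1 + 1) 1 1 :=
    { S := S
      cu := ⟨contDiff_const, HasCompactSupport.zero⟩
      du := fun x => Finset.sum_eq_zero fun i _ => pd_const _ _ _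
      zu := fun x _ => rfl
      s1 := le_rfl
      sR := by linarith
      b0 := one_pos
      hD := by
        have h1 : Dir (fun _ : V => (0 : V)) (fun _ => 0) = 0 := by
          apply Dir_zero_of
          intro x
          exact Or.inl (Eventually.of_forall fun _ => rfl)
        have h2 : ip (fun _ : V => (0 : V)) (fun _ => 0) = 0 := by
          apply ip_zero_of'
          intro x
          exact Or.inl rfl
        rw [h1, h2]
        simp }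
  obtain ⟨p, g, ρ, hF, hB⟩ := H _ _ _ _ hP
  rw [e0] at hF hB
  have e1 := Tl_inv z U
  have hF' := hF.tl (z := z)
  rw [e1] at hF'
  refine ⟨_, _, ρ, hF', A₀, hA, fun ν hν a ha haν => ?_⟩
  have h1 := (hB ν hν a ha (by linarith)).tl (z := z)
  have e2 : Tl z (fun x => a • Tl (-z) U x) = fun x => a • U x := by
    funext x
    show a • Tl (-z) U (x - z) = a • U x
    have := congrFun e1 x
    rw [← this]
    rfl
  rw [e2] at h1
  exact h1.mono (by rw [mul_one, one_pow, mul_one])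

theorem mainD (δ q : ℝ) (hq : 1 < q) (hq1 : q < 5 / 4) (hq2 : q ≤ 1 + δ / 4)
    (hU : CF U) (hd : ∀ x, dvg U x = 0) (hns : ∃ i x, om i (adv U U) x ≠ 0) {z : V}
    (hz : ∀ᶠ x in 𝓝 z, U x = 0) :
    ∃ (p : ℕ → V → V) (g : ℕ → Fin 3 → V → V), p 0 = U ∧
    (∀ n, ContDiff ℝ ∞ (p n) ∧ HasCompactSupport (p n) ∧ (∀ x, dvg (p n) x = 0) ∧
      0 < ip (p n) (p n)) ∧
    (∀ m n, m ≠ n → ip (p m) (p n) = 0 ∧ Dir (p m) (p n) = 0) ∧
    (∀ n i, ContDiff ℝ ∞ (g n i) ∧ HasCompactSupport (g n i) ∧ ∀ᶠ x in 𝓝 z, g n i x = 0) ∧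
    (∀ n i x, g (n + 3) i x ≠ 0 → ‖x - z‖ ≤ (2 : ℝ) ^ (-(q ^ (n + 2)))) ∧
    (∃ W : Submodule ℝ (V → V), IsSpG p g W ∧ ∀ w, w ∈ W ↔ L2F w ∧ WDF w ∧
      ∀ (n : ℕ) (i : Fin 3), ip w (g n i) = 0) ∧
    ∃ A₀ ρ : ℝ, 0 < A₀ ∧ ∀ ν ≥ 0, ∀ a > 0, A₀ * ν ≤ a →
      ∃ T, 0 < T ∧ T ≤ A₀ / a ∧ ∃ u : ℝ → V → V,
        (∀ x, u 0 x = a • U x) ∧
        (∀ t ∈ Ico 0 T, ∀ x, ρ < ‖x - z‖ → u t x = 0) ∧
        (∃ C, ∀ t ∈ Ico 0 T, ∀ x, ‖u t x‖ * ‖x - z‖ ^ (1 + δ) ≤ C) ∧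
        Tendsto (fun t => ∫ x, ‖u t x‖ ^ 3) (𝓝[<] T) atTop ∧
        (∀ M, ∀ᶠ t in 𝓝[<] T, ∃ x, M < ‖u t x‖) ∧
        ∀ W : Submodule ℝ (V → V), IsSpG p g W → IsProj W ν T u ∧
          ∀ (T' : ℝ) (w : ℝ → V → V), IsProj W ν T' w → (∀ x, w 0 x = a • U x) →
            T' ≤ T ∧ ∀ t ∈ Ico 0 T', w t = u t := by
  obtain ⟨p, g, ρ, hF, A₀, hA, H⟩ := mainA δ q hq hq1 hq2 hU hd hns hz
  refine ⟨p, g, hF.zero, hF.mode, hF.orth, hF.field, hF.ball, hF.big, A₀, ρ, hA,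
    fun ν hν a ha haν => ?_⟩
  obtain ⟨T, hT, hTA, u, k1, k2, k3, k4, k5, k6⟩ := H ν hν a ha haν
  refine ⟨T, hT, hTA, u, fun x => congrFun k1 x, k2, k3, k4, k5, fun W hW => ⟨(k6 W hW).1,
    fun T' w hw h0 => (k6 W hW).2 T' w hw (funext h0)⟩⟩

theorem main0 (δ q : ℝ) (hq : 1 < q) (hq1 : q < 5 / 4) (hq2 : q ≤ 1 + δ / 4)
    (hU : CF U) (hd : ∀ x, dvg U x = 0) (ha : Aw0 U) (hns : ∃ i x, om i (adv U U) x ≠ 0) :
    ∃ (p : ℕ → V → V) (g : ℕ → Fin 3 → V → V), p 0 = U ∧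
    (∀ n, ContDiff ℝ ∞ (p n) ∧ HasCompactSupport (p n) ∧ (∀ x, dvg (p n) x = 0) ∧
      0 < ip (p n) (p n)) ∧
    (∀ m n, m ≠ n → ip (p m) (p n) = 0 ∧ Dir (p m) (p n) = 0) ∧
    (∀ n i, ContDiff ℝ ∞ (g n i) ∧ HasCompactSupport (g n i) ∧ ∀ᶠ x in 𝓝 0, g n i x = 0) ∧
    (∀ n i x, g (n + 3) i x ≠ 0 → ‖x‖ ≤ (2 : ℝ) ^ (-(q ^ (n + 2)))) ∧
    (∃ W : Submodule ℝ (V → V), IsSpG p g W ∧ ∀ w, w ∈ W ↔ L2F w ∧ WDF w ∧
      ∀ (n : ℕ) (i : Fin 3), ip w (g n i) = 0) ∧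
    ∃ A₀ ρ : ℝ, 0 < A₀ ∧ ∀ ν ≥ 0, ∀ a > 0, A₀ * ν ≤ a →
      ∃ T, 0 < T ∧ T ≤ A₀ / a ∧ ∃ u : ℝ → V → V,
        (∀ x, u 0 x = a • U x) ∧
        (∀ t ∈ Ico 0 T, ∀ x, ρ < ‖x‖ → u t x = 0) ∧
        (∃ C, ∀ t ∈ Ico 0 T, ∀ x, ‖u t x‖ * ‖x‖ ^ (1 + δ) ≤ C) ∧
        Tendsto (fun t => ∫ x, ‖u t x‖ ^ 3) (𝓝[<] T) atTop ∧
        (∀ M, ∀ᶠ t in 𝓝[<] T, ∃ x, M < ‖u t x‖) ∧
        ∀ W : Submodule ℝ (V → V), IsSpG p g W → IsProj W ν T u ∧
          ∀ (T' : ℝ) (w : ℝ → V → V), IsProj W ν T' w → (∀ x, w 0 x = a • U x) →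
            T' ≤ T ∧ ∀ t ∈ Ico 0 T', w t = u t := by
  have h := mainD (z := 0) δ q hq hq1 hq2 hU hd hns (nhds0_of_aw ha)
  simp only [sub_zero] at h
  exact h

theorem exists_src0 : ∃ (V0 T0 φ : V → V) (l R1 : ℝ), Src V0 T0 φ l R1 ∧ 0 < Dir V0 V0 := by
  let c : Sc := ⟨1, fun _ => 2, fun _ => 1, le_rfl, fun _ => le_rfl, fun _ => one_pos,
    fun _ => le_rfl⟩
  have hc := c.chn
  have hU := hc.cf 1
  have hd := hc.dv 1
  have hn : 0 < ip (c.P 1) (c.P 1) := hc.N0 0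
  have hσ : c.σ 0 = 1 := c.σ_zero
  have hD : 0 < Dir (c.P 1) (c.P 1) := by
    have h1 := c.dd_low 0
    have h2 := S0_pos
    rw [hσ, one_pow, one_mul] at h1
    exact h2.trans_le h1
  have hC : 0 < Cc c.P 1 := by
    rw [c.cc_eq 0, hσ]
    have := β0_pos
    show 0 < (1 : ℝ) ^ 5 * (1 * β0)
    rw [one_pow, one_mul, one_mul]
    exact this
  obtain ⟨T0, t1, t2, t3, t4, t5, t6, t7⟩ := exists_T0 hU hd hn
  have hs1 : ∀ x, c.P 1 x ≠ 0 → 3 / 4 ≤ ‖x‖ := by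
    intro x hx
    have h1 := (c.blk_supp (n := 0) hx).1
    rw [hσ, one_pow, one_mul] at h1
    have h2 := norm_le_pi_norm x 2
    rw [Real.norm_eq_abs] at h2
    exact (h1.trans (le_abs_self _)).trans h2
  have hσ1 : c.σ 1 = 2 := by
    rw [c.σ_succ, hσ]
    show (1 : ℝ) * 2 = 2
    norm_num
  have hs2 : ∀ x, c.P 2 x ≠ 0 → 3 / 16 ≤ ‖x‖ := by
    intro x hx
    have h1 := (c.blk_supp (n := 1) hx).1
    rw [hσ1] at h1
    have h2 := norm_le_pi_norm x 2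
    rw [Real.norm_eq_abs] at h2
    have h3 := (le_abs_self (x 2)).trans h2
    linarith
  refine ⟨c.P 1, T0, fun x => (Cc c.P 1)⁻¹ • c.P 2 x, 3 / 16, 17 / 4,
    { l0 := by norm_num, lR := by norm_num, cu := hU, du := hd, ct := t1, dt := t2,
      cf := (hc.cf 2).smul _
      df := fun x => ?_
      su := fun x hx => ⟨by linarith [hs1 x hx], hc.ball 1 x hx⟩
      st := fun x hx => ?_
      sf := fun x hx => ?_
      n0 := hn, iut := t5, dut := t6, tut := t7, b0 := t4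
      iuf := ?_
      duf := ?_
      tuf := ?_ }, hD⟩
  · rw [dvg_smul _ (hc.cf 2), hc.dv, mul_zero]
  · have h1 := t3 x hx
    have h2 : tsupport (c.P 1) ⊆ {y | 3 / 4 ≤ ‖y‖} ∩ {y | ‖y‖ ≤ 17 / 4} := by
      apply closure_minimal
      · intro y hy
        exact ⟨hs1 y hy, hc.ball 1 y hy⟩
      · exact (isClosed_le continuous_const continuous_norm).inter
          (isClosed_le continuous_norm continuous_const)
    have h3 := h2 h1
    exact ⟨by linarith [h3.1.out], h3.2⟩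
  · have h1 : c.P 2 x ≠ 0 := by
      intro h
      apply hx
      show (Cc c.P 1)⁻¹ • c.P 2 x = 0
      rw [h, smul_zero]
    exact ⟨hs2 x h1, hc.ball 2 x h1⟩
  · rw [ip_comm, ip_smul_left, ip_comm, hc.ip1, mul_zero]
  · rw [Dir_comm, Dir_smul_left _ (hc.cf 2), Dir_comm, hc.Dir1, mul_zero]
  · rw [tri_smul_right]
    have h1 : tri (c.P 1) (c.P 1) (c.P 2) = -Cc c.P 1 := by
      show _ = - -tri (c.P 1) (c.P 1) (c.P (1 + 1))
      rw [neg_neg]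
    rw [h1]
    field_simp

/-- The `r`-th power integral of a rescaled field. -/
theorem int_dil_rpow (F : V → V) {r s b : ℝ} (hs : 0 < s) (hb : 0 < b) :
    ∫ x, ‖b • dil s F x‖ ^ r = (b * s ^ 3) ^ r * (s ^ 6)⁻¹ * ∫ x, ‖F x‖ ^ r := by
  have e : ∀ x, ‖b • dil s F x‖ ^ r = (b * s ^ 3) ^ r * (fun y => ‖F y‖ ^ r) (s ^ 2 • x) := by
    intro x
    show ‖b • (s ^ 3 • F (s ^ 2 • x))‖ ^ r = (b * s ^ 3) ^ r * ‖F (s ^ 2 • x)‖ ^ r
    rw [smul_smul, norm_smul, Real.norm_eq_abs, abs_of_pos (by positivity),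
      Real.mul_rpow (by positivity) (norm_nonneg _)]
  have hf : Module.finrank ℝ V = 3 := by simp
  have e2 : ∫ x, (fun y => ‖F y‖ ^ r) (s ^ 2 • x) = (s ^ 6)⁻¹ * ∫ x, ‖F x‖ ^ r := by
    rw [Measure.integral_comp_smul volume (fun y => ‖F y‖ ^ r) (s ^ 2), hf,
      abs_of_pos (by positivity), smul_eq_mul]
    congr 2
    ring
  rw [funext e, integral_const_mul, e2]
  ring

/-- Small localised perturbations of every datum, at every viscosity. -/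
theorem mainB0 (δ q : ℝ) (hq : 1 < q) (hq1 : q < 5 / 4) (hq2 : q ≤ 1 + δ / 4)
    (hU : CF U) (hd : ∀ x, dvg U x = 0) (ha : Aw0 U) {r ε N : ℝ} (hr : 0 < r) (hr3 : r < 3)
    (hε : 0 < ε) : ∃ F : V → V, CF F ∧ (∀ x, dvg F x = 0) ∧ (∀ x, F x ≠ 0 → ‖x‖ ≤ ε) ∧
      ∫ x, ‖F x‖ ^ r ≤ ε ∧ ∃ (p : ℕ → V → V) (g : ℕ → Fin 3 → V → V) (ρ : ℝ),
        Fam q 0 (fun x => U x + F x) p g ∧ ∀ ν, 0 ≤ ν → ν ≤ N →
          Blo δ 0 ρ p g ν (fun x => U x + F x) ε := by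
  obtain ⟨V0, T0, φ, l, R1, S, hDV⟩ := exists_src0
  obtain ⟨A₀, hA, H⟩ := S.blow δ q hq hq1 hq2
  obtain ⟨lU, hlU, hz⟩ := ha
  have hR1 : 0 < R1 := S.l0.trans_le S.lR
  obtain ⟨β, hβ1, hβ2⟩ : ∃ β : ℝ, β < 1 ∧ r * (3 - β) - 6 < 0 := by
    refine ⟨(1 + (3 - 6 / r)) / 2, ?_, ?_⟩
    · have : 2 < 6 / r := by
        rw [lt_div_iff₀ hr]
        linarith
      linarith
    · have : r * (3 - (1 + (3 - 6 / r)) / 2) - 6 = r - 3 := by
        field_simp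
        ring
      linarith
  have p2 : Tendsto (fun s : ℝ => s ^ 2) atTop atTop := tendsto_pow_atTop two_ne_zero
  have p4 : Tendsto (fun s : ℝ => s ^ 4) atTop atTop := tendsto_pow_atTop four_ne_zero
  have E1 : ∀ᶠ s : ℝ in atTop, R1 / lU < s ^ 2 := p2.eventually_gt_atTop _
  have E2 : ∀ᶠ s : ℝ in atTop, R1 / ε ≤ s ^ 2 := p2.eventually_ge_atTop _
  have E3 : ∀ᶠ s : ℝ in atTop, Dir U U * ip V0 V0 / (Dir V0 V0 * ip U U) ≤ s ^ 4 :=
    p4.eventually_ge_atTop _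
  have E4 : ∀ᶠ s : ℝ in atTop, A₀ * N ≤ s ^ (1 - β) :=
    (tendsto_rpow_atTop (by linarith)).eventually_ge_atTop _
  have E5 : ∀ᶠ s : ℝ in atTop, A₀ / ε ≤ s ^ (5 - β) :=
    (tendsto_rpow_atTop (by linarith)).eventually_ge_atTop _
  have E6 : ∀ᶠ s : ℝ in atTop, s ^ (r * (3 - β) - 6) * ∫ x, ‖V0 x‖ ^ r ≤ ε := by
    have h1 : Tendsto (fun s : ℝ => s ^ (-(6 - r * (3 - β))) * ∫ x, ‖V0 x‖ ^ r) atTop
        (𝓝 (0 * ∫ x, ‖V0 x‖ ^ r)) :=
      (tendsto_rpow_neg_atTop (by linarith)).mul_const _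
    rw [zero_mul, neg_sub] at h1
    exact h1.eventually_le_const hε
  obtain ⟨s, ⟨⟨⟨⟨⟨⟨e1, e2⟩, e3⟩, e4⟩, e5⟩, e6⟩, hs1⟩⟩ :=
    ((((((E1.and E2).and E3).and E4).and E5).and E6).and (eventually_ge_atTop 1)).exists
  have hs : 0 < s := by linarith
  have hb : 0 < s ^ (-β) := Real.rpow_pos_of_pos hs _
  rw [div_lt_iff₀ hlU] at e1
  rw [div_le_iff₀ hε] at e2 e5
  have hP : Prt U V0 T0 φ l R1 lU s (s ^ (-β)) :=
    { S := S
      cu := hU
      du := hd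
      zu := hz
      s1 := hs1
      sR := e1
      b0 := hb
      hD := by
        rcases (ip_nonneg U).lt_or_eq with h | h
        · rw [div_le_iff₀ (by positivity)] at e3
          linarith
        · have h1 : Dir U U = 0 := by
            apply Dir_zero_of
            intro x
            exact Or.inl (Eventually.of_forall fun y => zero_of_ip hU h.symm.le y)
          rw [h1, ← h]
          simp }
  obtain ⟨p, g, ρ, hF, hB⟩ := H _ _ _ _ hP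
  refine ⟨fun x => s ^ (-β) • dil s V0 x, hP.cV.smul _, fun x => ?_, fun x hx => ?_, ?_, p, g, ρ,
    hF, fun ν hν hνN => ?_⟩
  · rw [dvg_smul _ hP.cV, dvg_dil S.cu.smc, S.du, mul_zero, mul_zero]
  · have h2 : V0 (s ^ 2 • x) ≠ 0 := by
      intro h3
      apply hx
      show s ^ (-β) • (s ^ 3 • V0 (s ^ 2 • x)) = 0
      rw [h3, smul_zero, smul_zero]
    have h4 := (S.su _ h2).2
    rw [norm_smul, Real.norm_eq_abs, abs_of_pos (by positivity)] at h4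
    have h5 : 0 < s ^ 2 := by positivity
    nlinarith
  · rw [int_dil_rpow V0 hs hb]
    have e7 : (s ^ (-β) * s ^ 3) ^ r * (s ^ 6)⁻¹ = s ^ (r * (3 - β) - 6) := by
      have h3 : s ^ (3 : ℕ) = s ^ (3 : ℝ) := by norm_cast
      have h6 : (s ^ (6 : ℕ))⁻¹ = s ^ (-6 : ℝ) := by
        rw [Real.rpow_neg hs.le]
        norm_cast
      rw [h3, h6, ← Real.rpow_add hs, ← Real.rpow_mul hs.le, ← Real.rpow_add hs]
      congr 1
      ring
    rw [e7]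
    exact e6
  · have h1 : s ^ (-β) * s = s ^ (1 - β) := by
      have : s ^ (-β) * s = s ^ (-β) * s ^ (1 : ℝ) := by rw [Real.rpow_one]
      rw [this, ← Real.rpow_add hs]
      congr 1
      ring
    have h2 : s ^ (-β) * s ^ 5 = s ^ (5 - β) := by
      have h5 : s ^ (5 : ℕ) = s ^ (5 : ℝ) := by norm_cast
      rw [h5, ← Real.rpow_add hs]
      congr 1
      ring
    have h3 := hB ν hν 1 one_pos (by
      rw [one_mul, h1]
      exact (mul_le_mul_of_nonneg_left hνN hA.le).trans e4)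
    have e8 : (fun x => (1 : ℝ) • P0 U V0 (s ^ (-β)) s x)
        = fun x => U x + s ^ (-β) • dil s V0 x := by
      funext x
      rw [one_smul]
      rfl
    rw [e8] at h3
    refine h3.mono ?_
    rw [one_mul, h2, div_le_iff₀ (by positivity)]
    linarith

/-- The same at every point off the support. -/
theorem mainB (δ q : ℝ) (hq : 1 < q) (hq1 : q < 5 / 4) (hq2 : q ≤ 1 + δ / 4)
    (hU : CF U) (hd : ∀ x, dvg U x = 0) {z : V} (hz : ∀ᶠ x in 𝓝 z, U x = 0) {r ε N : ℝ}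
    (hr : 0 < r) (hr3 : r < 3)
    (hε : 0 < ε) : ∃ F : V → V, CF F ∧ (∀ x, dvg F x = 0) ∧ (∀ x, F x ≠ 0 → ‖x - z‖ ≤ ε) ∧
      ∫ x, ‖F x‖ ^ r ≤ ε ∧ ∃ (p : ℕ → V → V) (g : ℕ → Fin 3 → V → V) (ρ : ℝ),
        Fam q z (fun x => U x + F x) p g ∧ ∀ ν, 0 ≤ ν → ν ≤ N →
          Blo δ z ρ p g ν (fun x => U x + F x) ε := by
  have hU' : CF (Tl (-z) U) := ⟨sm_Tl _ hU.sm, cs_Tl _ hU.cs⟩
  have hd' : ∀ x, dvg (Tl (-z) U) x = 0 := fun x => by rw [dvg_Tl, hd]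
  obtain ⟨F, f1, f2, f3, f4, p, g, ρ, hF, hB⟩ := mainB0 δ q hq hq1 hq2 hU' hd' (Aw0_Tl hz) (N := N)
    hr hr3 hε
  have e1 : Tl z (fun x => Tl (-z) U x + F x) = fun x => U x + Tl z F x := by
    funext x
    show Tl (-z) U (x - z) + F (x - z) = U x + F (x - z)
    have := congrFun (Tl_inv z U) x
    rw [← this]
    rfl
  refine ⟨Tl z F, ⟨sm_Tl z f1.sm, cs_Tl z f1.cs⟩, fun x => by rw [dvg_Tl, f2],
    fun x hx => f3 _ hx, ?_, fun n => Tl z (p n), fun n i => Tl z (g n i), ρ, ?_,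
    fun ν h0 h1 => ?_⟩
  · exact (int_Tl z (fun x => ‖F x‖ ^ r)).le.trans f4
  · have := hF.tl (z := z)
    rw [e1] at this
    exact this
  · have := (hB ν h0 h1).tl (z := z)
    rw [e1] at this
    exact this

end Pool.Agent.Run7.h407.G.X
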